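import Pool.Agent.Helper775.Tight.Spheres

set_option autoImplicit false

namespace Pool.Agent.Helper775.Tight



open Set Topology SoftCx

/-- Mayer-Vietoris gluing with given primitives. -/
theorem j9105_glue {Y K : Type*} [TopologicalSpace Y] [AddCommGroup K] {C : SoftCx Y K}
    {n : ℕ} {k b₁ b₂ b' : K} {Z₁ Z₂ : Set Y} (h₁ : IsClosed Z₁) (h₂ : IsClosed Z₂)
    (hb₁ : ∀ z ∈ Z₁, k - C.D b₁ ∈ C.N z (n + 1)) (hb₂ : ∀ z ∈ Z₂, k - C.D b₂ ∈ C.N z (n + 1))
    (hb' : C.Coc Z₁ n b') (hI : C.Cob (Z₁ ∩ Z₂) n (b₁ - b₂ - b')) : C.Cob (Z₁ ∪ Z₂) (n + 1) k := by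
  obtain ⟨e, he⟩ := hI
  obtain ⟨m, hm₁, hm₂⟩ := C.soft n (b₁ - b₂ - b' - C.D e) Z₁ Z₂ h₁ h₂ he
  refine ⟨b₁ - b' - C.D e - m, ?_⟩
  rintro z (hz | hz)
  · have e1 : k - C.D (b₁ - b' - C.D e - m) =
        (k - C.D b₁) + C.D b' + C.D (C.D e) + C.D m := by
      simp only [map_sub]; abel
    rw [e1]
    exact add_mem (add_mem (add_mem (hb₁ z hz) (hb' z hz)) (C.DD_mem z _ e))
      (C.D_mem z n m (hm₁ z hz))
  · have e1 : k - C.D (b₁ - b' - C.D e - m) =
        (k - C.D b₂) - C.D (b₁ - b₂ - b' - C.D e - m) := by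
      simp only [map_sub]; abel
    rw [e1]
    exact sub_mem (hb₂ z hz) (C.D_mem z n _ (hm₂ z hz))

/-- triviality of a cocycle over the equator -/
def j9105_Tr (M k : ℕ) (b : Ch (EuclideanSpace ℝ (Fin M))) : Prop :=
  (AS _).Cob (Sp M k) k b ∨ (k = 1 ∧ (AS _).Cob (Sp M k) k (b - one))

theorem j9105_step {M k : ℕ} (hk : 1 ≤ k) (hkM : k < M)
    (H : ∀ b b' : Ch (EuclideanSpace ℝ (Fin M)), (AS _).Coc (Sp M k) k b → (AS _).Coc (Sp M k) k b' →
      j9105_Tr M k b ∨ j9105_Tr M k b' ∨ j9105_Tr M k (b - b'))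
    (c c' : Ch (EuclideanSpace ℝ (Fin M)))
    (hc : (AS _).Coc (Sp M (k + 1)) (k + 1) c) (hc' : (AS _).Coc (Sp M (k + 1)) (k + 1) c') :
    (AS _).Cob (Sp M (k + 1)) (k + 1) c ∨ (AS _).Cob (Sp M (k + 1)) (k + 1) c' ∨
      (AS _).Cob (Sp M (k + 1)) (k + 1) (c - c') := by
  obtain ⟨A, B, hA, hB, hAB, hI, hAa, hBa⟩ := hemi_facts hkM
  have hAs : A ⊆ Sp M (k + 1) := by rw [← hAB]; exact subset_union_left
  have hBs : B ⊆ Sp M (k + 1) := by rw [← hAB]; exact subset_union_right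
  obtain ⟨bA, hbA⟩ := hAa.2.2 (k + 1) (by omega) c (hc.mono hAs)
  obtain ⟨bB, hbB⟩ := hBa.2.2 (k + 1) (by omega) c (hc.mono hBs)
  obtain ⟨bA', hbA'⟩ := hAa.2.2 (k + 1) (by omega) c' (hc'.mono hAs)
  obtain ⟨bB', hbB'⟩ := hBa.2.2 (k + 1) (by omega) c' (hc'.mono hBs)
  have glue : ∀ (x y w : Ch (EuclideanSpace ℝ (Fin M))),
      (∀ z ∈ A, w - (AS _).D x ∈ (AS _).N z (k + 1)) → (∀ z ∈ B, w - (AS _).D y ∈ (AS _).N z (k + 1)) →
      j9105_Tr M k (x - y) → (AS _).Cob (Sp M (k + 1)) (k + 1) w := by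
    intro x y w hx hy ht
    rw [← hAB]
    rcases ht with ht | ⟨hk1, ht⟩
    · refine j9105_glue (b' := 0) hA.isClosed hB.isClosed hx hy (coc_zero _ _) ?_
      rw [hI, sub_zero]
      exact ht
    · refine j9105_glue (b' := one) hA.isClosed hB.isClosed hx hy ?_ ?_
      · intro z _
        rw [hk1]
        exact one_D_mem z
      · rw [hI]
        exact ht
  have hcoc : ∀ (x y w : Ch (EuclideanSpace ℝ (Fin M))),
      (∀ z ∈ A, w - (AS _).D x ∈ (AS _).N z (k + 1)) → (∀ z ∈ B, w - (AS _).D y ∈ (AS _).N z (k + 1)) →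
      (AS _).Coc (Sp M k) k (x - y) := by
    intro x y w hx hy z hz
    rw [← hI] at hz
    have := sub_mem (hy z hz.2) (hx z hz.1)
    rw [map_sub]
    convert this using 1
    abel
  rcases H _ _ (hcoc _ _ _ hbA hbB) (hcoc _ _ _ hbA' hbB') with h | h | h
  · exact Or.inl (glue _ _ _ hbA hbB h)
  · exact Or.inr (Or.inl (glue _ _ _ hbA' hbB' h))
  · refine Or.inr (Or.inr (glue (bA - bA') (bB - bB') _ ?_ ?_ ?_))
    · intro z hz
      have := sub_mem (hbA z hz) (hbA' z hz)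
      rw [map_sub]
      convert this using 1
      abel
    · intro z hz
      have := sub_mem (hbB z hz) (hbB' z hz)
      rw [map_sub]
      convert this using 1
      abel
    · have e : bA - bA' - (bB - bB') = bA - bB - (bA' - bB') := by abel
      rw [e]
      exact h

theorem j9105_sp_one {M : ℕ} (hM : 0 < M) : ∃ e e' : EuclideanSpace ℝ (Fin M), Sp M 1 = {e, e'} := by
  refine ⟨EuclideanSpace.single ⟨0, hM⟩ 1, EuclideanSpace.single ⟨0, hM⟩ (-1), ?_⟩
  ext x
  constructor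
  · rintro ⟨h1, h2⟩
    have hx : x = EuclideanSpace.single ⟨0, hM⟩ (x ⟨0, hM⟩) := by
      ext i
      by_cases hi : i = ⟨0, hM⟩
      · rw [hi]; simp
      · rw [h2 i (by
          rcases Nat.eq_zero_or_pos i.val with h | h
          · exact absurd (Fin.ext h) hi
          · exact h)]
        simp [hi]
    rw [hx, EuclideanSpace.norm_single, Real.norm_eq_abs] at h1
    rcases (abs_eq zero_le_one).1 h1 with h | h
    · left; rw [hx, h]
    · right; rw [mem_singleton_iff, hx, h]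
  · have key : ∀ t : ℝ, |t| = 1 → (EuclideanSpace.single ⟨0, hM⟩ t : EuclideanSpace ℝ (Fin M)) ∈ Sp M 1 := by
      intro t ht
      refine ⟨by rw [EuclideanSpace.norm_single, Real.norm_eq_abs, ht], fun i hi => ?_⟩
      have hne : i ≠ ⟨0, hM⟩ := by
        rintro rfl
        simp at hi
      simp [hne]
    rintro (h | h)
    · rw [h]; exact key 1 (by norm_num)
    · rw [mem_singleton_iff.1 h]; exact key (-1) (by norm_num)

theorem j9105_base {M : ℕ} (hM : 0 < M) (b b' : Ch (EuclideanSpace ℝ (Fin M)))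
    (hb : (AS _).Coc (Sp M 1) 1 b) (hb' : (AS _).Coc (Sp M 1) 1 b') :
    j9105_Tr M 1 b ∨ j9105_Tr M 1 b' ∨ j9105_Tr M 1 (b - b') := by
  obtain ⟨e, e', hS⟩ := j9105_sp_one hM
  have hone : (one : Ch (EuclideanSpace ℝ (Fin M))) = - one := by
    funext l
    show (1 : ZMod 2) = - 1
    decide
  have he : e ∈ Sp M 1 := by rw [hS]; simp
  have he' : e' ∈ Sp M 1 := by rw [hS]; simp
  have ty : ∀ c : Ch (EuclideanSpace ℝ (Fin M)), (AS _).Coc (Sp M 1) 1 c → ∀ z ∈ Sp M 1,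
      c ∈ (AS _).N z 1 ∨ c - one ∈ (AS _).N z 1 := by
    intro c hc z hz
    rcases (acy_singleton z).2.1 c (hc.mono (singleton_subset_iff.2 hz)) with h | h
    · exact Or.inl (h z rfl)
    · exact Or.inr (h z rfl)
  have tr0 : ∀ c : Ch (EuclideanSpace ℝ (Fin M)), c ∈ (AS _).N e 1 → c ∈ (AS _).N e' 1 → j9105_Tr M 1 c := by
    intro c h1 h2
    left
    rw [cob_one, hS]
    rintro z (rfl | hz)
    · exact h1
    · rw [mem_singleton_iff.1 hz]; exact h2
  have tr1 : ∀ c : Ch (EuclideanSpace ℝ (Fin M)), c - one ∈ (AS _).N e 1 → c - one ∈ (AS _).N e' 1 →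
      j9105_Tr M 1 c := by
    intro c h1 h2
    right
    refine ⟨rfl, ?_⟩
    rw [cob_one, hS]
    rintro z (rfl | hz)
    · exact h1
    · rw [mem_singleton_iff.1 hz]; exact h2
  rcases ty b hb e he with h1 | h1 <;> rcases ty b hb e' he' with h2 | h2
  · exact Or.inl (tr0 b h1 h2)
  · rcases ty b' hb' e he with h3 | h3 <;> rcases ty b' hb' e' he' with h4 | h4
    · exact Or.inr (Or.inl (tr0 b' h3 h4))
    · refine Or.inr (Or.inr (tr0 _ (sub_mem h1 h3) ?_))
      have := sub_mem h2 h4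
      rwa [sub_sub_sub_cancel_right] at this
    · refine Or.inr (Or.inr (tr1 _ ?_ ?_))
      · have := sub_mem h1 h3
        have e1 : b - (b' - one) = b - b' - one := by
          nth_rw 2 [hone]
          abel
        rwa [e1] at this
      · have := sub_mem h2 h4
        have e1 : b - one - b' = b - b' - one := by abel
        rwa [e1] at this
    · exact Or.inr (Or.inl (tr1 b' h3 h4))
  · rcases ty b' hb' e he with h3 | h3 <;> rcases ty b' hb' e' he' with h4 | h4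
    · exact Or.inr (Or.inl (tr0 b' h3 h4))
    · refine Or.inr (Or.inr (tr1 _ ?_ ?_))
      · have := sub_mem h1 h3
        have e1 : b - one - b' = b - b' - one := by abel
        rwa [e1] at this
      · have := sub_mem h2 h4
        have e1 : b - (b' - one) = b - b' - one := by
          nth_rw 2 [hone]
          abel
        rwa [e1] at this
    · refine Or.inr (Or.inr (tr0 _ ?_ (sub_mem h2 h4)))
      have := sub_mem h1 h3
      rwa [sub_sub_sub_cancel_right] at this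
    · exact Or.inr (Or.inl (tr1 b' h3 h4))
  · exact Or.inl (tr1 b h1 h2)

theorem j9105_all {M : ℕ} (k : ℕ) (hk : 2 ≤ k) : k ≤ M → ∀ c c' : Ch (EuclideanSpace ℝ (Fin M)),
    (AS _).Coc (Sp M k) k c → (AS _).Coc (Sp M k) k c' →
    (AS _).Cob (Sp M k) k c ∨ (AS _).Cob (Sp M k) k c' ∨ (AS _).Cob (Sp M k) k (c - c') := by
  induction k, hk using Nat.le_induction with
  | base =>
    intro hM c c' hc hc'
    exact j9105_step (k := 1) le_rfl (by omega) (fun b b' hb hb' => j9105_base (by omega) b b' hb hb')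
      c c' hc hc'
  | succ k hk ih =>
    intro hM c c' hc hc'
    refine j9105_step (k := k) (by omega) (by omega) (fun b b' hb hb' => ?_) c c' hc hc'
    rcases ih (by omega) b b' hb hb' with h | h | h
    · exact Or.inl (Or.inl h)
    · exact Or.inr (Or.inl (Or.inl h))
    · exact Or.inr (Or.inr (Or.inl h))

theorem sp_rank {M k : ℕ} (hk : 2 ≤ k) (hkM : k ≤ M) (c c' : Ch (EuclideanSpace ℝ (Fin M)))
    (hc : (AS _).Coc (Sp M k) k c) (hc' : (AS _).Coc (Sp M k) k c') :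
    (AS _).Cob (Sp M k) k c ∨ (AS _).Cob (Sp M k) k c' ∨ (AS _).Cob (Sp M k) k (c - c') :=
  j9105_all k hk hkM c c' hc hc'



end Pool.Agent.Helper775.Tight
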