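import Pool.Agent.Helper775.Tight.SingDefs
import Pool.Agent.Helper775.Tight.Sc.Small

set_option autoImplicit false

namespace Pool.Agent.Helper775.Tight

open Set Topology

/-- push a singular simplex of the subspace forward -/
noncomputable def sbIota {X : Type*} [TopologicalSpace X] (V : Set X) (k : ℕ)
    (σ : Sc.Sing V k) : Sing X k :=
  (⟨Subtype.val, continuous_subtype_val⟩ : C(V, X)).comp σ

theorem sbIota_inj {X : Type*} [TopologicalSpace X] (V : Set X) (k : ℕ) :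
    Function.Injective (sbIota V k) := by
  intro σ τ h
  apply ContinuousMap.ext
  intro t
  apply Subtype.ext
  exact congrArg (fun f : Sing X k => f t) h

theorem sbIota_range {X : Type*} [TopologicalSpace X] (V : Set X) (k : ℕ)
    (σ : Sc.Sing V k) : range (sbIota V k σ) ⊆ V := by
  rintro _ ⟨t, rfl⟩
  exact (σ t).2

theorem sbIota_face {X : Type*} [TopologicalSpace X] (V : Set X) (k : ℕ) (i : Fin (k + 2))
    (σ : Sc.Sing V (k + 1)) :
    sface k i (sbIota V (k + 1) σ) = sbIota V k (Sc.sface k i σ) := rfl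

theorem sbIota_surj {X : Type*} [TopologicalSpace X] (V : Set X) (k : ℕ)
    (σ : Sing X k) (h : range σ ⊆ V) : ∃ τ, sbIota V k τ = σ := by
  refine ⟨⟨fun t => ⟨σ t, h ⟨t, rfl⟩⟩, ?_⟩, ?_⟩
  · exact Continuous.subtype_mk σ.continuous _
  · apply ContinuousMap.ext
    intro t
    rfl

/-- reduce an integral chain of the subspace mod 2 and push it forward -/
noncomputable def sbPhi {X : Type*} [TopologicalSpace X] (V : Set X) (k : ℕ) :
    (Sc.Sing V k →₀ ℤ) →ₗ[ℤ] (Sing X k →₀ ZMod 2) :=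
  Finsupp.linearCombination ℤ (fun σ => Finsupp.single (sbIota V k σ) (1 : ZMod 2))

theorem sbPhi_single {X : Type*} [TopologicalSpace X] (V : Set X) (k : ℕ)
    (σ : Sc.Sing V k) :
    sbPhi V k (Finsupp.single σ 1) = Finsupp.single (sbIota V k σ) (1 : ZMod 2) := by
  simp [sbPhi]

theorem sbPhi_apply {X : Type*} [TopologicalSpace X] (V : Set X) (k : ℕ)
    (z : Sc.Sing V k →₀ ℤ) (σ : Sc.Sing V k) :
    sbPhi V k z (sbIota V k σ) = ((z σ : ℤ) : ZMod 2) := by
  classical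
  induction z using Finsupp.induction_linear with
  | zero => simp
  | add f g hf hg => rw [map_add, Finsupp.add_apply, hf, hg]; simp
  | single τ m =>
    have h1 : (Finsupp.single τ m : Sc.Sing V k →₀ ℤ) = m • Finsupp.single τ 1 := by
      simp
    rw [h1, map_smul, sbPhi_single, Finsupp.smul_apply, Finsupp.smul_apply]
    by_cases hτ : τ = σ
    · subst hτ; simp
    · rw [Finsupp.single_eq_of_ne (fun h => hτ (sbIota_inj V k h.symm)),
        Finsupp.single_eq_of_ne (fun h => hτ h.symm)]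
      simp

theorem sbPhi_bdry {X : Type*} [TopologicalSpace X] (V : Set X) (k : ℕ)
    (z : Sc.Sing V (k + 1) →₀ ℤ) :
    bdry X k (sbPhi V (k + 1) z) = sbPhi V k (Sc.sbd V k z) := by
  induction z using Finsupp.induction_linear with
  | zero => simp
  | add f g hf hg => rw [map_add, map_add, map_add, map_add, hf, hg]
  | single τ m =>
    have h1 : (Finsupp.single τ m : Sc.Sing V (k + 1) →₀ ℤ)
        = m • Finsupp.single τ 1 := by simp
    rw [h1, map_smul, map_zsmul, map_smul, map_smul]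
    congr 1
    rw [sbPhi_single, bdry, Finsupp.linearCombination_single, one_smul, Sc.sbd,
      Sc.bd_single, map_sum]
    refine Finset.sum_congr rfl fun i _ => ?_
    rw [map_smul, sbPhi_single, sbIota_face]
    rcases neg_one_pow_eq_or ℤ (i : ℕ) with h | h
    · rw [h, one_smul]
    · rw [h, neg_one_smul, ← Finsupp.single_neg]
      congr 1

/-- the set of small simplices in `V` -/
def sbSet {X : Type*} [TopologicalSpace X] (𝒞 : Set (Set X)) (V : Set X) (k : ℕ) :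
    Set (Sing X k) := {σ | range σ ⊆ V ∧ ∃ C ∈ 𝒞, range σ ⊆ C}

/-- the cover of the subspace -/
def sbCov {X : Type*} [TopologicalSpace X] (𝒞 : Set (Set X)) (V : Set X) : Set (Set V) :=
  {D | ∃ C ∈ 𝒞, D = Subtype.val ⁻¹' C}

theorem sbSmall_iff {X : Type*} [TopologicalSpace X] (𝒞 : Set (Set X)) (V : Set X) (k : ℕ)
    (σ : Sc.Sing V k) :
    σ ∈ Sc.smallSet (sbCov 𝒞 V) k ↔ sbIota V k σ ∈ sbSet 𝒞 V k := by
  constructor
  · rintro ⟨D, ⟨C, hC, rfl⟩, h⟩
    refine ⟨sbIota_range V k σ, C, hC, ?_⟩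
    rintro _ ⟨t, rfl⟩
    exact h ⟨t, rfl⟩
  · rintro ⟨_, C, hC, h⟩
    refine ⟨_, ⟨C, hC, rfl⟩, ?_⟩
    rintro _ ⟨t, rfl⟩
    exact h ⟨t, rfl⟩

theorem sbPhi_small {X : Type*} [TopologicalSpace X] (𝒞 : Set (Set X)) (V : Set X) (k : ℕ)
    (z : Sc.Sing V k →₀ ℤ)
    (hz : z ∈ Finsupp.supported ℤ ℤ (Sc.smallSet (sbCov 𝒞 V) k)) :
    ∀ σ ∈ (sbPhi V k z).support, σ ∈ sbSet 𝒞 V k := by
  have h := Sc.supported_map (Sc.smallSet (sbCov 𝒞 V) k) (sbPhi V k)
    ((Finsupp.supported (ZMod 2) (ZMod 2) (sbSet 𝒞 V k)).restrictScalars ℤ) (by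
      intro σ hσ
      rw [sbPhi_single, Submodule.restrictScalars_mem]
      exact Finsupp.single_mem_supported _ _ ((sbSmall_iff 𝒞 V k σ).1 hσ)) z hz
  rw [Submodule.restrictScalars_mem, Finsupp.mem_supported] at h
  intro σ hσ
  exact h hσ

theorem sb_lift {X : Type*} [TopologicalSpace X] (V : Set X) (k : ℕ)
    (b : Sing X k →₀ ZMod 2) (hb : ChainIn V b) : ∃ c, sbPhi V k c = b := by
  classical
  have h : b ∈ LinearMap.range (sbPhi V k) := by
    rw [← Finsupp.sum_single b, Finsupp.sum]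
    refine Submodule.sum_mem _ fun σ hσ => ?_
    obtain ⟨τ, hτ⟩ := sbIota_surj V k σ (hb σ hσ)
    refine ⟨Finsupp.single τ ((b σ).val : ℤ), ?_⟩
    have h1 : (Finsupp.single τ ((b σ).val : ℤ) : Sc.Sing V k →₀ ℤ)
        = ((b σ).val : ℤ) • Finsupp.single τ 1 := by simp
    rw [h1, map_smul, sbPhi_single, hτ, Finsupp.smul_single]
    congr 1
    rw [zsmul_eq_mul, mul_one]
    push_cast
    exact ZMod.natCast_zmod_val (b σ)
  exact h

theorem sb_rho {X : Type*} [TopologicalSpace X] (𝒞 : Set (Set X)) (V : Set X) (k : ℕ)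
    (z : Sc.Sing V k →₀ ℤ)
    (hz : ∀ σ ∈ (sbPhi V k z).support, σ ∈ sbSet 𝒞 V k) :
    sbPhi V k (Sc.rho (sbCov 𝒞 V) k z) = sbPhi V k z := by
  classical
  set S := Sc.smallSet (sbCov 𝒞 V) k with hS
  have hsplit : z = z.filter (· ∈ S) + z.filter (fun a => ¬ a ∈ S) :=
    (Finsupp.filter_pos_add_filter_neg z _).symm
  have heven : ∃ y : Sc.Sing V k →₀ ℤ, z.filter (fun a => ¬ a ∈ S) = (2 : ℤ) • y := by
    refine ⟨(z.filter (fun a => ¬ a ∈ S)).mapRange (fun m => m / 2) (by simp), ?_⟩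
    ext σ
    rw [Finsupp.smul_apply, Finsupp.mapRange_apply]
    by_cases hσ : σ ∈ S
    · rw [Finsupp.filter_apply_neg _ _ (by simpa using hσ)]
      simp
    · rw [Finsupp.filter_apply_pos (fun a => a ∉ S) z hσ]
      have h0 : sbPhi V k z (sbIota V k σ) = 0 := by
        by_contra hne
        exact hσ ((sbSmall_iff 𝒞 V k σ).2 (hz _ (Finsupp.mem_support_iff.2 hne)))
      rw [sbPhi_apply] at h0
      have h2 : (2 : ℤ) ∣ z σ := by
        have := (ZMod.intCast_zmod_eq_zero_iff_dvd (z σ) 2).1 h0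
        exact_mod_cast this
      rw [smul_eq_mul]
      omega
  obtain ⟨y, hy⟩ := heven
  have htwo : ∀ c : Sing X k →₀ ZMod 2, (2 : ℤ) • c = 0 := by
    intro c
    ext σ
    rw [Finsupp.smul_apply, zsmul_eq_mul]
    have : ((2 : ℤ) : ZMod 2) = 0 := by decide
    rw [this, zero_mul]
    rfl
  have hrs : Sc.rho (sbCov 𝒞 V) k (z.filter (· ∈ S)) = z.filter (· ∈ S) := by
    apply Sc.rho_id
    rw [Finsupp.mem_supported]
    intro σ hσ
    have := Finsupp.mem_support_iff.1 (Finset.mem_coe.1 hσ)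
    by_contra hn
    exact this (Finsupp.filter_apply_neg _ _ hn)
  rw [hsplit, map_add, map_add, map_add, hrs, hy, map_smul, map_smul, map_smul, htwo, htwo]

/-- small simplices: a small cycle which bounds in `V` bounds a small chain in `V`. -/
theorem small_bound {X : Type*} [TopologicalSpace X] (𝒞 : Set (Set X)) (V : Set X)
    (hopen : ∀ C ∈ 𝒞, IsOpen C) (hcov : ∀ x ∈ V, ∃ C ∈ 𝒞, x ∈ C) (n : ℕ)
    (z : Sing X n →₀ ZMod 2) (hz : ∀ σ ∈ z.support, range σ ⊆ V ∧ ∃ C ∈ 𝒞, range σ ⊆ C)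
    (b : Sing X (n + 1) →₀ ZMod 2) (hb : ChainIn V b) (hzb : bdry X n b = z) :
    ∃ b' : Sing X (n + 1) →₀ ZMod 2,
      (∀ σ ∈ b'.support, range σ ⊆ V ∧ ∃ C ∈ 𝒞, range σ ⊆ C) ∧ bdry X n b' = z := by
  have hopen' : ∀ D ∈ sbCov 𝒞 V, IsOpen D := by
    rintro D ⟨C, hC, rfl⟩
    exact (hopen C hC).preimage continuous_subtype_val
  have hcov' : ∀ x : V, ∃ D ∈ sbCov 𝒞 V, x ∈ D := by
    intro x
    obtain ⟨C, hC, hx⟩ := hcov x x.2
    exact ⟨_, ⟨C, hC, rfl⟩, hx⟩
  obtain ⟨c, hc⟩ := sb_lift V (n + 1) b hb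
  refine ⟨sbPhi V (n + 1) (Sc.rho (sbCov 𝒞 V) (n + 1) c), ?_, ?_⟩
  · exact sbPhi_small 𝒞 V (n + 1) _ (Sc.rho_small _ hopen' hcov' _ _)
  · have h1 : sbPhi V n (Sc.sbd V n c) = z := by
      rw [← sbPhi_bdry, hc, hzb]
    rw [sbPhi_bdry, Sc.sbd_rho, sb_rho 𝒞 V n _ (by rw [h1]; exact hz), h1]


end Pool.Agent.Helper775.Tight
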