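import Pool.Agent.Helper775.Tight.Sg
import Pool.Agent.Helper775.Tight.SmallBd

set_option autoImplicit false

namespace Pool.Agent.Helper775.Tight

open Set Topology SoftCx

theorem sx_factor {E F : Type*} [AddCommGroup E] [Module (ZMod 2) E] [AddCommGroup F]
    [Module (ZMod 2) F] (f : E →ₗ[ZMod 2] F) (l : E →ₗ[ZMod 2] ZMod 2)
    (h : ∀ x, f x = 0 → l x = 0) :
    ∃ ψ : F →ₗ[ZMod 2] ZMod 2, ∀ x, ψ (f x) = l x := by
  have h1 : l ∈ (LinearMap.ker f).dualAnnihilator := by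
    rw [Submodule.mem_dualAnnihilator]
    intro x hx
    exact h x (LinearMap.mem_ker.1 hx)
  rw [← LinearMap.range_dualMap_eq_dualAnnihilator_ker] at h1
  obtain ⟨ψ, hψ⟩ := h1
  exact ⟨ψ, fun x => by rw [← hψ]; rfl⟩

theorem sx_factor2 {E F : Type*} [AddCommGroup E] [Module (ZMod 2) E] [AddCommGroup F]
    [Module (ZMod 2) F] (W : Submodule (ZMod 2) E) (f : E →ₗ[ZMod 2] F)
    (l : E →ₗ[ZMod 2] ZMod 2) (h : ∀ x ∈ W, f x = 0 → l x = 0) :
    ∃ ψ : F →ₗ[ZMod 2] ZMod 2, ∀ x ∈ W, ψ (f x) = l x := by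
  have hfac : ∀ x : W, (f ∘ₗ W.subtype) x = 0 → (l ∘ₗ W.subtype) x = 0 := by
    rintro ⟨z, hz⟩ hz0
    exact h z hz hz0
  obtain ⟨ρ, hρ⟩ := sx_factor (E := W) (f ∘ₗ W.subtype) (l ∘ₗ W.subtype) hfac
  exact ⟨ρ, fun x hx => hρ ⟨x, hx⟩⟩

theorem sx_bdry_single {X : Type*} [TopologicalSpace X] (n : ℕ) (σ : Sing X (n + 1)) :
    bdry X n (Finsupp.single σ 1) = ∑ i : Fin (n + 2), Finsupp.single (sface n i σ) (1 : ZMod 2) := by
  simp [bdry, Finsupp.linearCombination_single]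

theorem sx_bdry_zero {X : Type*} [TopologicalSpace X] (n : ℕ)
    (ψ : (Sing X n →₀ ZMod 2) →ₗ[ZMod 2] ZMod 2) (b : Sing X (n + 1) →₀ ZMod 2)
    (hb : ∀ σ ∈ b.support, ∑ i : Fin (n + 2), ψ (Finsupp.single (sface n i σ) 1) = 0) :
    ψ (bdry X n b) = 0 := by
  rw [bdry, Finsupp.linearCombination_apply, Finsupp.sum, map_sum]
  refine Finset.sum_eq_zero fun σ hσ => ?_
  rw [map_smul, map_sum, hb σ hσ, smul_zero]

/-- cycles as a submodule -/
noncomputable def sx_cyc (X : Type*) [TopologicalSpace X] :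
    (n : ℕ) → Submodule (ZMod 2) (Sing X n →₀ ZMod 2)
  | 0 => ⊤
  | (n + 1) => LinearMap.ker (bdry X n)

theorem sx_mem_cyc {X : Type*} [TopologicalSpace X] {n : ℕ} {c : Sing X n →₀ ZMod 2} :
    c ∈ sx_cyc X n ↔ IsCycle n c := by
  cases n with
  | zero => simp [sx_cyc, IsCycle]
  | succ n => simp [sx_cyc, IsCycle]

theorem sx_cob {P : Type*} [TopologicalSpace P] (k : ℕ)
    (VS : Submodule (ZMod 2) (Sing P k →₀ ZMod 2))
    (δ : (Sing P k →₀ ZMod 2) →ₗ[ZMod 2] ZMod 2)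
    (hφ : ∀ z ∈ VS, IsCycle k z → δ z = 0) :
    ∃ r : SCh P, ∀ σ : Sing P k, Finsupp.single σ (1 : ZMod 2) ∈ VS →
      δ (Finsupp.single σ 1) - sdf r k σ = 0 := by
  rcases k with _ | j
  · refine ⟨0, fun σ h1 => ?_⟩
    rw [hφ _ h1 trivial]
    simp [sdf]
  · obtain ⟨ρ, hρ⟩ := sx_factor2 VS (bdry P j) δ (fun z hz hz0 => hφ z hz hz0)
    refine ⟨Function.update 0 j (fun τ => ρ (Finsupp.single τ 1)), fun σ h1 => ?_⟩
    have h4 : ρ (bdry P j (Finsupp.single σ 1)) = δ (Finsupp.single σ 1) := hρ _ h1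
    rw [sx_bdry_single, map_sum] at h4
    rw [← h4, sub_eq_zero]
    change _ = ∑ i : Fin (j + 2), Function.update (0 : SCh P) j
      (fun τ => ρ (Finsupp.single τ 1)) j (sface j i σ)
    simp only [Function.update_self]

/-- surjectivity in germ-singular cohomology from injectivity in singular homology. -/
theorem sing_ext {P : Type*} [MetricSpace P] [CompactSpace P] (g : P → ℝ) (hg : Continuous g)
    (T : ℝ) (h : ∀ t < T, HomologyInjective {x | t ≤ g x}) (n : ℕ) (s : SCh P)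
    (hs : (Sg P).Coc {x | T ≤ g x} n s) :
    ∃ s', (Sg P).Coc univ n s' ∧ (Sg P).Cob {x | T ≤ g x} n (s - s') := by
  classical
  rcases n with _ | k
  · exact ⟨0, coc_zero _ _, cob_index_zero _ _⟩
  -- the good open sets
  set 𝒲 : Set (Set P) := {W | IsOpen W ∧ ∀ σ : Sing P (k + 1), range σ ⊆ W →
    ∑ i : Fin (k + 2), s k (sface k i σ) = 0} with h𝒲
  have hZW : ∀ z : P, T ≤ g z → ∃ W ∈ 𝒲, z ∈ W := by
    intro z hz
    obtain ⟨W, hW, h1⟩ := hs z hz
    obtain ⟨U, hUW, hU, hzU⟩ := mem_nhds_iff.1 hW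
    exact ⟨U, ⟨hU, fun σ hσ => h1 σ (hσ.trans hUW)⟩, hzU⟩
  have hU0 : IsOpen (⋃₀ 𝒲) := isOpen_sUnion fun W hW => hW.1
  obtain ⟨t0, ht0, ht0U⟩ : ∃ t0 < T, {x | t0 ≤ g x} ⊆ ⋃₀ 𝒲 := by
    rcases (⋃₀ 𝒲)ᶜ.eq_empty_or_nonempty with he | hne
    · refine ⟨T - 1, by linarith, ?_⟩
      rw [compl_empty_iff.1 he]; exact subset_univ _
    · have hc : IsCompact (⋃₀ 𝒲)ᶜ := hU0.isClosed_compl.isCompact
      obtain ⟨x, hx, hmax⟩ := hc.exists_isMaxOn hne hg.continuousOn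
      have hxT : g x < T := by
        by_contra hlt
        push Not at hlt
        obtain ⟨W, hW, hxW⟩ := hZW x hlt
        exact hx ⟨W, hW, hxW⟩
      refine ⟨(g x + T) / 2, by linarith, fun y hy => ?_⟩
      by_contra hyn
      have h1 : g y ≤ g x := hmax hyn
      have h2 : (g x + T) / 2 ≤ g y := hy
      linarith
  set V : Set P := {x | t0 < g x} with hV
  have hVo : IsOpen V := isOpen_lt continuous_const hg
  set A : Set P := {x | g x < t0} with hA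
  have hAo : IsOpen A := isOpen_lt hg continuous_const
  set 𝒞 : Set (Set P) := insert A 𝒲 with h𝒞
  have hCo : ∀ C ∈ 𝒞, IsOpen C := by
    rintro C (rfl | hC)
    · exact hAo
    · exact hC.1
  have hCcov : ∀ x : P, ∃ C ∈ 𝒞, x ∈ C := by
    intro x
    rcases lt_or_ge (g x) t0 with h1 | h1
    · exact ⟨A, mem_insert _ _, h1⟩
    · obtain ⟨W, hW, hxW⟩ := ht0U h1
      exact ⟨W, mem_insert_of_mem _ hW, hxW⟩
  -- small simplices in V are in a good set
  have hgood : ∀ (σ : Sing P (k + 1)), range σ ⊆ V → (∃ C ∈ 𝒞, range σ ⊆ C) →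
      ∑ i : Fin (k + 2), s k (sface k i σ) = 0 := by
    rintro σ hσV ⟨C, (rfl | hC), hσC⟩
    · exfalso
      have h1 : σ (stdSimplex.vertex 0) ∈ V := hσV ⟨_, rfl⟩
      have h2 : σ (stdSimplex.vertex 0) ∈ A := hσC ⟨_, rfl⟩
      have h1' : t0 < g (σ (stdSimplex.vertex 0)) := h1
      have h2' : g (σ (stdSimplex.vertex 0)) < t0 := h2
      exact lt_asymm h1' h2'
    · exact hC.2 σ hσC
  -- linear algebra
  set sk : (Sing P k →₀ ZMod 2) →ₗ[ZMod 2] ZMod 2 :=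
    Finsupp.linearCombination (ZMod 2) (s k) with hsk
  have hsk1 : ∀ τ, sk (Finsupp.single τ 1) = s k τ := by
    intro τ; simp [hsk, Finsupp.linearCombination_single]
  set S1 : Submodule (ZMod 2) (Sing P (k + 1) →₀ ZMod 2) :=
    Finsupp.supported (ZMod 2) (ZMod 2) {σ | ∃ C ∈ 𝒞, range σ ⊆ C} with hS1
  set B : Submodule (ZMod 2) (Sing P k →₀ ZMod 2) := S1.map (bdry P k) with hB
  set VS : Submodule (ZMod 2) (Sing P k →₀ ZMod 2) :=
    Finsupp.supported (ZMod 2) (ZMod 2) {σ | range σ ⊆ V ∧ ∃ C ∈ 𝒞, range σ ⊆ C} with hVS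
  -- Claim A
  have claimA : ∀ z ∈ VS, IsCycle k z → (∃ w, bdry P k w = z) → sk z = 0 := by
    intro z hz hcyc hbd
    have hzs : ∀ σ ∈ z.support, range σ ⊆ V ∧ ∃ C ∈ 𝒞, range σ ⊆ C := by
      intro σ hσ
      exact (Finsupp.mem_supported _ _).1 hz (by exact_mod_cast hσ)
    -- find t'
    obtain ⟨t', ht0', htT, hin⟩ : ∃ t', t0 < t' ∧ t' < T ∧ ∀ σ ∈ z.support,
        range σ ⊆ {x | t' ≤ g x} := by
      have hcomp : IsCompact (⋃ σ ∈ z.support, range (σ : Sing P k)) := by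
        apply z.support.finite_toSet.isCompact_biUnion
        intro σ _
        exact isCompact_range σ.continuous
      rcases (⋃ σ ∈ z.support, range (σ : Sing P k)).eq_empty_or_nonempty with he | hne
      · refine ⟨(t0 + T) / 2, by linarith, by linarith, fun σ hσ => ?_⟩
        have : range (σ : Sing P k) ⊆ ⋃ σ ∈ z.support, range (σ : Sing P k) :=
          subset_biUnion_of_mem (u := fun σ : Sing P k => range σ) hσ
        rw [he] at this
        exact this.trans (empty_subset _)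
      · obtain ⟨x, hx, hmin⟩ := hcomp.exists_isMinOn hne hg.continuousOn
        have hxV : t0 < g x := by
          simp only [mem_iUnion] at hx
          obtain ⟨σ, hσ, hxσ⟩ := hx
          exact (hzs σ hσ).1 hxσ
        refine ⟨min (g x) ((t0 + T) / 2), lt_min hxV (by linarith),
          lt_of_le_of_lt (min_le_right _ _) (by linarith), fun σ hσ y hy => ?_⟩
        have hy' : y ∈ ⋃ σ ∈ z.support, range (σ : Sing P k) := by
          simp only [mem_iUnion]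
          exact ⟨σ, hσ, hy⟩
        exact (min_le_left _ _).trans (isMinOn_iff.1 hmin y hy')
    obtain ⟨b, hb, hbz⟩ := h t' htT k z hin hcyc hbd
    have hbV : ChainIn V b := by
      intro σ hσ
      refine (hb σ hσ).trans fun x hx => ?_
      exact lt_of_lt_of_le ht0' hx
    obtain ⟨b', hb', hbz'⟩ := small_bound 𝒞 V hCo (fun x _ => hCcov x) k z hzs b hbV hbz
    rw [← hbz']
    apply sx_bdry_zero
    intro σ hσ
    simp only [hsk1]
    exact hgood σ (hb' σ hσ).1 (hb' σ hσ).2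
  -- Claim B
  obtain ⟨φ, hφ1, hφ2⟩ : ∃ φ : (Sing P k →₀ ZMod 2) →ₗ[ZMod 2] ZMod 2,
      (∀ z ∈ VS, IsCycle k z → φ z = sk z) ∧ (∀ z ∈ B, φ z = 0) := by
    set Zc : Submodule (ZMod 2) (Sing P k →₀ ZMod 2) := VS ⊓ sx_cyc P k with hZc
    have hfac : ∀ x : Zc, (B.mkQ ∘ₗ Zc.subtype) x = 0 → (sk ∘ₗ Zc.subtype) x = 0 := by
      rintro ⟨z, hz⟩ hz0
      have h1 : z ∈ B := by
        have : B.mkQ z = 0 := hz0
        rwa [Submodule.mkQ_apply, Submodule.Quotient.mk_eq_zero] at this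
      obtain ⟨w, _, hw⟩ := h1
      exact claimA z hz.1 (sx_mem_cyc.1 hz.2) ⟨w, hw⟩
    obtain ⟨ψ, hψ⟩ := sx_factor (E := Zc) (B.mkQ ∘ₗ Zc.subtype) (sk ∘ₗ Zc.subtype) hfac
    refine ⟨ψ ∘ₗ B.mkQ, ?_, ?_⟩
    · intro z hz hc
      exact hψ ⟨z, hz, sx_mem_cyc.2 hc⟩
    · intro z hz
      have : B.mkQ z = 0 := by
        rw [Submodule.mkQ_apply, Submodule.Quotient.mk_eq_zero]; exact hz
      rw [LinearMap.comp_apply, this, map_zero]
  set s' : SCh P := Function.update 0 k (fun σ => φ (Finsupp.single σ 1)) with hs'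
  have hs'k : ∀ σ, s' k σ = φ (Finsupp.single σ 1) := by
    intro σ; rw [hs', Function.update_self]
  have hVSs : ∀ σ : Sing P k, range σ ⊆ V → (∃ C ∈ 𝒞, range σ ⊆ C) →
      Finsupp.single σ (1 : ZMod 2) ∈ VS := by
    intro σ h1 h2
    exact Finsupp.single_mem_supported _ _ ⟨h1, h2⟩
  refine ⟨s', ?_, ?_⟩
  · -- cocycle
    intro z _
    obtain ⟨C, hC, hzC⟩ := hCcov z
    refine ⟨C, (hCo C hC).mem_nhds hzC, fun σ hσ => ?_⟩
    change ∑ i : Fin (k + 2), s' k (sface k i σ) = 0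
    have h1 : bdry P k (Finsupp.single σ 1) ∈ B :=
      Submodule.mem_map_of_mem (Finsupp.single_mem_supported _ _ ⟨C, hC, hσ⟩)
    have h2 := hφ2 _ h1
    rw [sx_bdry_single, map_sum] at h2
    simp only [hs'k]
    exact h2
  · -- coboundary
    obtain ⟨r, hr⟩ : ∃ r : SCh P, ∀ σ : Sing P k, range σ ⊆ V → (∃ C ∈ 𝒞, range σ ⊆ C) →
        s k σ - s' k σ - sdf r k σ = 0 := by
      obtain ⟨r, hr⟩ := sx_cob k VS (sk - φ) (fun z hz hc => by
        rw [LinearMap.sub_apply, hφ1 z hz hc, sub_self])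
      refine ⟨r, fun σ h1 h2 => ?_⟩
      have h3 := hr σ (hVSs σ h1 h2)
      rwa [LinearMap.sub_apply, hsk1, ← hs'k] at h3
    refine ⟨r, fun z hz => ?_⟩
    obtain ⟨W, hW, hzW⟩ := hZW z hz
    refine ⟨W ∩ V, Filter.inter_mem (hW.1.mem_nhds hzW) (hVo.mem_nhds (lt_of_lt_of_le ht0 hz)),
      fun σ hσ => ?_⟩
    exact hr σ (hσ.trans inter_subset_right) ⟨W, mem_insert_of_mem _ hW,
      hσ.trans inter_subset_left⟩

end Pool.Agent.Helper775.Tight
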