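import Pool.Agent.Helper775.Tight.SgPoint
import Pool.Agent.Helper775.Tight.SingExt

/-! Comparison of Alexander-Spanier and singular germs; tightness gives surjectivity. -/

set_option autoImplicit false

namespace Pool.Agent.Helper775.Tight

open Set Topology SoftCx

section

variable {P : Type*} [MetricSpace P]

/-- evaluation on vertices as a morphism of soft complexes. -/
noncomputable def Theta : Mor (AS P) (Sg P) where
  f := { toFun := theta
         map_zero' := rfl
         map_add' := fun _ _ => rfl }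
  mem z n k hk := by
    rcases n with _ | n
    · trivial
    · obtain ⟨W, hW, hzW, h⟩ := exists_of_mem_Nz (by omega) hk
      refine ⟨W, hW.mem_nhds hzW, fun σ hσ => ?_⟩
      refine h _ (by simp) ?_
      intro x hx
      obtain ⟨i, rfl⟩ := (List.mem_ofFn' _ _).1 hx
      exact hσ ⟨_, rfl⟩
  comm z n k := by
    have : (Sg P).D (theta k) - theta ((AS P).D k) = 0 := by
      change sdf (theta k) - theta (dd k) = 0
      rw [sdf_theta, sub_self]
    exact this ▸ zero_mem _

@[simp] theorem Theta_f (c : Ch P) : (Theta (P := P)).f c = theta c := rfl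

theorem theta_sub (c c' : Ch P) : theta (c - c') = theta c - theta c' := rfl

variable {m : ℕ} [ChartedSpace (EuclideanSpace ℝ (Fin m)) P]

include m in
theorem cone_theta_ex {Z : Set P} (hZ : IsCompact Z) (n : ℕ) :
    (cone (Theta (P := P))).Ex Z n :=
  ex_of_pointwise n hZ fun z _ k _ =>
    cone_ex_of_acy Theta one z (one_D_mem z) (acy_singleton z) (sg_acy_point (m := m) z) k

include m in
theorem theta_surj {Z : Set P} (hZ : IsCompact Z) {n : ℕ} {s : SCh P} (hs : (Sg P).Coc Z n s) :
    ∃ c, (AS P).Coc Z n c ∧ (Sg P).Cob Z n (s - theta c) := by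
  obtain ⟨⟨c, t⟩, h⟩ := cone_theta_ex (m := m) hZ (n + 1) (0, s) (fun z hz => by
    refine ⟨?_, ?_⟩
    · change (AS P).D 0 ∈ (AS P).N z (n + 1 + 1)
      rw [map_zero]; exact zero_mem _
    · have := neg_mem (hs z hz)
      change theta 0 - (Sg P).D s ∈ (Sg P).N z (n + 1)
      have e : theta (0 : Ch P) = 0 := rfl
      rw [e, zero_sub]; exact this)
  refine ⟨c, fun z hz => ?_, -t, fun z hz => ?_⟩
  · have h1 : (0 : Ch P) - (AS P).D c ∈ (AS P).N z (n + 1) := (h z hz).1
    have := neg_mem h1
    simpa using this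
  · have := (h z hz).2
    change s - (theta c - (Sg P).D t) ∈ (Sg P).N z n at this
    rw [map_neg]
    convert this using 1
    abel

include m in
theorem theta_inj {Z : Set P} (hZ : IsCompact Z) {n : ℕ} {c : Ch P} (hc : (AS P).Coc Z n c)
    (h : (Sg P).Cob Z n (theta c)) : (AS P).Cob Z n c := by
  obtain ⟨t, ht⟩ := h
  obtain ⟨⟨c', t'⟩, h'⟩ := cone_theta_ex (m := m) hZ n (c, t) (fun z hz => ⟨hc z hz, ht z hz⟩)
  exact ⟨c', fun z hz => (h' z hz).1⟩

include m in
/-- tightness for singular homology gives surjectivity in cohomology. -/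
theorem surj_of_sing [CompactSpace P] (g : P → ℝ) (hg : Continuous g)
    (T : ℝ) (h : ∀ t < T, HomologyInjective {x | t ≤ g x}) (n : ℕ) (c : Ch P)
    (hc : (AS P).Coc {x | T ≤ g x} n c) :
    ∃ c', (AS P).Coc univ n c' ∧ (AS P).Cob {x | T ≤ g x} n (c - c') := by
  have hZ : IsCompact {x | T ≤ g x} := (isClosed_le continuous_const hg).isCompact
  have h1 : (Sg P).Coc {x | T ≤ g x} n (theta c) := by
    intro z hz
    have h2 := Theta.comm z (n + 1) c
    have h3 := Theta.mem z (n + 1) _ (hc z hz)
    simpa using add_mem h2 h3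
  obtain ⟨s', hs', hs''⟩ := sing_ext g hg T h n (theta c) h1
  obtain ⟨c', hc', hc''⟩ := theta_surj (m := m) isCompact_univ hs'
  refine ⟨c', hc', theta_inj (m := m) hZ (hc.sub (hc'.mono (subset_univ _))) ?_⟩
  have := hs''.add (hc''.mono (subset_univ _))
  rw [theta_sub]
  simpa using this

end

end Pool.Agent.Helper775.Tight
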