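import Pool.Agent.Helper775.Tight.Main
import Pool.Agent.Helper775.Tight.Compare

/-! The final theorem. -/

set_option autoImplicit false

namespace Pool.Agent.Helper775.Tight

open Set Topology SoftCx
open scoped InnerProductSpace

theorem sum_eraseIdx {Y : Type*} (c : Ch Y) (l : List Y) :
    ∑ i ∈ Finset.range l.length, c (l.eraseIdx i) = d c l := by
  induction l generalizing c with
  | nil => simp
  | cons x l ih =>
    rw [List.length_cons, Finset.sum_range_succ', d_cons, ← ih (fun l' => c (x :: l'))]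
    simp only [List.eraseIdx_cons_succ, List.eraseIdx_cons_zero]
    ring

theorem asD_eq {Y : Type*} (c : Ch Y) : asD c = dd c := by
  funext l
  rw [asD, dd, sum_eraseIdx]

theorem locallyZero_iff {Y : Type*} [MetricSpace Y] (q : ℕ) (c : Ch Y) :
    LocallyZero q c ↔ ∀ z ∈ (univ : Set Y), c ∈ (AS Y).N z (q + 1) := by
  constructor
  · intro h z _
    obtain ⟨W, hW, h⟩ := h z
    exact mem_Nz_of hW h
  · intro h z
    obtain ⟨W, hW, hzW, h⟩ := exists_of_mem_Nz (by omega) (h z (mem_univ z))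
    exact ⟨W, hW.mem_nhds hzW, h⟩

/-- surjectivity in intrinsic Alexander-Spanier cohomology gives surjectivity for germs. -/
theorem surj_of_cech {P : Type*} [MetricSpace P] {Z : Set P} (hZ : IsCompact Z)
    (h : CechSurjective Z) (n : ℕ) (hn : 1 ≤ n) (c : Ch P) (hc : (AS P).Coc Z n c) :
    ∃ c', (AS P).Coc univ n c' ∧ (AS P).Cob Z n (c - c') := by
  obtain ⟨q, rfl⟩ : ∃ q, n = q + 1 := ⟨n - 1, by omega⟩
  rcases Z.eq_empty_or_nonempty with rfl | hne
  · exact ⟨0, coc_zero _ _, Cob.of_mem (by simp)⟩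
  obtain ⟨ρ, hρ1, hρ2, hρ3⟩ := exists_retraction hZ hne
  have hval : ∀ x ∈ (univ : Set Z), ContinuousAt (Subtype.val : Z → P) x := fun x _ =>
    continuous_subtype_val.continuousAt
  have hcZ : (AS Z).Coc univ (q + 1) (pb Subtype.val c) := coc_pb hval (fun x _ => x.2) hc
  obtain ⟨c', hc', b, hb⟩ := h q (pb Subtype.val c) (by
    rw [asD_eq, locallyZero_iff]; exact hcZ)
  have hc'' : (AS P).Coc univ (q + 1) c' := by
    rw [asD_eq, locallyZero_iff] at hc'; exact hc'
  refine ⟨c', hc'', ?_⟩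
  have hk : (AS P).Coc Z (q + 1) (c - c') := hc.sub (hc''.mono (subset_univ _))
  have hg : ∀ x ∈ Z, ContinuousAt (fun x => (⟨ρ x, hρ1 x⟩ : Z)) x := by
    intro x hx
    rw [ContinuousAt, tendsto_subtype_rng]
    exact hρ3 x hx
  have h1 := cob_retract (F := Z) (F' := (univ : Set Z)) (g := fun x => (⟨ρ x, hρ1 x⟩ : Z))
    (g' := Subtype.val) hg hval (fun _ _ => mem_univ _) (fun x _ => x.2)
    (fun x hx => hρ2 x hx) hk
  have h2 : (AS Z).Cob univ (q + 1) (pb Subtype.val (c - c')) := by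
    refine ⟨b, ?_⟩
    rw [asD_eq, locallyZero_iff] at hb
    exact hb
  have h3 := h1.add (cob_pb hg (fun _ _ => mem_univ _) h2)
  simpa using h3

theorem final {P : Type*} [TopologicalSpace P] {d N : ℕ} (hd : 1 ≤ d)
    [ChartedSpace (EuclideanSpace ℝ (Fin (2 * d))) P] (hP : IsLikeProjectivePlane d P)
    (f : P → EuclideanSpace ℝ (Fin N)) (hf : Continuous f) (hs : Substantial f)
    (ht : TightMap f ∨ CechTightMap f) : N ≤ 3 * d + 2 := by
  obtain ⟨hPc, hPh, S, ⟨eS⟩, ⟨eC⟩⟩ := hP
  haveI : SecondCountableTopology P :=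
    ChartedSpace.secondCountable_of_sigmaCompact (EuclideanSpace ℝ (Fin (2 * d))) P
  haveI : TopologicalSpace.MetrizableSpace P := TopologicalSpace.metrizableSpace_of_t3_secondCountable P
  letI : MetricSpace P := TopologicalSpace.metrizableSpaceMetric P
  haveI : Nonempty P := by
    have h1 : (Metric.sphere (0 : EuclideanSpace ℝ (Fin (d + 1))) 1).Nonempty :=
      NormedSpace.sphere_nonempty.2 zero_le_one
    obtain ⟨y, hy⟩ := h1
    exact ⟨(eS.symm ⟨y, hy⟩).1⟩
  refine main_metric hd S eS eC f hf hs ?_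
  intro z hz n hn c hc
  obtain ⟨x₁, -, hx₁⟩ := isCompact_univ.exists_isMaxOn (univ_nonempty (α := P))
    ((continuous_const.inner hf : Continuous fun x => ⟪z, f x⟫_ℝ).continuousOn)
  have htop : top f z = {x | ⟪z, f x₁⟫_ℝ ≤ ⟪z, f x⟫_ℝ} := by
    ext x
    constructor
    · intro h
      exact h x₁
    · intro h y
      exact (hx₁ (mem_univ y)).trans h
  rw [htop] at hc ⊢
  rcases ht with ht | ht
  · exact surj_of_sing (m := 2 * d) (fun x => ⟪z, f x⟫_ℝ) (continuous_const.inner hf) _
      (fun t _ => ht z t hz) n c hc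
  · exact surj_of_cech (isClosed_le continuous_const (continuous_const.inner hf)).isCompact
      (ht z _ hz) n hn c hc

end Pool.Agent.Helper775.Tight
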