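import Pool.Agent.Helper775.Tight.Homot

set_option autoImplicit false

namespace Pool.Agent.Helper775.Tight



open Set Topology SoftCx

theorem ex_subsingleton9100 {M : ℕ} {F : Set (Fin M → ℝ)} (hF : F.Subsingleton) (n : ℕ)
    (hn2 : 2 ≤ n) : (AS (Fin M → ℝ)).Ex F n := by
  rcases hF.eq_empty_or_singleton with rfl | ⟨p, rfl⟩
  · exact fun k _ => Cob.of_mem (by simp)
  · exact (acy_singleton p).2.2 n hn2

/-- (A) compact subsets of an `m`-dimensional coordinate slice have no cohomology in index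
`≥ m + 1` (and `≥ 2`). -/
theorem ex_of_coords {M : ℕ} (m : ℕ) (F : Set (Fin M → ℝ)) (hF : IsCompact F)
    (hm : ∀ x ∈ F, ∀ y ∈ F, ∀ i : Fin M, m ≤ i.val → x i = y i) (n : ℕ) (hn : m + 1 ≤ n)
    (hn2 : 2 ≤ n) : (AS (Fin M → ℝ)).Ex F n := by
  induction m generalizing F n with
  | zero =>
    apply ex_subsingleton9100 _ n hn2
    intro x hx y hy
    funext i
    exact hm x hx y hy i (Nat.zero_le _)
  | succ m ih =>
    by_cases hmM : m < M
    swap
    · exact ih F hF (fun x _ y _ i hi => absurd (lt_of_le_of_lt hi i.2) hmM) n (by omega) hn2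
    intro c hc
    refine not_cob_induction hF fun Z' hZ' hcp hmin => ?_
    by_cases hconst : ∀ x ∈ Z', ∀ y ∈ Z', x ⟨m, hmM⟩ = y ⟨m, hmM⟩
    · refine ih Z' hcp ?_ n (by omega) hn2 c (hc.mono hZ')
      intro x hx y hy i hi
      rcases hi.eq_or_lt with h | h
      · have : i = ⟨m, hmM⟩ := Fin.ext h.symm
        rw [this]
        exact hconst x hx y hy
      · exact hm x (hZ' hx) y (hZ' hy) i h
    · obtain ⟨x, hx, y, hy, hxy⟩ : ∃ x ∈ Z', ∃ y ∈ Z', x ⟨m, hmM⟩ < y ⟨m, hmM⟩ := by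
        push Not at hconst
        obtain ⟨x, hx, y, hy, hxy⟩ := hconst
        rcases lt_or_gt_of_ne hxy with h | h
        · exact ⟨x, hx, y, hy, h⟩
        · exact ⟨y, hy, x, hx, h⟩
      obtain ⟨t, ht1, ht2⟩ := exists_between hxy
      have hc1 : IsClosed {z : Fin M → ℝ | z ⟨m, hmM⟩ ≤ t} :=
        isClosed_le (continuous_apply _) continuous_const
      have hc2 : IsClosed {z : Fin M → ℝ | t ≤ z ⟨m, hmM⟩} :=
        isClosed_le continuous_const (continuous_apply _)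
      have hZ1 : IsCompact (Z' ∩ {z : Fin M → ℝ | z ⟨m, hmM⟩ ≤ t}) := hcp.inter_right hc1
      have hZ2 : IsCompact (Z' ∩ {z : Fin M → ℝ | t ≤ z ⟨m, hmM⟩}) := hcp.inter_right hc2
      have hun : Z' = (Z' ∩ {z : Fin M → ℝ | z ⟨m, hmM⟩ ≤ t}) ∪
          (Z' ∩ {z : Fin M → ℝ | t ≤ z ⟨m, hmM⟩}) := by
        ext z
        simp only [mem_union, mem_inter_iff, mem_setOf_eq]
        constructor
        · intro hz
          rcases le_total (z ⟨m, hmM⟩) t with h | h
          · exact Or.inl ⟨hz, h⟩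
          · exact Or.inr ⟨hz, h⟩
        · rintro (h | h)
          · exact h.1
          · exact h.1
      have hcob1 : (AS (Fin M → ℝ)).Cob (Z' ∩ {z : Fin M → ℝ | z ⟨m, hmM⟩ ≤ t}) n c := by
        refine hmin _ inter_subset_left hZ1 fun h => ?_
        have : y ∈ Z' ∩ {z : Fin M → ℝ | z ⟨m, hmM⟩ ≤ t} := by rw [h]; exact hy
        exact absurd this.2 (not_le.2 ht2)
      have hcob2 : (AS (Fin M → ℝ)).Cob (Z' ∩ {z : Fin M → ℝ | t ≤ z ⟨m, hmM⟩}) n c := by
        refine hmin _ inter_subset_left hZ2 fun h => ?_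
        have : x ∈ Z' ∩ {z : Fin M → ℝ | t ≤ z ⟨m, hmM⟩} := by rw [h]; exact hx
        exact absurd this.2 (not_le.2 ht1)
      have hI : ∀ u ∈ (Z' ∩ {z : Fin M → ℝ | z ⟨m, hmM⟩ ≤ t}) ∩
          (Z' ∩ {z : Fin M → ℝ | t ≤ z ⟨m, hmM⟩}), ∀ v ∈ (Z' ∩ {z : Fin M → ℝ | z ⟨m, hmM⟩ ≤ t}) ∩
          (Z' ∩ {z : Fin M → ℝ | t ≤ z ⟨m, hmM⟩}), ∀ i : Fin M, m ≤ i.val → u i = v i := by
        intro u hu v hv i hi
        rcases hi.eq_or_lt with h | h
        · have : i = ⟨m, hmM⟩ := Fin.ext h.symm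
          rw [this]
          have e1 : u ⟨m, hmM⟩ = t := le_antisymm hu.1.2 hu.2.2
          have e2 : v ⟨m, hmM⟩ = t := le_antisymm hv.1.2 hv.2.2
          rw [e1, e2]
        · exact hm u (hZ' hu.1.1) v (hZ' hv.1.1) i h
      obtain ⟨n', rfl⟩ : ∃ n', n = n' + 1 := ⟨n - 1, by omega⟩
      rw [hun]
      by_cases hn' : 2 ≤ n'
      · exact mv hZ1.isClosed hZ2.isClosed (ih _ (hZ1.inter hZ2) hI n' (by omega) hn') hcob1 hcob2
      · obtain rfl : n' = 1 := by omega
        obtain rfl : m = 0 := by omega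
        refine mv' hZ1.isClosed hZ2.isClosed ?_ hcob1 hcob2
        have hsub : ((Z' ∩ {z : Fin M → ℝ | z ⟨0, hmM⟩ ≤ t}) ∩
          (Z' ∩ {z : Fin M → ℝ | t ≤ z ⟨0, hmM⟩})).Subsingleton := by
          intro u hu v hv
          funext i
          exact hI u hu v hv i (Nat.zero_le _)
        rcases hsub.eq_empty_or_singleton with h | ⟨p, h⟩
        · rw [h]
          intro b _
          exact ⟨0, coc_zero _ _, Cob.of_mem (by simp)⟩
        · rw [h]
          intro b hb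
          rcases (acy_singleton p).2.1 b hb with h1 | h1
          · exact ⟨0, coc_zero _ _, cob_one.2 (by rw [sub_zero]; exact h1)⟩
          · exact ⟨one, fun z _ => one_D_mem z, cob_one.2 h1⟩


/-- (A') -/
theorem ex_of_embed {Ω : Type*} [MetricSpace Ω] {m : ℕ} {F : Set Ω} (hF : IsCompact F)
    {φ : Ω → (Fin m → ℝ)} (hφ : ContinuousOn φ F) (hinj : InjOn φ F) {n : ℕ} (hn : m + 1 ≤ n)
    (hn2 : 2 ≤ n) : (AS Ω).Ex F n :=
  ex_of_injOn hF hφ hinj (ex_of_coords m _ (hF.image_of_continuousOn hφ)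
    (fun x _ y _ i hi => absurd i.2 (by omega)) n hn hn2)






/-- (B) -/
theorem ex_of_locally_embed {Ω : Type*} [MetricSpace Ω] {m : ℕ}
    (hloc : ∀ q : Ω, ∃ K ∈ 𝓝 q, IsCompact K ∧ ∃ φ : Ω → (Fin m → ℝ), ContinuousOn φ K ∧ InjOn φ K)
    {Z : Set Ω} (hZ : IsCompact Z) {n : ℕ} (hn : m + 2 ≤ n) (hn3 : 3 ≤ n) : (AS Ω).Ex Z n := by
  obtain ⟨n', rfl⟩ : ∃ n', n = n' + 1 := ⟨n - 1, by omega⟩
  intro k hk
  refine not_cob_induction hZ fun Z' hZ' hc hmin => ?_
  rcases Z'.eq_empty_or_nonempty with rfl | ⟨q, hq⟩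
  · exact Cob.of_mem (by simp)
  obtain ⟨K, hKq, hKc, φ, hφ, hinj⟩ := hloc q
  obtain ⟨r, hr, hrK⟩ := Metric.mem_nhds_iff.1 hKq
  have hsub : Metric.closedBall q (r / 2) ⊆ K :=
    (Metric.closedBall_subset_ball (by linarith)).trans hrK
  have hA : IsCompact (Z' ∩ Metric.closedBall q (r / 2)) :=
    hc.inter_right Metric.isClosed_closedBall
  have hB : IsCompact (Z' \ Metric.ball q (r / 2)) := hc.diff Metric.isOpen_ball
  have hun : Z' = (Z' ∩ Metric.closedBall q (r / 2)) ∪ (Z' \ Metric.ball q (r / 2)) := by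
    ext x
    simp only [mem_union, mem_inter_iff, Metric.mem_closedBall, mem_sdiff, Metric.mem_ball]
    constructor
    · intro hx
      rcases le_or_gt (dist x q) (r / 2) with h | h
      · exact Or.inl ⟨hx, h⟩
      · exact Or.inr ⟨hx, not_lt.2 h.le⟩
    · rintro (h | h)
      · exact h.1
      · exact h.1
  have hAK : Z' ∩ Metric.closedBall q (r / 2) ⊆ K := inter_subset_right.trans hsub
  have hcA : (AS Ω).Cob (Z' ∩ Metric.closedBall q (r / 2)) (n' + 1) k :=
    ex_of_embed hA (hφ.mono hAK) (hinj.mono hAK) (by omega) (by omega) k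
      (hk.mono (inter_subset_left.trans hZ'))
  have hcB : (AS Ω).Cob (Z' \ Metric.ball q (r / 2)) (n' + 1) k := by
    refine hmin _ sdiff_subset hB ?_
    intro h
    have : q ∈ Z' \ Metric.ball q (r / 2) := by rw [h]; exact hq
    exact this.2 (Metric.mem_ball_self (by linarith))
  have hI : (AS Ω).Ex ((Z' ∩ Metric.closedBall q (r / 2)) ∩ (Z' \ Metric.ball q (r / 2))) n' :=
    ex_of_embed (hA.inter_right hB.isClosed) (hφ.mono (inter_subset_left.trans hAK))
      (hinj.mono (inter_subset_left.trans hAK)) (by omega) (by omega)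
  rw [hun]
  exact mv hA.isClosed hB.isClosed hI hcA hcB



end Pool.Agent.Helper775.Tight
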