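import Pool.Agent.Helper775.Tight.Spheres
import Pool.Agent.Helper775.Tight.Dim

set_option autoImplicit false

namespace Pool.Agent.Helper775.Tight



open Set Topology SoftCx


theorem coc_one_of_injOn {Ω Ω' : Type*} [MetricSpace Ω] [MetricSpace Ω'] {F : Set Ω} (hF : IsCompact F) (hne : F.Nonempty) {φ : Ω → Ω'}
    (hφ : ContinuousOn φ F) (hinj : InjOn φ F)
    (h : ∀ k, (AS Ω').Coc (φ '' F) 1 k →
      (∀ z ∈ φ '' F, k ∈ (AS Ω').N z 1) ∨ ∀ z ∈ φ '' F, k - one ∈ (AS Ω').N z 1)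
    (k : Ch Ω) (hk : (AS Ω).Coc F 1 k) :
    (∀ z ∈ F, k ∈ (AS Ω).N z 1) ∨ ∀ z ∈ F, k - one ∈ (AS Ω).N z 1 := by
  obtain ⟨g, g', h1, h2, h3, h4⟩ := exists_ext hF hne hφ hinj
  refine coc_one_retract (g := g) (g' := g') h1 h2 ?_ ?_ ?_ h k hk
  · intro x hx; rw [h3 x hx]; exact mem_image_of_mem φ hx
  · rintro _ ⟨x, hx, rfl⟩; rw [h4 x hx]; exact hx
  · intro x hx; rw [h3 x hx, h4 x hx]

theorem closedBall_acy {D : ℕ} {R : ℝ} (hR : 0 < R) :
    (AS (EuclideanSpace ℝ (Fin D))).Acy one (Metric.closedBall (0 : EuclideanSpace ℝ (Fin D)) R) := by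
  refine acy_of_contract (isCompact_closedBall _ _) (fun t x => (1 - t) • x) 0 ?_ ?_ ?_ ?_ ?_
  · intro t ht x hx
    have : Continuous (fun p : ℝ × EuclideanSpace ℝ (Fin D) => (1 - p.1) • p.2) := by fun_prop
    exact this.continuousAt
  · intro t ht x hx
    rw [mem_closedBall_zero_iff] at hx ⊢
    rw [norm_smul, Real.norm_eq_abs, abs_of_nonneg (by linarith [ht.2])]
    have h1 : (1 - t) * ‖x‖ ≤ 1 * ‖x‖ := by
      apply mul_le_mul_of_nonneg_right _ (norm_nonneg _)
      linarith [ht.1]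
    linarith
  · intro x hx; simp
  · intro x hx; simp
  · exact Metric.mem_closedBall_self hR.le

/-- (E) -/
theorem inj_of_complement {P : Type*} [MetricSpace P] [CompactSpace P] {D : ℕ} (hD : 2 ≤ D)
    (S : Set P) (hS : IsClosed S) (e : (Sᶜ : Set P) ≃ₜ EuclideanSpace ℝ (Fin D)) {q : ℕ}
    (hq : 1 ≤ q) (hqD : q + 1 ≤ D) {c : Ch P} (hc : (AS P).Coc univ (q + 1) c)
    (hcS : (AS P).Cob S (q + 1) c) : (AS P).Cob univ (q + 1) c := by
  classical
  obtain ⟨U, hU, hSU, hcU⟩ := hcS.isOpen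
  -- the parametrization of the cell
  set ψ : EuclideanSpace ℝ (Fin D) → P := fun y => (e.symm y : P) with hψ
  have hψc : Continuous ψ := continuous_subtype_val.comp e.symm.continuous
  have hψi : Function.Injective ψ := Subtype.val_injective.comp e.symm.injective
  have hψS : ∀ y, ψ y ∈ Sᶜ := fun y => (e.symm y).2
  have hψo : IsOpenMap ψ := by
    have h1 : IsOpenMap (Subtype.val : (Sᶜ : Set P) → P) := hS.isOpen_compl.isOpenMap_subtype_val
    exact h1.comp e.symm.isOpenMap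
  -- the inverse
  set φ : P → EuclideanSpace ℝ (Fin D) := fun x => if h : x ∈ Sᶜ then e ⟨x, h⟩ else 0 with hφ
  have hφψ : ∀ y, φ (ψ y) = y := by
    intro y
    have h1 : ψ y ∈ Sᶜ := hψS y
    simp only [hφ]
    rw [dif_pos h1]
    have h2 : (⟨ψ y, h1⟩ : (Sᶜ : Set P)) = e.symm y := Subtype.ext rfl
    rw [h2, e.apply_symm_apply]
  have hψφ : ∀ x ∈ Sᶜ, ψ (φ x) = x := by
    intro x hx
    simp only [hφ, hψ]
    rw [dif_pos hx, e.symm_apply_apply]
  have hφc : ContinuousOn φ Sᶜ := by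
    rw [continuousOn_iff_continuous_domRestrict]
    have : domRestrict (Sᶜ : Set P) φ = e := by
      funext x
      simp only [domRestrict, hφ]
      rw [dif_pos x.2]
    rw [this]
    exact e.continuous
  have hφi : InjOn φ Sᶜ := by
    intro x hx y hy hxy
    rw [← hψφ x hx, ← hψφ y hy, hxy]
  -- the radius
  obtain ⟨R, hR, hRU⟩ : ∃ R : ℝ, 0 < R ∧ ∀ x, x ∉ U → φ x ∈ Metric.ball 0 R := by
    have hUc : IsCompact (Uᶜ : Set P) := hU.isClosed_compl.isCompact
    have h1 : IsCompact (φ '' Uᶜ) :=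
      hUc.image_of_continuousOn (hφc.mono (compl_subset_compl.2 hSU))
    obtain ⟨r, hr⟩ := h1.isBounded.subset_ball 0
    refine ⟨max r 1, by positivity, fun x hx => ?_⟩
    exact Metric.ball_subset_ball (le_max_left _ _) (hr (mem_image_of_mem φ hx))
  set K : Set P := ψ '' Metric.closedBall 0 R with hK
  set W : Set P := (ψ '' Metric.ball 0 R)ᶜ with hW
  have hKc : IsCompact K := (isCompact_closedBall _ _).image hψc
  have hWc : IsClosed W := (hψo _ Metric.isOpen_ball).isClosed_compl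
  have hWU : W ⊆ U := by
    intro x hx
    by_contra hxU
    apply hx
    have hxS : x ∈ Sᶜ := fun h => hxU (hSU h)
    exact ⟨φ x, hRU x hxU, hψφ x hxS⟩
  have hun : (univ : Set P) = K ∪ W := by
    symm
    rw [eq_univ_iff_forall]
    intro x
    by_cases hx : x ∈ ψ '' Metric.ball 0 R
    · left
      exact image_mono Metric.ball_subset_closedBall hx
    · exact Or.inr hx
  have hint : K ∩ W = ψ '' Metric.sphere 0 R := by
    ext x
    constructor
    · rintro ⟨⟨y, hy, rfl⟩, h2⟩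
      refine ⟨y, ?_, rfl⟩
      rw [mem_sphere_zero_iff_norm]
      rw [mem_closedBall_zero_iff] at hy
      by_contra hne
      apply h2
      refine ⟨y, ?_, rfl⟩
      rw [mem_ball_zero_iff]
      exact lt_of_le_of_ne hy hne
    · rintro ⟨y, hy, rfl⟩
      rw [mem_sphere_zero_iff_norm] at hy
      refine ⟨⟨y, by rw [mem_closedBall_zero_iff, hy], rfl⟩, ?_⟩
      rintro ⟨z, hz, hzy⟩
      rw [hψi hzy, mem_ball_zero_iff, hy] at hz
      exact lt_irrefl _ hz
  have hKS : K ⊆ Sᶜ := by rintro _ ⟨y, _, rfl⟩; exact hψS y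
  have hφK : φ '' K = Metric.closedBall 0 R := by
    rw [hK, image_image]
    simp only [hφψ, image_id']
  have hcobK : (AS P).Cob K (q + 1) c := by
    have h1 : (AS P).Ex K (q + 1) := by
      refine ex_of_injOn hKc (hφc.mono hKS) (hφi.mono hKS) ?_
      rw [hφK]
      exact (closedBall_acy hR).2.2 _ (by omega)
    exact h1 c (hc.mono (subset_univ _))
  have hcobW : (AS P).Cob W (q + 1) c := hcU.mono hWU
  -- the sphere
  set φ' : P → EuclideanSpace ℝ (Fin D) := fun x => R⁻¹ • φ x with hφ'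
  have hIK : K ∩ W ⊆ Sᶜ := inter_subset_left.trans hKS
  have hIc : IsCompact (K ∩ W) := hKc.inter_right hWc
  have hφ'c : ContinuousOn φ' (K ∩ W) := (continuous_const_smul (R⁻¹ : ℝ)).comp_continuousOn (hφc.mono hIK)
  have hφ'i : InjOn φ' (K ∩ W) := by
    intro x hx y hy hxy
    apply hφi (hIK hx) (hIK hy)
    exact smul_right_injective _ (inv_ne_zero hR.ne') hxy
  have himg : φ' '' (K ∩ W) = Sp D D := by
    rw [hint, image_image]
    simp only [hφ', hφψ]
    ext x
    constructor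
    · rintro ⟨y, hy, rfl⟩
      rw [mem_sphere_zero_iff_norm] at hy
      refine ⟨?_, fun i hi => absurd i.2 (by omega)⟩
      rw [norm_smul, norm_inv, Real.norm_eq_abs, abs_of_pos hR, hy, inv_mul_cancel₀ hR.ne']
    · rintro ⟨hx, _⟩
      refine ⟨R • x, ?_, ?_⟩
      · rw [mem_sphere_zero_iff_norm, norm_smul, Real.norm_eq_abs, abs_of_pos hR, hx, mul_one]
      · simp only [smul_smul, inv_mul_cancel₀ hR.ne', one_smul]
  rw [hun]
  rcases Nat.lt_or_ge q 2 with hq2 | hq2
  · have hq1 : q = 1 := by omega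
    subst hq1
    refine mv' hKc.isClosed hWc ?_ hcobK hcobW
    intro b hb
    have hne : (K ∩ W).Nonempty := by
      rw [hint]
      refine Set.Nonempty.image _ ?_
      refine ⟨R • EuclideanSpace.single ⟨0, by omega⟩ (1 : ℝ), ?_⟩
      rw [mem_sphere_zero_iff_norm, norm_smul, Real.norm_eq_abs, abs_of_pos hR]
      simp
    have h1 := coc_one_of_injOn hIc hne hφ'c hφ'i (by
      rw [himg]
      exact sp_connected hD le_rfl) b hb
    rcases h1 with h1 | h1
    · exact ⟨0, coc_zero _ _, Cob.of_mem (by simpa using h1)⟩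
    · refine ⟨one, ?_, Cob.of_mem h1⟩
      intro z _
      exact one_D_mem z
  · refine mv hKc.isClosed hWc ?_ hcobK hcobW
    refine ex_of_injOn hIc hφ'c hφ'i ?_
    rw [himg]
    exact sp_ex (by omega) le_rfl q hq2 (by omega)


end Pool.Agent.Helper775.Tight
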