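import Pool.Agent.Helper775.Tight.SpRank

set_option autoImplicit false

namespace Pool.Agent.Helper775.Tight



open Set Topology SoftCx

theorem connected_of_complement {P : Type*} [MetricSpace P] [CompactSpace P] {D : ℕ} (hD : 1 ≤ D)
    (S : Set P) (hS : IsConnected S) (hSc : IsClosed S)
    (e : (Sᶜ : Set P) ≃ₜ EuclideanSpace ℝ (Fin D)) : ConnectedSpace P := by
  haveI : Nonempty (Fin D) := ⟨⟨0, by omega⟩⟩
  have hrange : range (fun y : EuclideanSpace ℝ (Fin D) => ((e.symm y : (Sᶜ : Set P)) : P)) = Sᶜ := by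
    ext x
    constructor
    · rintro ⟨y, rfl⟩
      exact (e.symm y).2
    · intro hx
      exact ⟨e ⟨x, hx⟩, by simp⟩
  have hpre : IsPreconnected (Sᶜ : Set P) := by
    rw [← hrange]
    exact isPreconnected_range (continuous_subtype_val.comp e.symm.continuous)
  have hnc : ¬ IsClosed (Sᶜ : Set P) := by
    intro hc
    have hcomp : IsCompact (Sᶜ : Set P) := hc.isCompact
    haveI : CompactSpace (Sᶜ : Set P) := isCompact_iff_compactSpace.1 hcomp
    haveI : CompactSpace (EuclideanSpace ℝ (Fin D)) := e.compactSpace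
    exact (not_compactSpace_iff.2 (inferInstance : NoncompactSpace (EuclideanSpace ℝ (Fin D))))
      inferInstance
  have hx : ∃ x ∈ closure (Sᶜ : Set P), x ∈ S := by
    by_contra hno
    push Not at hno
    apply hnc
    rw [← closure_subset_iff_isClosed]
    exact fun x hx => hno x hx
  obtain ⟨x, hx1, hx2⟩ := hx
  have hun : IsPreconnected (closure (Sᶜ : Set P) ∪ S) :=
    IsPreconnected.union x hx1 hx2 hpre.closure hS.isPreconnected
  have huniv : closure (Sᶜ : Set P) ∪ S = univ := by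
    apply eq_univ_of_forall
    intro y
    by_cases hy : y ∈ S
    · exact Or.inr hy
    · exact Or.inl (subset_closure hy)
  rw [huniv] at hun
  haveI : PreconnectedSpace P := ⟨hun⟩
  exact { toNonempty := ⟨x⟩ }

open Classical in
/-- the extension by zero of the homeomorphism with the sphere -/
noncomputable def sphMap {P : Type*} [MetricSpace P] {d : ℕ}
    (S : Set P) (e : S ≃ₜ Metric.sphere (0 : EuclideanSpace ℝ (Fin (d + 1))) 1) :
    P → EuclideanSpace ℝ (Fin (d + 1)) := fun x => if h : x ∈ S then (e ⟨x, h⟩).1 else 0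

theorem sphMap_apply {P : Type*} [MetricSpace P] {d : ℕ}
    (S : Set P) (e : S ≃ₜ Metric.sphere (0 : EuclideanSpace ℝ (Fin (d + 1))) 1) (x : S) :
    sphMap S e x = (e x).1 := by
  unfold sphMap
  rw [dif_pos x.2]

theorem sphMap_cont {P : Type*} [MetricSpace P] {d : ℕ}
    (S : Set P) (e : S ≃ₜ Metric.sphere (0 : EuclideanSpace ℝ (Fin (d + 1))) 1) :
    ContinuousOn (sphMap S e) S := by
  rw [continuousOn_iff_continuous_domRestrict]
  have h : S.domRestrict (sphMap S e) = fun x : S => (e x).1 := by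
    funext x
    exact sphMap_apply S e x
  rw [h]
  exact continuous_subtype_val.comp e.continuous

theorem sphMap_inj {P : Type*} [MetricSpace P] {d : ℕ}
    (S : Set P) (e : S ≃ₜ Metric.sphere (0 : EuclideanSpace ℝ (Fin (d + 1))) 1) :
    InjOn (sphMap S e) S := by
  intro x hx y hy hxy
  have h1 := sphMap_apply S e ⟨x, hx⟩
  have h2 := sphMap_apply S e ⟨y, hy⟩
  have h3 : sphMap S e x = sphMap S e y := hxy
  have h4 : (e ⟨x, hx⟩).1 = (e ⟨y, hy⟩).1 := by rw [← h1, ← h2]; exact h3
  have h5 := e.injective (Subtype.ext h4)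
  exact congrArg Subtype.val h5

theorem sphMap_image {P : Type*} [MetricSpace P] {d : ℕ}
    (S : Set P) (e : S ≃ₜ Metric.sphere (0 : EuclideanSpace ℝ (Fin (d + 1))) 1) :
    sphMap S e '' S = Sp (d + 1) (d + 1) := by
  ext y
  constructor
  · rintro ⟨x, hx, rfl⟩
    have h1 := sphMap_apply S e ⟨x, hx⟩
    rw [show sphMap S e x = (e ⟨x, hx⟩).1 from h1]
    refine ⟨?_, fun i hi => absurd i.2 (by omega)⟩
    have := (e ⟨x, hx⟩).2
    simpa using this
  · rintro ⟨hy, _⟩
    have hy' : y ∈ Metric.sphere (0 : EuclideanSpace ℝ (Fin (d + 1))) 1 := by simpa using hy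
    refine ⟨(e.symm ⟨y, hy'⟩ : S), (e.symm ⟨y, hy'⟩).2, ?_⟩
    rw [sphMap_apply]
    simp

theorem ex_sphere_image {P : Type*} [MetricSpace P] [CompactSpace P] {d : ℕ} (hd : 1 ≤ d)
    (S : Set P) (hS : IsClosed S)
    (e : S ≃ₜ Metric.sphere (0 : EuclideanSpace ℝ (Fin (d + 1))) 1) (n : ℕ) (hn : 2 ≤ n)
    (hnd : n ≠ d + 1) : (AS P).Ex S n := by
  refine ex_of_injOn hS.isCompact (sphMap_cont S e) (sphMap_inj S e) ?_
  rw [sphMap_image]
  exact sp_ex (by omega) le_rfl n hn hnd

theorem rank_sphere_image {P : Type*} [MetricSpace P] [CompactSpace P] {d : ℕ} (hd : 1 ≤ d)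
    (S : Set P) (hS : IsClosed S)
    (e : S ≃ₜ Metric.sphere (0 : EuclideanSpace ℝ (Fin (d + 1))) 1) (c c' : Ch P)
    (hc : (AS P).Coc S (d + 1) c) (hc' : (AS P).Coc S (d + 1) c') :
    (AS P).Cob S (d + 1) c ∨ (AS P).Cob S (d + 1) c' ∨ (AS P).Cob S (d + 1) (c - c') := by
  rcases S.eq_empty_or_nonempty with rfl | hne
  · exact Or.inl (Cob.of_mem (by simp))
  obtain ⟨g, g', h1, h2, h3, h4⟩ :=
    exists_ext hS.isCompact hne (sphMap_cont S e) (sphMap_inj S e)
  have hF : MapsTo g S (sphMap S e '' S) := by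
    intro x hx; rw [h3 x hx]; exact mem_image_of_mem _ hx
  have hF' : MapsTo g' (sphMap S e '' S) S := by
    rintro _ ⟨x, hx, rfl⟩; rw [h4 x hx]; exact hx
  have hgg : ∀ x ∈ S, g' (g x) = x := by
    intro x hx; rw [h3 x hx, h4 x hx]
  have r1 := cob_retract h1 h2 hF hF' hgg hc
  have r2 := cob_retract h1 h2 hF hF' hgg hc'
  have k1 := coc_pb h2 hF' hc
  have k2 := coc_pb h2 hF' hc'
  have key := sp_rank (M := d + 1) (k := d + 1) (by omega) le_rfl (pb g' c) (pb g' c')
    (by rw [sphMap_image] at k1; exact k1) (by rw [sphMap_image] at k2; exact k2)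
  rw [← sphMap_image S e] at key
  rcases key with h | h | h
  · left
    have := r1.add (cob_pb h1 hF h)
    simpa using this
  · right; left
    have := r2.add (cob_pb h1 hF h)
    simpa using this
  · right; right
    have h5 := (r1.sub r2).add (cob_pb h1 hF h)
    have e1 : c - pb g (pb g' c) - (c' - pb g (pb g' c')) + pb g (pb g' c - pb g' c') = c - c' := by
      have e2 : pb g (pb g' c - pb g' c') = pb g (pb g' c) - pb g (pb g' c') := rfl
      rw [e2]
      abel
    rwa [e1] at h5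



end Pool.Agent.Helper775.Tight
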