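import Pool.Agent.Helper775.Tight.Spheres

set_option autoImplicit false

namespace Pool.Agent.Helper775.Tight



open Set Topology SoftCx


/-- base cochain -/
private noncomputable def bch {M : ℕ} (i0 : Fin M) : Ch (EuclideanSpace ℝ (Fin M)) := fun l =>
  open Classical in
  match l with
  | [] => 0
  | x :: _ => if 0 < x i0 then 1 else 0

private theorem sp_base {M : ℕ} (hM : 1 ≤ M) :
    ∃ c : Ch (EuclideanSpace ℝ (Fin M)), (AS _).Coc (Sp M 1) 1 c ∧ ¬ (AS _).Cob (Sp M 1) 1 c ∧
      ¬ (AS _).Cob (Sp M 1) 1 (c - one) := by
  classical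
  let i0 : Fin M := ⟨0, hM⟩
  have hcontE : Continuous (fun x : EuclideanSpace ℝ (Fin M) => x i0) := by fun_prop
  have hSp1 : EuclideanSpace.single i0 (1 : ℝ) ∈ Sp M 1 := by
    refine ⟨by simp, fun i hi => ?_⟩
    have : i ≠ i0 := by
      intro h
      rw [h] at hi
      simp [i0] at hi
    simp [this]
  have hSp2 : EuclideanSpace.single i0 (-1 : ℝ) ∈ Sp M 1 := by
    refine ⟨by simp, fun i hi => ?_⟩
    have : i ≠ i0 := by
      intro h
      rw [h] at hi
      simp [i0] at hi
    simp [this]
  refine ⟨bch i0, ?_, ?_, ?_⟩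
  · rintro z ⟨hz1, hz2⟩
    have hz0 : z i0 ≠ 0 := by
      intro h0
      have : z = 0 := by
        ext i
        by_cases hi : i = i0
        · rw [hi]
          simpa using h0
        · have : 1 ≤ i.val := by
            rcases Nat.eq_zero_or_pos i.val with h | h
            · exact absurd (Fin.ext h) hi
            · exact h
          simpa using hz2 i this
      rw [this] at hz1
      simp at hz1
    rcases lt_or_gt_of_ne hz0 with h | h
    · refine mem_Nz_of (W := {x | x i0 < 0}) ((isOpen_lt hcontE continuous_const).mem_nhds h) ?_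
      intro l hl hx
      match l, hl with
      | [x, y], _ =>
        have h1 : x i0 < 0 := hx x (by simp)
        have h2 : y i0 < 0 := hx y (by simp)
        rw [AS_D, dd_apply (by simp)]
        simp only [d_cons, d_nil, bch]
        rw [if_neg (by linarith), if_neg (by linarith)]
        simp
    · refine mem_Nz_of (W := {x | 0 < x i0}) ((isOpen_lt continuous_const hcontE).mem_nhds h) ?_
      intro l hl hx
      match l, hl with
      | [x, y], _ =>
        have h1 : 0 < x i0 := hx x (by simp)
        have h2 : 0 < y i0 := hx y (by simp)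
        rw [AS_D, dd_apply (by simp)]
        simp only [d_cons, d_nil, bch]
        rw [if_pos h1, if_pos h2]
        decide
  · rw [cob_one]
    intro h
    obtain ⟨W, hW, hzW, h2⟩ := exists_of_mem_Nz one_ne_zero (h _ hSp1)
    have h3 := h2 [EuclideanSpace.single i0 (1 : ℝ)] rfl (by simpa using hzW)
    simp [bch] at h3
  · rw [cob_one]
    intro h
    obtain ⟨W, hW, hzW, h2⟩ := exists_of_mem_Nz one_ne_zero (h _ hSp2)
    have h3 := h2 [EuclideanSpace.single i0 (-1 : ℝ)] rfl (by simpa using hzW)
    simp [bch, one] at h3
    rw [if_neg (by norm_num)] at h3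
    revert h3
    decide

private theorem sp_top_aux {M : ℕ} (k : ℕ) (hk : 1 ≤ k) : k ≤ M →
    ∃ c : Ch (EuclideanSpace ℝ (Fin M)), (AS _).Coc (Sp M k) k c ∧ ¬ (AS _).Cob (Sp M k) k c ∧
      (k = 1 → ¬ (AS _).Cob (Sp M k) k (c - one)) := by
  induction k, hk using Nat.le_induction with
  | base =>
    intro hM
    obtain ⟨c, h1, h2, h3⟩ := sp_base hM
    exact ⟨c, h1, h2, fun _ => h3⟩
  | succ k hk ih =>
    intro hkM
    obtain ⟨b, hb1, hb2, hb3⟩ := ih (by omega)
    obtain ⟨A, B, hA, hB, hun, hint, hAA, hBB⟩ := hemi_facts (M := M) (k := k) (by omega)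
    obtain ⟨n1, hn1, hn2⟩ := (AS (EuclideanSpace ℝ (Fin M))).soft (k + 1)
      ((AS (EuclideanSpace ℝ (Fin M))).D b) A B hA.isClosed hB.isClosed
      (fun z hz => hb1 z (by rw [← hint]; exact hz))
    refine ⟨(AS (EuclideanSpace ℝ (Fin M))).D b - n1, ?_, ?_, by omega⟩
    · rw [← hun]
      rintro z (hz | hz)
      · rw [map_sub]
        exact sub_mem ((AS (EuclideanSpace ℝ (Fin M))).DD_mem z _ b)
          ((AS (EuclideanSpace ℝ (Fin M))).D_mem z _ _ (hn1 z hz))
      · exact (AS (EuclideanSpace ℝ (Fin M))).D_mem z _ _ (hn2 z hz)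
    · rintro ⟨e, he⟩
      rw [← hun] at he
      have heB : (AS (EuclideanSpace ℝ (Fin M))).Coc B k e := by
        intro z hz
        have h := sub_mem (hn2 z hz) (he z (Or.inr hz))
        convert h using 1
        abel
      have heA : (AS (EuclideanSpace ℝ (Fin M))).Coc A k (b - e) := by
        intro z hz
        have h := add_mem (hn1 z hz) (he z (Or.inl hz))
        rw [map_sub]
        convert h using 1
        abel
      have hsA : Sp M k ⊆ A := by rw [← hint]; exact inter_subset_left
      have hsB : Sp M k ⊆ B := by rw [← hint]; exact inter_subset_right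
      rcases Nat.lt_or_ge k 2 with hk2 | hk2
      · have hk1 : k = 1 := by omega
        subst hk1
        have hb3' := hb3 rfl
        rw [cob_one] at hb2 hb3'
        rcases hBB.2.1 e heB with h1 | h1 <;> rcases hAA.2.1 (b - e) heA with h2 | h2
        · apply hb2
          intro z hz
          have := add_mem (h1 z (hsB hz)) (h2 z (hsA hz))
          convert this using 1
          abel
        · apply hb3'
          intro z hz
          have := add_mem (h1 z (hsB hz)) (h2 z (hsA hz))
          convert this using 1
          abel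
        · apply hb3'
          intro z hz
          have := add_mem (h1 z (hsB hz)) (h2 z (hsA hz))
          convert this using 1
          abel
        · apply hb2
          intro z hz
          have := add_mem (h1 z (hsB hz)) (h2 z (hsA hz))
          convert this using 1
          funext l
          simp only [Pi.add_apply, Pi.sub_apply, one]
          have h3 : (1 : ZMod 2) + 1 = 0 := by decide
          linear_combination h3
      · apply hb2
        have h1 := (hBB.2.2 k hk2 e heB).mono hsB
        have h2 := (hAA.2.2 k hk2 (b - e) heA).mono hsA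
        have h3 := h1.add h2
        convert h3 using 1
        abel

theorem sp_top {M k : ℕ} (hk : 2 ≤ k) (hkM : k ≤ M) :
    ∃ c : Ch (EuclideanSpace ℝ (Fin M)), (AS _).Coc (Sp M k) k c ∧ ¬ (AS _).Cob (Sp M k) k c := by
  obtain ⟨c, h1, h2, -⟩ := sp_top_aux (M := M) k (by omega) hkM
  exact ⟨c, h1, h2⟩



end Pool.Agent.Helper775.Tight
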