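import Pool.Agent.Helper775.Tight.Dim

set_option autoImplicit false

namespace Pool.Agent.Helper775.Tight



open Set Topology SoftCx

/-- the stereographic projection in coordinates, on the sphere of radius `ρ` around `a` with one
point `p` removed -/
theorem exists_sphere_coord {m : ℕ} (hm : 2 ≤ m) (a p : EuclideanSpace ℝ (Fin m)) (ρ : ℝ)
    (hρ : 0 < ρ) (hp : dist p a = ρ) :
    ∃ σ : EuclideanSpace ℝ (Fin m) → (Fin (m - 1) → ℝ),
      ContinuousOn σ (Metric.sphere a ρ \ {p}) ∧ InjOn σ (Metric.sphere a ρ \ {p}) := by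
  obtain ⟨m, rfl⟩ : ∃ m', m = m' + 1 := ⟨m - 1, by omega⟩
  show ∃ σ : EuclideanSpace ℝ (Fin (m + 1)) → (Fin m → ℝ),
      ContinuousOn σ (Metric.sphere a ρ \ {p}) ∧ InjOn σ (Metric.sphere a ρ \ {p})
  haveI : Fact (Module.finrank ℝ (EuclideanSpace ℝ (Fin (m + 1))) = m + 1) :=
    ⟨by simp⟩
  set v : EuclideanSpace ℝ (Fin (m + 1)) := ρ⁻¹ • (p - a) with hv
  have hvn : ‖v‖ = 1 := by
    rw [hv, norm_smul, norm_inv, Real.norm_eq_abs, abs_of_pos hρ, ← dist_eq_norm, hp]
    exact inv_mul_cancel₀ hρ.ne'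
  have hv0 : v ≠ 0 := by
    rintro h
    rw [h, norm_zero] at hvn
    exact zero_ne_one hvn
  let e := (OrthonormalBasis.fromOrthogonalSpanSingleton (𝕜 := ℝ) m hv0).repr
  let A : EuclideanSpace ℝ (Fin (m + 1)) → EuclideanSpace ℝ (Fin (m + 1)) :=
    fun x => ρ⁻¹ • (x - a)
  have hAc : Continuous A := by fun_prop
  have hAinj : Function.Injective A := by
    intro x y hxy
    have h1 : ρ⁻¹ • (x - a) = ρ⁻¹ • (y - a) := hxy
    have h2 := smul_right_injective _ (inv_ne_zero hρ.ne') h1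
    exact sub_left_injective h2
  have hAn : ∀ x ∈ Metric.sphere a ρ, ‖A x‖ = 1 := by
    intro x hx
    rw [mem_sphere_iff_norm] at hx
    show ‖ρ⁻¹ • (x - a)‖ = 1
    rw [norm_smul, norm_inv, Real.norm_eq_abs, abs_of_pos hρ, hx]
    exact inv_mul_cancel₀ hρ.ne'
  have hAv : ∀ x, x ≠ p → A x ≠ v := fun x hx h => hx (hAinj h)
  refine ⟨fun x => (e (stereoToFun v (A x))).ofLp, ?_, ?_⟩
  · have h1 : ContinuousOn (fun x => stereoToFun v (A x)) (Metric.sphere a ρ \ {p}) := by
      refine continuousOn_stereoToFun.comp hAc.continuousOn ?_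
      intro x hx
      have h2 : (inner ℝ v (A x) : ℝ) < 1 :=
        (inner_lt_one_iff_real_of_norm_eq_one hvn (hAn x hx.1)).2 (hAv x hx.2).symm
      exact h2.ne
    exact (PiLp.continuous_ofLp 2 _).comp_continuousOn (e.continuous.comp_continuousOn h1)
  · intro x hx y hy hxy
    have h1 : e (stereoToFun v (A x)) = e (stereoToFun v (A y)) := by
      ext i
      exact congrFun hxy i
    have h2 := e.injective h1
    have h3 := stereo_left_inv hvn (x := ⟨A x, by simpa using hAn x hx.1⟩) (hAv x hx.2)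
    have h4 := stereo_left_inv hvn (x := ⟨A y, by simpa using hAn y hy.1⟩) (hAv y hy.2)
    simp only at h3 h4
    rw [h2, h4] at h3
    exact (hAinj (congrArg Subtype.val h3)).symm

/-- (C) -/
theorem ex_top {P : Type*} [MetricSpace P] [CompactSpace P] [ConnectedSpace P] {m : ℕ}
    (hm : 2 ≤ m) [ChartedSpace (EuclideanSpace ℝ (Fin m)) P] {Z : Set P} (hZ : IsClosed Z)
    (hne : Z ≠ univ) : (AS P).Ex Z (m + 1) := by
  intro k hk
  refine not_cob_induction hZ.isCompact fun Z' hZ' hc hmin => ?_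
  rcases Z'.eq_empty_or_nonempty with rfl | hne'
  · exact Cob.of_mem (by simp)
  have hZ'ne : Z' ≠ univ := by
    rintro rfl
    exact hne (univ_subset_iff.1 hZ')
  obtain ⟨q, hq⟩ : (frontier Z').Nonempty := nonempty_frontier_iff.2 ⟨hne', hZ'ne⟩
  have hqZ : q ∈ Z' := hc.isClosed.frontier_subset hq
  have hqc : q ∈ closure Z'ᶜ := by
    rw [frontier_eq_closure_inter_closure] at hq
    exact hq.2
  set φ := chartAt (EuclideanSpace ℝ (Fin m)) q with hφ
  have hqs : q ∈ φ.source := mem_chart_source _ q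
  obtain ⟨r0, hr0, hball⟩ : ∃ r0 > 0, Metric.closedBall (φ q) r0 ⊆ φ.target :=
    Metric.nhds_basis_closedBall.mem_iff.1 (φ.open_target.mem_nhds (φ.map_source hqs))
  have hnh : φ.source ∩ φ ⁻¹' Metric.ball (φ q) r0 ∈ 𝓝 q :=
    (φ.isOpen_inter_preimage Metric.isOpen_ball).mem_nhds ⟨hqs, Metric.mem_ball_self hr0⟩
  obtain ⟨p, ⟨hps, hpb⟩, hpZ⟩ := mem_closure_iff_nhds.1 hqc _ hnh
  have hpb' : dist (φ p) (φ q) < r0 := hpb
  have hpq : p ≠ q := fun h => hpZ (h ▸ hqZ)
  have hpq' : φ p ≠ φ q := fun h => hpq (φ.injOn hps hqs h)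
  set ρ := dist (φ p) (φ q) with hρ
  have hρ0 : 0 < ρ := dist_pos.2 hpq'
  have hcb : Metric.closedBall (φ q) ρ ⊆ φ.target :=
    (Metric.closedBall_subset_closedBall hpb'.le).trans hball
  have hbt : Metric.ball (φ q) ρ ⊆ φ.target := Metric.ball_subset_closedBall.trans hcb
  set K : Set P := φ.symm '' Metric.closedBall (φ q) ρ with hK
  set U : Set P := φ.symm '' Metric.ball (φ q) ρ with hU
  have hKc : IsCompact K :=
    (isCompact_closedBall _ _).image_of_continuousOn (φ.continuousOn_symm.mono hcb)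
  have hUo : IsOpen U := φ.symm.isOpen_image_of_subset_source Metric.isOpen_ball hbt
  have hUK : U ⊆ K := image_mono Metric.ball_subset_closedBall
  have hqU : q ∈ U := ⟨φ q, Metric.mem_ball_self hρ0, φ.left_inv hqs⟩
  have hKs : K ⊆ φ.source := by
    rintro _ ⟨y, hy, rfl⟩
    exact φ.map_target (hcb hy)
  have hA : IsCompact (Z' ∩ K) := hc.inter hKc
  have hB : IsCompact (Z' \ U) := hc.diff hUo
  have hun : Z' = (Z' ∩ K) ∪ (Z' \ U) := by
    ext x
    constructor
    · intro hx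
      by_cases h : x ∈ U
      · exact Or.inl ⟨hx, hUK h⟩
      · exact Or.inr ⟨hx, h⟩
    · rintro (h | h)
      · exact h.1
      · exact h.1
  rw [hun]
  refine mv hA.isClosed hB.isClosed ?_ ?_ ?_
  · -- the intersection
    obtain ⟨σ, hσc, hσi⟩ := exists_sphere_coord hm (φ q) (φ p) ρ hρ0 rfl
    have hmaps : MapsTo φ ((Z' ∩ K) ∩ (Z' \ U)) (Metric.sphere (φ q) ρ \ {φ p}) := by
      rintro x ⟨⟨hxZ, y, hy, rfl⟩, -, hxU⟩
      rw [φ.right_inv (hcb hy)]
      refine ⟨?_, ?_⟩
      · rw [Metric.mem_sphere]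
        refine le_antisymm hy ?_
        by_contra hlt
        exact hxU ⟨y, not_le.1 hlt, rfl⟩
      · intro h
        have h' : y = φ p := h
        apply hpZ
        rw [h', φ.left_inv hps] at hxZ
        exact hxZ
    have hsub : (Z' ∩ K) ∩ (Z' \ U) ⊆ φ.source := fun x hx => hKs hx.1.2
    refine ex_of_embed (m := m - 1) (hA.inter hB) (φ := σ ∘ φ)
      (hσc.comp (φ.continuousOn.mono hsub) hmaps) (hσi.comp (φ.injOn.mono hsub) hmaps)
      (by omega) hm
  · refine ex_of_embed (m := m) hA (φ := fun x => (φ x).ofLp) ?_ ?_ (le_refl _) (by omega) k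
      (hk.mono (inter_subset_left.trans hZ'))
    · exact (PiLp.continuous_ofLp 2 _).comp_continuousOn
        (φ.continuousOn.mono fun x hx => hKs hx.2)
    · intro x hx y hy hxy
      apply φ.injOn (hKs hx.2) (hKs hy.2)
      ext i
      exact congrFun hxy i
  · refine hmin _ sdiff_subset hB fun h => ?_
    have : q ∈ Z' \ U := by rw [h]; exact hqZ
    exact this.2 hqU


end Pool.Agent.Helper775.Tight
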