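import Pool.Agent.Helper775.Tight.Core
import Pool.Agent.Helper775.Tight.TopDim
import Pool.Agent.Helper775.Tight.SpTop
import Pool.Agent.Helper775.Tight.Compl
import Pool.Agent.Helper775.Tight.Conn

/-! The theorem for metric spaces, in terms of surjectivity in Alexander-Spanier cohomology. -/

set_option autoImplicit false

namespace Pool.Agent.Helper775.Tight

open Set Topology SoftCx
open scoped InnerProductSpace

theorem sp_eq_sphere (N : ℕ) : Sp N N = Metric.sphere (0 : EuclideanSpace ℝ (Fin N)) 1 := by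
  ext x
  simp only [Sp, mem_ofPred_eq, mem_sphere_zero_iff_norm, and_iff_left_iff_imp]
  intro _ i hi
  exact absurd i.2 (by omega)

/-- degree zero cocycles of a connected space are constant. -/
theorem coc_one_connected {Ω : Type*} [MetricSpace Ω] [ConnectedSpace Ω] (c : Ch Ω)
    (hc : (AS Ω).Coc univ 1 c) :
    (∀ z ∈ (univ : Set Ω), c ∈ (AS Ω).N z 1) ∨ ∀ z ∈ (univ : Set Ω), c - one ∈ (AS Ω).N z 1 := by
  have hloc : IsLocallyConstant (fun x => c [x]) := by
    rw [IsLocallyConstant.iff_eventually_eq]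
    intro z
    obtain ⟨W, hW, hzW, h⟩ := exists_of_mem_Nz (by omega) (hc z (mem_univ z))
    filter_upwards [hW.mem_nhds hzW] with x hx
    have h2 := h [x, z] rfl (by
        intro y hy
        simp only [List.mem_cons, List.not_mem_nil, or_false] at hy
        rcases hy with rfl | rfl
        · exact hx
        · exact hzW)
    rw [AS_D, dd_apply (by simp)] at h2
    simp only [d_cons, d_nil] at h2
    have h3 := add_self2 (c [z])
    linear_combination h2 - h3
  obtain ⟨z₀⟩ := (inferInstance : Nonempty Ω)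
  have hc0 : ∀ x, c [x] = c [z₀] := fun x => hloc.apply_eq_of_isPreconnected
    isPreconnected_univ (mem_univ _) (mem_univ _)
  have hz2 : c [z₀] = 0 ∨ c [z₀] = 1 := by
    generalize c [z₀] = t
    revert t; decide
  rcases hz2 with h0 | h0
  · left
    intro w _
    refine mem_Nz_of Filter.univ_mem fun l hl hx => ?_
    match l, hl with
    | [x], _ => rw [hc0 x, h0]
  · right
    intro w _
    refine mem_Nz_of Filter.univ_mem fun l hl hx => ?_
    match l, hl with
    | [x], _ => rw [Pi.sub_apply, hc0 x, h0]; simp [one]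

section

variable {P : Type*} [MetricSpace P] {D : ℕ}
  [ChartedSpace (EuclideanSpace ℝ (Fin D)) P]

include D in
theorem exists_local_embed (q : P) : ∃ K ∈ 𝓝 q, IsCompact K ∧ ∃ φ : P → (Fin D → ℝ),
    ContinuousOn φ K ∧ InjOn φ K := by
  let φ := chartAt (EuclideanSpace ℝ (Fin D)) q
  have hq : q ∈ φ.source := mem_chart_source _ q
  obtain ⟨r, hr, hrt⟩ := Metric.nhds_basis_closedBall.mem_iff.1
    (φ.open_target.mem_nhds (φ.map_source hq))
  refine ⟨φ.symm '' Metric.closedBall (φ q) r, ?_, ?_, fun x => WithLp.ofLp (φ x), ?_, ?_⟩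
  · have h1 : φ.source ∩ φ ⁻¹' (Metric.ball (φ q) r) ∈ 𝓝 q :=
      (φ.isOpen_inter_preimage Metric.isOpen_ball).mem_nhds ⟨hq, Metric.mem_ball_self hr⟩
    refine Filter.mem_of_superset h1 ?_
    rintro x ⟨hx, hx2⟩
    exact ⟨φ x, Metric.ball_subset_closedBall hx2, φ.left_inv hx⟩
  · exact (isCompact_closedBall _ _).image_of_continuousOn (φ.continuousOn_symm.mono hrt)
  · have h2 : φ.symm '' Metric.closedBall (φ q) r ⊆ φ.source := by
      rintro _ ⟨y, hy, rfl⟩
      exact φ.map_target (hrt hy)
    exact (PiLp.continuous_ofLp 2 _).comp_continuousOn (φ.continuousOn.mono h2)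
  · have h2 : φ.symm '' Metric.closedBall (φ q) r ⊆ φ.source := by
      rintro _ ⟨y, hy, rfl⟩
      exact φ.map_target (hrt hy)
    intro x hx y hy hxy
    exact φ.injOn (h2 hx) (h2 hy) (WithLp.ofLp_injective 2 hxy)

include D in
theorem exists_local_embed_prod (q : P × P) : ∃ K ∈ 𝓝 q, IsCompact K ∧
    ∃ φ : P × P → (Fin (D + D) → ℝ), ContinuousOn φ K ∧ InjOn φ K := by
  obtain ⟨K, hK, hKc, φ, hφ, hi⟩ := exists_local_embed (D := D) q.1
  obtain ⟨K', hK', hKc', φ', hφ', hi'⟩ := exists_local_embed (D := D) q.2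
  refine ⟨K ×ˢ K', prod_mem_nhds hK hK', hKc.prod hKc',
    fun x => Fin.append (φ x.1) (φ' x.2), ?_, ?_⟩
  · rw [continuousOn_pi]
    intro i
    refine Fin.addCases (fun j => ?_) (fun j => ?_) i
    · simp only [Fin.append_left]
      exact (continuous_apply j).comp_continuousOn
        (hφ.comp continuousOn_fst fun x hx => hx.1)
    · simp only [Fin.append_right]
      exact (continuous_apply j).comp_continuousOn
        (hφ'.comp continuousOn_snd fun x hx => hx.2)
  · rintro ⟨x, y⟩ hx ⟨x', y'⟩ hx' h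
    have h1 : φ x = φ x' := by
      funext j
      have := congrFun h (Fin.castAdd D j)
      simp only [Fin.append_left] at this
      exact this
    have h2 : φ' y = φ' y' := by
      funext j
      have := congrFun h (Fin.natAdd D j)
      simp only [Fin.append_right] at this
      exact this
    have e1 : x = x' := hi hx.1 hx'.1 h1
    have e2 : y = y' := hi' hx.2 hx'.2 h2
    rw [e1, e2]

end

section translate

variable {P : Type*} [TopologicalSpace P] [CompactSpace P] [Nonempty P]
  {E : Type*} [NormedAddCommGroup E] [InnerProductSpace ℝ E] [FiniteDimensional ℝ E]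

/-- a substantial map can be translated so that the origin is interior to the convex hull. -/
theorem exists_center {f : P → E} (hf : Continuous f)
    (hs : ∀ (z : E) (t : ℝ), z ≠ 0 → ∃ x, ⟪z, f x⟫_ℝ ≠ t) :
    ∃ c₀ : E, ∀ z : E, z ≠ 0 → ∃ x, 0 < ⟪z, f x - c₀⟫_ℝ := by
  have hspan : affineSpan ℝ (convexHull ℝ (range f)) = ⊤ := by
    rw [affineSpan_convexHull]
    by_contra hne
    obtain ⟨x₀⟩ := (inferInstance : Nonempty P)
    have hne' : (affineSpan ℝ (range f)).direction ≠ ⊤ := by
      intro h
      apply hne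
      rwa [AffineSubspace.direction_eq_top_iff_of_nonempty] at h
      exact ⟨f x₀, subset_affineSpan ℝ _ (mem_range_self x₀)⟩
    obtain ⟨z, hz, hz0⟩ := (Submodule.ne_bot_iff _).1
      (fun h => hne' (Submodule.orthogonal_eq_bot_iff.1 h) :
        ((affineSpan ℝ (range f)).direction)ᗮ ≠ ⊥)
    obtain ⟨x, hx⟩ := hs z ⟪z, f x₀⟫_ℝ hz0
    apply hx
    have h1 : f x - f x₀ ∈ (affineSpan ℝ (range f)).direction :=
      AffineSubspace.vsub_mem_direction (subset_affineSpan ℝ _ (mem_range_self x))
        (subset_affineSpan ℝ _ (mem_range_self x₀))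
    have h2 := (Submodule.mem_orthogonal' _ _).1 hz _ h1
    rw [inner_sub_right] at h2
    linarith
  have hint : (interior (convexHull ℝ (range f))).Nonempty := by
    rw [(convex_convexHull ℝ (range f)).interior_nonempty_iff_affineSpan_eq_top]
    exact hspan
  obtain ⟨c₀, hc₀⟩ := hint
  refine ⟨c₀, fun z hz => ?_⟩
  by_contra hcon
  push Not at hcon
  have hsub : convexHull ℝ (range f) ⊆ {y | ⟪z, y⟫_ℝ ≤ ⟪z, c₀⟫_ℝ} := by
    refine convexHull_min ?_ ?_
    · rintro _ ⟨x, rfl⟩
      have := hcon x
      rw [inner_sub_right] at this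
      change ⟪z, f x⟫_ℝ ≤ ⟪z, c₀⟫_ℝ
      linarith
    · exact convex_halfSpace_le (innerSL ℝ z).isLinear _
  obtain ⟨ε, hε, hball⟩ := Metric.isOpen_iff.1 isOpen_interior c₀ hc₀
  have hz' : 0 < ‖z‖ := norm_pos_iff.2 hz
  have h1 : c₀ + (ε / (2 * ‖z‖)) • z ∈ Metric.ball c₀ ε := by
    rw [Metric.mem_ball, dist_eq_norm, add_sub_cancel_left, norm_smul, Real.norm_eq_abs,
      abs_of_pos (by positivity)]
    have : ε / (2 * ‖z‖) * ‖z‖ = ε / 2 := by field_simp
    rw [this]; linarith
  have h2 := hsub (interior_subset (hball h1))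
  have h3 : ⟪z, c₀ + (ε / (2 * ‖z‖)) • z⟫_ℝ ≤ ⟪z, c₀⟫_ℝ := h2
  rw [inner_add_right, real_inner_smul_right, real_inner_self_eq_norm_sq] at h3
  have : 0 < ε / (2 * ‖z‖) * ‖z‖ ^ 2 := by positivity
  linarith

end translate

/-- The main theorem for metric spaces, with tightness in the form of surjectivity in
Alexander-Spanier cohomology near the top sets. -/
theorem main_metric {P : Type*} [MetricSpace P] [CompactSpace P] {d N : ℕ} (hd : 1 ≤ d)
    [ChartedSpace (EuclideanSpace ℝ (Fin (2 * d))) P] (S : Set P)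
    (eS : S ≃ₜ Metric.sphere (0 : EuclideanSpace ℝ (Fin (d + 1))) 1)
    (eC : (Sᶜ : Set P) ≃ₜ EuclideanSpace ℝ (Fin (2 * d)))
    (f : P → EuclideanSpace ℝ (Fin N)) (hf : Continuous f)
    (hs : ∀ (z : EuclideanSpace ℝ (Fin N)) (t : ℝ), z ≠ 0 → ∃ x, ⟪z, f x⟫_ℝ ≠ t)
    (hsurj : ∀ z : EuclideanSpace ℝ (Fin N), z ≠ 0 → ∀ n, 1 ≤ n → ∀ c,
      (AS P).Coc (top f z) n c → ∃ c', (AS P).Coc univ n c' ∧ (AS P).Cob (top f z) n (c - c')) :
    N ≤ 3 * d + 2 := by
  by_contra hN
  have hN' : 3 * d + 3 ≤ N := by omega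
  -- basic facts on `P`
  have hScomp : IsCompact S := by
    have : CompactSpace S := eS.symm.compactSpace
    exact isCompact_iff_compactSpace.2 inferInstance
  have hSconn : IsConnected S := by
    have h1 : IsConnected (Metric.sphere (0 : EuclideanSpace ℝ (Fin (d + 1))) 1) := by
      refine isConnected_sphere ?_ 0 zero_le_one
      rw [rank_eq_card_basis (EuclideanSpace.basisFun (Fin (d + 1)) ℝ).toBasis]
      simp only [Fintype.card_fin]
      exact_mod_cast (by omega : 1 < d + 1)
    rw [isConnected_iff_connectedSpace] at h1 ⊢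
    have := h1
    exact eS.symm.surjective.connectedSpace eS.symm.continuous
  have hPconn : ConnectedSpace P :=
    connected_of_complement (D := 2 * d) (by omega) S hSconn hScomp.isClosed eC
  obtain ⟨x₀⟩ := (inferInstance : Nonempty P)
  -- translate
  obtain ⟨c₀, hc₀⟩ := exists_center hf hs
  have htop : ∀ z, top (fun x => f x - c₀) z = top f z := by
    intro z
    ext x
    simp only [top, mem_ofPred_eq, inner_sub_right, sub_le_sub_iff_right]
  -- cohomology of `P`
  have hinj : ∀ q, 1 ≤ q → q + 1 ≤ 2 * d → ∀ c, (AS P).Coc univ (q + 1) c →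
      (AS P).Cob S (q + 1) c → (AS P).Cob univ (q + 1) c := fun q hq hq2 c hc hcS =>
    inj_of_complement (by omega) S hScomp.isClosed eC hq hq2 hc hcS
  have hPex : ∀ n, 2 ≤ n → n ≤ 2 * d → n ≠ d + 1 → (AS P).Ex univ n := by
    intro n hn hn2 hnd c hc
    obtain ⟨q, rfl⟩ : ∃ q, n = q + 1 := ⟨n - 1, by omega⟩
    exact hinj q (by omega) hn2 c hc
      (ex_sphere_image hd S hScomp.isClosed eS (q + 1) hn hnd c (hc.mono (subset_univ _)))
  have hrank : ∀ c c', (AS P).Coc univ (d + 1) c → (AS P).Coc univ (d + 1) c' →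
      (AS P).Cob univ (d + 1) c ∨ (AS P).Cob univ (d + 1) c' ∨
        (AS P).Cob univ (d + 1) (c - c') := by
    intro c c' hc hc'
    rcases rank_sphere_image hd S hScomp.isClosed eS c c' (hc.mono (subset_univ _))
      (hc'.mono (subset_univ _)) with h | h | h
    · exact Or.inl (hinj d hd (by omega) c hc h)
    · exact Or.inr (Or.inl (hinj d hd (by omega) c' hc' h))
    · exact Or.inr (Or.inr (hinj d hd (by omega) _ (hc.sub hc') h))
  obtain ⟨a, ha, ha2⟩ : ∃ a, (AS P).Coc univ (d + 1) a ∧ ∀ c, (AS P).Coc univ (d + 1) c →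
      (AS P).Cob univ (d + 1) c ∨ (AS P).Cob univ (d + 1) (c - a) := by
    by_cases h : ∃ a, (AS P).Coc univ (d + 1) a ∧ ¬ (AS P).Cob univ (d + 1) a
    · obtain ⟨a, ha, hna⟩ := h
      refine ⟨a, ha, fun c hc => ?_⟩
      rcases hrank c a hc ha with h | h | h
      · exact Or.inl h
      · exact absurd h hna
      · exact Or.inr h
    · push Not at h
      exact ⟨0, coc_zero _ _, fun c hc => Or.inl (h c hc)⟩
  -- dimension
  have hP : ∀ Z : Set P, IsCompact Z → ∀ n, 2 * d + 2 ≤ n → (AS P).Ex Z n :=
    fun Z hZ n hn => ex_of_locally_embed (m := 2 * d) exists_local_embed hZ hn (by omega)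
  have hPP : ∀ Z : Set (P × P), IsCompact Z → ∀ n, 4 * d + 2 ≤ n → (AS (P × P)).Ex Z n :=
    fun Z hZ n hn => ex_of_locally_embed (m := 2 * d + 2 * d) exists_local_embed_prod hZ
      (by omega) (by omega)
  -- the top sets
  have hfib : ∀ z : EuclideanSpace ℝ (Fin N), ‖z‖ = 1 →
      (AS P).Acy one (top f z) ∨ (AS P).AType one d a (top f z) := by
    intro z hz
    have hz0 : z ≠ 0 := by rintro rfl; simp at hz
    have hZc : IsCompact (top f z) := isCompact_top hf z
    have hZne : (top f z).Nonempty := by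
      obtain ⟨x, -, hx⟩ := isCompact_univ.exists_isMaxOn (univ_nonempty (α := P))
        ((continuous_const.inner hf : Continuous fun x => ⟪z, f x⟫_ℝ).continuousOn)
      exact ⟨x, fun y => hx (mem_univ y)⟩
    have hZu : top f z ≠ univ := by
      intro h
      obtain ⟨x, hx⟩ := hs z ⟪z, f x₀⟫_ℝ hz0
      apply hx
      have h1 : x ∈ top f z := h ▸ mem_univ x
      have h2 : x₀ ∈ top f z := h ▸ mem_univ x₀
      exact le_antisymm (h2 x) (h1 x₀)
    have h1 : ∀ k, (AS P).Coc (top f z) 1 k →
        (∀ w ∈ top f z, k ∈ (AS P).N w 1) ∨ ∀ w ∈ top f z, k - one ∈ (AS P).N w 1 := by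
      intro k hk
      obtain ⟨c', hc', hcob⟩ := hsurj z hz0 1 le_rfl k hk
      have h0 := cob_one.1 hcob
      rcases coc_one_connected c' hc' with h | h
      · left
        intro w hw
        simpa using add_mem (h0 w hw) (h w (mem_univ w))
      · right
        intro w hw
        have := add_mem (h0 w hw) (h w (mem_univ w))
        simpa using this
    have hex : ∀ n, 2 ≤ n → n ≠ d + 1 → (AS P).Ex (top f z) n := by
      intro n hn hnd
      rcases Nat.lt_or_ge (2 * d) n with h | h
      · rcases Nat.lt_or_ge (2 * d + 1) n with h' | h'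
        · exact hP _ hZc n (by omega)
        · obtain rfl : n = 2 * d + 1 := by omega
          exact ex_top (by omega) hZc.isClosed hZu
      · intro k hk
        obtain ⟨c', hc', hcob⟩ := hsurj z hz0 n (by omega) k hk
        have := hcob.add ((hPex n hn h hnd c' hc').mono (subset_univ _))
        simpa using this
    have hd1 : ∀ k, (AS P).Coc (top f z) (d + 1) k →
        (AS P).Cob (top f z) (d + 1) k ∨ (AS P).Cob (top f z) (d + 1) (k - a) := by
      intro k hk
      obtain ⟨c', hc', hcob⟩ := hsurj z hz0 (d + 1) (by omega) k hk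
      rcases ha2 c' hc' with h | h
      · left
        have := hcob.add (h.mono (subset_univ _))
        simpa using this
      · right
        have := hcob.add (h.mono (subset_univ _))
        simpa using this
    by_cases hca : (AS P).Cob (top f z) (d + 1) a
    · left
      refine ⟨not_one_mem hZne, h1, fun n hn => ?_⟩
      by_cases hnd : n = d + 1
      · subst hnd
        intro k hk
        rcases hd1 k hk with h | h
        · exact h
        · simpa using h.add hca
      · exact hex n hn hnd
    · right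
      exact ⟨not_one_mem hZne, h1, hex, hd1, hca⟩
  -- conclusion
  refine core (f := fun x => f x - c₀) (hf.sub continuous_const) hd hN' hc₀ a ha ?_ hP hPP ?_
  · intro z hz
    rw [htop]
    exact hfib z hz
  · rw [← sp_eq_sphere]
    exact sp_top (by omega) le_rfl

end Pool.Agent.Helper775.Tight
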