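import Pool.Agent.Helper775.Tight.Homot

/-! The core argument: the incidence space of top sets and its fibre square. -/

set_option autoImplicit false

namespace Pool.Agent.Helper775.Tight

open Set Topology SoftCx
open scoped InnerProductSpace

section general

variable {X Y : Type*} [MetricSpace X] [MetricSpace Y] {p : X → Y} (hp : Continuous p)
  {G : Set X} (hG : IsCompact G)

include hp hG

/-- Vietoris-Begle. -/
theorem vietoris_begle (hfib : ∀ w ∈ p '' G, (AS X).Acy one (G ∩ p ⁻¹' {w})) {n : ℕ}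
    (h : (AS Y).Ex (p '' G) n) : (AS X).Ex G n := by
  have h1 : (cone (phi p hp G hG)).Ex (p '' G) (n + 1) := by
    refine ex_of_pointwise (n + 1) (hG.image hp) fun w hw m _ => ?_
    refine cone_ex_of_acy (phi p hp G hG) one w (one_D_mem w) (acy_singleton w) ?_ m
    rw [push_acy]
    exact hfib w hw
  have h2 := ex_of_cone_ex _ h1 h
  rw [push_ex] at h2
  have h3 : G ∩ p ⁻¹' (p '' G) = G := by
    ext x
    exact ⟨fun hx => hx.1, fun hx => ⟨hx, mem_image_of_mem p hx⟩⟩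
  rwa [h3] at h2

theorem coneL_ex {A : Set Y} {d : ℕ} (hd : 1 ≤ d) {a : Ch X} (ha : (AS X).Coc G (d + 1) a)
    (hA : IsCompact A) (hfib : ∀ w ∈ A, (AS X).AType one d a (G ∩ p ⁻¹' {w})) (n : ℕ) :
    (cone ((phi p hp G hG).sum (lam p hp G hG d a ha))).Ex A n := by
  refine ex_of_pointwise n hA fun w hw m _ => ?_
  refine coneL_ex_of_atype hd _ _ one a w (one_D_mem w) (lam_one_mem p hp G hG d a ha w)
    (acy_singleton w) ?_ m
  rw [push_atype]
  exact hfib w hw

theorem lh {B : Set Y} {d : ℕ} (hd : 1 ≤ d) {a : Ch X} (ha : (AS X).Coc G (d + 1) a)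
    (hB : IsCompact B) (hfib : ∀ w ∈ B, (AS X).AType one d a (G ∩ p ⁻¹' {w})) {m : ℕ}
    {b : Ch Y} (hb : (AS Y).Coc B m b) (hnb : ¬ (AS Y).Cob B m b) :
    (AS X).Coc (G ∩ p ⁻¹' B) (m + d) (cup d a (pb p b)) ∧
      ¬ (AS X).Cob (G ∩ p ⁻¹' B) (m + d) (cup d a (pb p b)) := by
  have h1 := leray_hirsch _ _ (coneL_ex hp hG hd ha hB hfib (m + d)) hb hnb
  rw [push_coc, push_cob] at h1
  exact h1

theorem g1 {A B : Set Y} {d : ℕ} (hd : 1 ≤ d) {a : Ch X} (ha : (AS X).Coc G (d + 1) a)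
    (hA : IsCompact A) (hB : IsCompact B) (hBA : B ⊆ A)
    (hfibA : ∀ w ∈ A \ B, (AS X).Acy one (G ∩ p ⁻¹' {w}))
    (hfib : ∀ w ∈ B, (AS X).AType one d a (G ∩ p ⁻¹' {w})) {m : ℕ}
    {e : Ch Y} (he : (AS Y).Coc A (m + d + 1) e) (hne : ¬ (AS Y).Cob A (m + d + 1) e)
    (hX : (AS X).Ex (G ∩ p ⁻¹' A) (m + d + 1)) :
    ∃ b, (AS Y).Coc B m b ∧ ¬ (AS Y).Cob B m b := by
  refine gysin_one (phi p hp G hG) (lam p hp G hG d a ha) hA hB hBA ?_
    (coneL_ex hp hG hd ha hB hfib _) he hne ?_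
  · intro w hw n
    refine cone_ex_of_acy (phi p hp G hG) one w (one_D_mem w) (acy_singleton w) ?_ n
    rw [push_acy]
    exact hfibA w hw
  · rw [push_ex]; exact hX

theorem g2 {A B : Set Y} {d : ℕ} (hd : 1 ≤ d) {a : Ch X} (ha : (AS X).Coc G (d + 1) a)
    (hA : IsCompact A) (hB : IsCompact B) (hBA : B ⊆ A)
    (hfibA : ∀ w ∈ A \ B, (AS X).Acy one (G ∩ p ⁻¹' {w}))
    (hfib : ∀ w ∈ B, (AS X).AType one d a (G ∩ p ⁻¹' {w})) {m : ℕ}
    {b : Ch Y} (hb : (AS Y).Coc B m b) (hnb : ¬ (AS Y).Cob B m b)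
    (hY : (AS Y).Ex A (m + d + 1)) : ¬ (AS X).Ex (G ∩ p ⁻¹' A) (m + d) := by
  have := gysin_two (phi p hp G hG) (lam p hp G hG d a ha) hA hB hBA ?_
    (coneL_ex hp hG hd ha hB hfib _) hb hnb hY
  · rwa [push_ex] at this
  · intro w hw n
    refine cone_ex_of_acy (phi p hp G hG) one w (one_D_mem w) (acy_singleton w) ?_ n
    rw [push_acy]
    exact hfibA w hw

end general

section cone

variable {E : Type*} [NormedAddCommGroup E] [InnerProductSpace ℝ E]

/-- spherically convex compact sets in an open half space are acyclic. -/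
theorem acy_spherical {C : Set E} (hC : IsCompact C) (hne : C.Nonempty) (hC1 : ∀ z ∈ C, ‖z‖ = 1)
    (w : E) (hw : ∀ z ∈ C, 0 < ⟪z, w⟫_ℝ)
    (hconv : ∀ z ∈ C, ∀ z' ∈ C, ∀ t ∈ Icc (0 : ℝ) 1,
      ‖(1 - t) • z + t • z'‖⁻¹ • ((1 - t) • z + t • z') ∈ C) : (AS E).Acy one C := by
  obtain ⟨z₀, hz₀⟩ := hne
  have hpos : ∀ t ∈ Icc (0 : ℝ) 1, ∀ z ∈ C, (1 - t) • z + t • z₀ ≠ 0 := by
    intro t ht z hz h0
    have h1 : 0 < ⟪(1 - t) • z + t • z₀, w⟫_ℝ := by
      rw [inner_add_left, real_inner_smul_left, real_inner_smul_left]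
      have h2 := hw z hz
      have h3 := hw z₀ hz₀
      rcases eq_or_lt_of_le ht.1 with h | h
      · rw [← h]; simpa using h2
      · have := mul_pos h h3
        have := mul_nonneg (sub_nonneg.2 ht.2) h2.le
        linarith
    rw [h0, inner_zero_left] at h1
    exact lt_irrefl _ h1
  refine acy_of_contract hC
    (fun t z => ‖(1 - t) • z + t • z₀‖⁻¹ • ((1 - t) • z + t • z₀)) z₀ ?_ ?_ ?_ ?_ hz₀
  · intro t ht z hz
    have hc : Continuous fun p : ℝ × E => (1 - p.1) • p.2 + p.1 • z₀ := by fun_prop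
    exact ((hc.norm.continuousAt (x := (t, z))).inv₀ (by
      simpa using hpos t ht z hz)).smul hc.continuousAt
  · intro t ht z hz
    exact hconv z hz z₀ hz₀ t ht
  · intro z hz
    simp [hC1 z hz]
  · intro z hz
    simp [hC1 z₀ hz₀]

end cone

section core

variable {P : Type*} [MetricSpace P] [CompactSpace P] {E : Type*} [NormedAddCommGroup E]
  [InnerProductSpace ℝ E] [FiniteDimensional ℝ E]

/-- the top set of `f` in direction `z`. -/
def top (f : P → E) (z : E) : Set P := {x | ∀ y, ⟪z, f y⟫_ℝ ≤ ⟪z, f x⟫_ℝ}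

/-- the incidence space. -/
def GG (f : P → E) : Set (P × E) := {q | ‖q.2‖ = 1 ∧ q.1 ∈ top f q.2}

/-- the fibre square. -/
def GG2 (f : P → E) : Set (P × (P × E)) := {q | q.1 ∈ top f q.2.2 ∧ q.2 ∈ GG f}

variable {f : P → E} (hf : Continuous f)

include hf

theorem isCompact_GG : IsCompact (GG f) := by
  have h1 : IsClosed (GG f) := by
    refine (isClosed_eq (continuous_snd.norm) continuous_const).inter ?_
    have : {q : P × E | q.1 ∈ top f q.2} = ⋂ y, {q : P × E | ⟪q.2, f y⟫_ℝ ≤ ⟪q.2, f q.1⟫_ℝ} := by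
      ext q; simp [top]
    change IsClosed {q : P × E | q.1 ∈ top f q.2}
    rw [this]
    refine isClosed_iInter fun y => isClosed_le ?_ ?_
    · exact continuous_snd.inner continuous_const
    · exact continuous_snd.inner (hf.comp continuous_fst)
  refine (isCompact_univ.prod (isCompact_sphere (0 : E) 1)).of_isClosed_subset h1 ?_
  intro q hq
  exact ⟨mem_univ _, by simpa using hq.1⟩

theorem isCompact_GG2 : IsCompact (GG2 f) := by
  have h1 : IsClosed (GG2 f) := by
    refine IsClosed.inter ?_ ((isCompact_GG hf).isClosed.preimage continuous_snd)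
    have : {q : P × (P × E) | q.1 ∈ top f q.2.2} =
        ⋂ y, {q : P × (P × E) | ⟪q.2.2, f y⟫_ℝ ≤ ⟪q.2.2, f q.1⟫_ℝ} := by
      ext q; simp [top]
    change IsClosed {q : P × (P × E) | q.1 ∈ top f q.2.2}
    rw [this]
    refine isClosed_iInter fun y => isClosed_le ?_ ?_
    · exact (continuous_snd.comp continuous_snd).inner continuous_const
    · exact (continuous_snd.comp continuous_snd).inner (hf.comp continuous_fst)
  refine (isCompact_univ.prod (isCompact_GG hf)).of_isClosed_subset h1 ?_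
  intro q hq
  exact ⟨mem_univ _, hq.2⟩

theorem isCompact_top (z : E) : IsCompact (top f z) := by
  have : top f z = ⋂ y, {x | ⟪z, f y⟫_ℝ ≤ ⟪z, f x⟫_ℝ} := by
    ext q; simp [top]
  rw [this]
  exact (isClosed_iInter fun y => isClosed_le continuous_const
    (continuous_const.inner hf)).isCompact

omit hf [MetricSpace P] [CompactSpace P] [FiniteDimensional ℝ E] in
theorem top_conv {x : P} {z z' : E} (h : x ∈ top f z) (h' : x ∈ top f z') {s t : ℝ} (hs : 0 ≤ s)
    (ht : 0 ≤ t) : x ∈ top f (s • z + t • z') := by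
  intro y
  rw [inner_add_left, inner_add_left, real_inner_smul_left, real_inner_smul_left,
    real_inner_smul_left, real_inner_smul_left]
  exact add_le_add (mul_le_mul_of_nonneg_left (h y) hs) (mul_le_mul_of_nonneg_left (h' y) ht)

theorem acy_normal (h0 : ∀ z : E, z ≠ 0 → ∃ x, 0 < ⟪z, f x⟫_ℝ) {x y : P}
    (hne : ∃ z : E, ‖z‖ = 1 ∧ x ∈ top f z ∧ y ∈ top f z) :
    (AS E).Acy one {z : E | ‖z‖ = 1 ∧ x ∈ top f z ∧ y ∈ top f z} := by
  have hcl : IsCompact {z : E | ‖z‖ = 1 ∧ x ∈ top f z ∧ y ∈ top f z} := by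
    have h1 : IsClosed {z : E | ‖z‖ = 1 ∧ x ∈ top f z ∧ y ∈ top f z} := by
      refine (isClosed_eq continuous_norm continuous_const).inter (IsClosed.inter ?_ ?_)
      · have : {z : E | x ∈ top f z} = ⋂ y, {z : E | ⟪z, f y⟫_ℝ ≤ ⟪z, f x⟫_ℝ} := by
          ext q; simp [top]
        change IsClosed {z : E | x ∈ top f z}
        rw [this]
        exact isClosed_iInter fun y => isClosed_le (continuous_id.inner continuous_const)
          (continuous_id.inner continuous_const)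
      · have : {z : E | y ∈ top f z} = ⋂ x, {z : E | ⟪z, f x⟫_ℝ ≤ ⟪z, f y⟫_ℝ} := by
          ext q; simp [top]
        change IsClosed {z : E | y ∈ top f z}
        rw [this]
        exact isClosed_iInter fun y => isClosed_le (continuous_id.inner continuous_const)
          (continuous_id.inner continuous_const)
    refine (isCompact_sphere (0 : E) 1).of_isClosed_subset h1 ?_
    intro z hz
    simpa using hz.1
  have hpos : ∀ z : E, ‖z‖ = 1 → x ∈ top f z → 0 < ⟪z, f x⟫_ℝ := by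
    intro z hz hx
    obtain ⟨y, hy⟩ := h0 z (by rintro rfl; simp at hz)
    exact hy.trans_le (hx y)
  refine acy_spherical hcl hne (fun z hz => hz.1) (f x) (fun z hz => hpos z hz.1 hz.2.1) ?_
  intro z hz z' hz' t ht
  have hne0 : (1 - t) • z + t • z' ≠ 0 := by
    intro h
    have h1 : 0 < ⟪(1 - t) • z + t • z', f x⟫_ℝ := by
      rw [inner_add_left, real_inner_smul_left, real_inner_smul_left]
      have h2 := hpos z hz.1 hz.2.1
      have h3 := hpos z' hz'.1 hz'.2.1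
      rcases eq_or_lt_of_le ht.1 with h | h
      · rw [← h]; simpa using h2
      · have := mul_pos h h3
        have := mul_nonneg (sub_nonneg.2 ht.2) h2.le
        linarith
    rw [h, inner_zero_left] at h1
    exact lt_irrefl _ h1
  refine ⟨norm_smul_inv_norm hne0, ?_, ?_⟩
  · rw [smul_add, smul_smul, smul_smul]
    exact top_conv hz.2.1 hz'.2.1 (mul_nonneg (by positivity) (sub_nonneg.2 ht.2))
      (mul_nonneg (by positivity) ht.1)
  · rw [smul_add, smul_smul, smul_smul]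
    exact top_conv hz.2.2 hz'.2.2 (mul_nonneg (by positivity) (sub_nonneg.2 ht.2))
      (mul_nonneg (by positivity) ht.1)

/-- The core: tight maps have bounded codimension. -/
theorem core {d N : ℕ} (hd : 1 ≤ d) (hN : 3 * d + 3 ≤ N)
    (h0 : ∀ z : E, z ≠ 0 → ∃ x, 0 < ⟪z, f x⟫_ℝ) (a : Ch P) (ha : (AS P).Coc univ (d + 1) a)
    (hfib : ∀ z : E, ‖z‖ = 1 → (AS P).Acy one (top f z) ∨ (AS P).AType one d a (top f z))
    (hP : ∀ Z : Set P, IsCompact Z → ∀ n, 2 * d + 2 ≤ n → (AS P).Ex Z n)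
    (hPP : ∀ Z : Set (P × P), IsCompact Z → ∀ n, 4 * d + 2 ≤ n → (AS (P × P)).Ex Z n)
    (hS : ∃ e, (AS E).Coc (Metric.sphere (0 : E) 1) N e ∧
      ¬ (AS E).Cob (Metric.sphere (0 : E) 1) N e) : False := by
  set S : Set E := Metric.sphere (0 : E) 1 with hSdef
  have hSc : IsCompact S := isCompact_sphere _ _
  have hG := isCompact_GG hf
  have hG2 := isCompact_GG2 hf
  -- fibres of `GG → E`
  have fib1 : ∀ z : E, ‖z‖ = 1 → ∀ q ∈ GG f ∩ Prod.snd ⁻¹' {z}, q.1 ∈ top f z := by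
    rintro z hz ⟨x, z'⟩ ⟨h1, h2⟩
    have : z' = z := h2
    subst this
    exact h1.2
  have fib1' : ∀ z : E, ‖z‖ = 1 → ∀ x ∈ top f z, ((x, z) : P × E) ∈ GG f ∩ Prod.snd ⁻¹' {z} :=
    fun z hz x hx => ⟨⟨hz, hx⟩, rfl⟩
  have fibAcy : ∀ z : E, ‖z‖ = 1 → (AS P).Acy one (top f z) →
      (AS (P × E)).Acy one (GG f ∩ Prod.snd ⁻¹' {z}) := by
    intro z hz h
    have hne : (top f z).Nonempty := by
      by_contra hne
      rw [not_nonempty_iff_eq_empty] at hne
      exact h.1 (by simp [hne])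
    refine acy_retract (g := Prod.fst) (g' := fun x => (x, z)) (fun x _ => continuous_fst.continuousAt)
      (fun x _ => (Continuous.prodMk_left z).continuousAt) (fun q hq => fib1 z hz q hq)
      (fun x hx => fib1' z hz x hx) ?_ ?_ h
    · rintro ⟨x, z'⟩ ⟨h1, h2⟩
      have : z' = z := h2
      rw [this]
    · obtain ⟨x, hx⟩ := hne
      exact ⟨_, fib1' z hz x hx⟩
  have fibA : ∀ z : E, ‖z‖ = 1 → (AS P).AType one d a (top f z) →
      (AS (P × E)).AType one d (pb Prod.fst a) (GG f ∩ Prod.snd ⁻¹' {z}) := by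
    intro z hz h
    have hne : (top f z).Nonempty := by
      by_contra hne
      rw [not_nonempty_iff_eq_empty] at hne
      exact h.1 (by simp [hne])
    refine atype_transfer (g := Prod.fst) (g' := fun x => (x, z))
      (fun x _ => continuous_fst.continuousAt)
      (fun x _ => (Continuous.prodMk_left z).continuousAt) (fun q hq => fib1 z hz q hq)
      (fun x hx => fib1' z hz x hx) ?_ (fun _ _ => rfl) ?_ (ha.mono (subset_univ _)) h
    · rintro ⟨x, z'⟩ ⟨h1, h2⟩
      have : z' = z := h2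
      rw [this]
    · obtain ⟨x, hx⟩ := hne
      exact ⟨_, fib1' z hz x hx⟩
  have ha1 : (AS (P × E)).Coc (GG f) (d + 1) (pb Prod.fst a) :=
    coc_pb (fun _ _ => continuous_fst.continuousAt) (mapsTo_univ _ _) ha
  -- the set `B`
  set B : Set E := S ∩ {z | ¬ (PF Prod.snd continuous_snd (GG f) hG).Cob {z} (d + 1)
    (pb Prod.fst a)} with hBdef
  have hBc : IsCompact B := by
    refine hSc.inter_right (t := {z | ¬ (PF Prod.snd continuous_snd (GG f) hG).Cob {z} (d + 1)
      (pb Prod.fst a)}) ?_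
    rw [← isOpen_compl_iff]
    rw [isOpen_iff_forall_mem_open]
    intro z hz
    have hz' : (PF Prod.snd continuous_snd (GG f) hG).Cob {z} (d + 1) (pb Prod.fst a) := by
      by_contra h
      exact hz h
    obtain ⟨U, hU, hzU, hc⟩ := hz'.isOpen
    exact ⟨U, fun w hw h => h (hc.mono (singleton_subset_iff.2 hw)), hU, hzU rfl⟩
  have hBS : B ⊆ S := inter_subset_left
  have hBtype : ∀ z ∈ B, (AS P).AType one d a (top f z) := by
    rintro z ⟨hz, hzB⟩
    have hz1 : ‖z‖ = 1 := by simpa [hSdef] using hz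
    rcases hfib z hz1 with h | h
    · exfalso
      apply hzB
      rw [push_cob]
      have h1 := (fibAcy z hz1 h).2.2 (d + 1) (by omega)
      exact h1 _ (ha1.mono inter_subset_left)
    · exact h
  have hBtype' : ∀ z ∈ S \ B, (AS P).Acy one (top f z) := by
    rintro z ⟨hz, hzB⟩
    have hz1 : ‖z‖ = 1 := by simpa [hSdef] using hz
    rcases hfib z hz1 with h | h
    · exact h
    · exfalso
      apply hzB
      refine ⟨hz, ?_⟩
      rw [mem_setOf_eq, push_cob]
      exact (fibA z hz1 h).2.2.2.2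
  -- step 1 + 2: `GG` has no cohomology in index `≥ 2 d + 2`
  have hGex : ∀ n, 2 * d + 2 ≤ n → (AS (P × E)).Ex (GG f) n := by
    intro n hn
    refine vietoris_begle (p := Prod.fst) continuous_fst hG ?_
      (hP _ (hG.image continuous_fst) n hn)
    rintro x ⟨⟨x', z⟩, hq, rfl⟩
    have h1 := acy_normal hf h0 (x := x') (y := x') ⟨z, hq.1, hq.2, hq.2⟩
    refine acy_retract (g := Prod.snd) (g' := fun z => (x', z))
      (fun x _ => continuous_snd.continuousAt)
      (fun x _ => (Continuous.prodMk_right x').continuousAt) ?_ ?_ ?_ ⟨_, hq, rfl⟩ h1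
    · rintro ⟨x, z⟩ ⟨h2, h3⟩
      have : x = x' := h3
      subst this
      exact ⟨h2.1, h2.2, h2.2⟩
    · rintro z ⟨h2, h3, h4⟩
      exact ⟨⟨h2, h3⟩, rfl⟩
    · rintro ⟨x, z⟩ ⟨h2, h3⟩
      have : x = x' := h3
      rw [this]
  -- step 3
  have hGS : GG f ∩ Prod.snd ⁻¹' S = GG f := by
    ext q
    refine ⟨fun h => h.1, fun h => ⟨h, ?_⟩⟩
    simpa [hSdef] using h.1
  obtain ⟨e, he, hne⟩ := hS
  obtain ⟨m, hm⟩ : ∃ m, N = m + d + 1 := ⟨N - d - 1, by omega⟩
  obtain ⟨b, hb, hnb⟩ := g1 (p := Prod.snd) continuous_snd hG hd ha1 hSc hBc hBS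
    (fun w hw => fibAcy w (by simpa [hSdef] using hw.1) (hBtype' w hw))
    (fun w hw => fibA w (by simpa [hSdef] using hBS hw) (hBtype w hw)) (m := m)
    (by rw [← hm]; exact he) (by rw [← hm]; exact hne) (by
      rw [hGS]; exact hGex _ (by omega))
  -- step 4
  obtain ⟨hβ, hnβ⟩ := lh (p := Prod.snd) continuous_snd hG hd ha1 hBc
    (fun w hw => fibA w (by simpa [hSdef] using hBS hw) (hBtype w hw)) hb hnb
  -- step 5: the fibre square
  have ha2 : (AS (P × (P × E))).Coc (GG2 f) (d + 1) (pb Prod.fst a) :=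
    coc_pb (fun _ _ => continuous_fst.continuousAt) (mapsTo_univ _ _) ha
  have fib2Acy : ∀ w ∈ GG f, (AS P).Acy one (top f w.2) →
      (AS (P × (P × E))).Acy one (GG2 f ∩ Prod.snd ⁻¹' {w}) := by
    intro w hw h
    have hne : (top f w.2).Nonempty := ⟨w.1, hw.2⟩
    refine acy_retract (g := Prod.fst) (g' := fun x => (x, w)) (fun x _ => continuous_fst.continuousAt)
      (fun x _ => (Continuous.prodMk_left w).continuousAt) ?_ ?_ ?_ ?_ h
    · rintro ⟨x, w'⟩ ⟨h1, h2⟩
      have : w' = w := h2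
      subst this
      exact h1.1
    · intro x hx
      exact ⟨⟨hx, hw⟩, rfl⟩
    · rintro ⟨x, w'⟩ ⟨h1, h2⟩
      have : w' = w := h2
      rw [this]
    · obtain ⟨x, hx⟩ := hne
      exact ⟨(x, w), ⟨⟨hx, hw⟩, rfl⟩⟩
  have fib2A : ∀ w ∈ GG f, (AS P).AType one d a (top f w.2) →
      (AS (P × (P × E))).AType one d (pb Prod.fst a) (GG2 f ∩ Prod.snd ⁻¹' {w}) := by
    intro w hw h
    have hne : (top f w.2).Nonempty := ⟨w.1, hw.2⟩
    refine atype_transfer (g := Prod.fst) (g' := fun x => (x, w))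
      (fun x _ => continuous_fst.continuousAt)
      (fun x _ => (Continuous.prodMk_left w).continuousAt) ?_ ?_ ?_ (fun _ _ => rfl) ?_
      (ha.mono (subset_univ _)) h
    · rintro ⟨x, w'⟩ ⟨h1, h2⟩
      have : w' = w := h2
      subst this
      exact h1.1
    · intro x hx
      exact ⟨⟨hx, hw⟩, rfl⟩
    · rintro ⟨x, w'⟩ ⟨h1, h2⟩
      have : w' = w := h2
      rw [this]
    · obtain ⟨x, hx⟩ := hne
      exact ⟨(x, w), ⟨⟨hx, hw⟩, rfl⟩⟩
  have hB2c : IsCompact (GG f ∩ Prod.snd ⁻¹' B) :=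
    hG.inter_right (hBc.isClosed.preimage continuous_snd)
  have hnot := g2 (p := Prod.snd) continuous_snd hG2 hd ha2 hG hB2c inter_subset_left
    (fun w hw => fib2Acy w hw.1 (hBtype' w.2 ⟨by simpa [hSdef] using hw.1.1, fun h =>
      hw.2 ⟨hw.1, h⟩⟩))
    (fun w hw => fib2A w hw.1 (hBtype w.2 hw.2)) hβ hnβ (hGex _ (by omega))
  have hG2G : GG2 f ∩ Prod.snd ⁻¹' (GG f) = GG2 f := by
    ext q
    exact ⟨fun h => h.1, fun h => ⟨h, h.2⟩⟩
  rw [hG2G] at hnot
  apply hnot
  -- step 6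
  have hpc : Continuous fun q : P × (P × E) => (q.1, q.2.1) := by fun_prop
  refine vietoris_begle (p := fun q : P × (P × E) => (q.1, q.2.1)) hpc hG2 ?_
    (hPP _ (hG2.image hpc) _ (by omega))
  rintro w ⟨⟨x, y, z⟩, hq, rfl⟩
  have h1 := acy_normal hf h0 (x := x) (y := y) ⟨z, hq.2.1, hq.1, hq.2.2⟩
  refine acy_retract (g := fun q : P × (P × E) => q.2.2) (g' := fun z => (x, (y, z)))
    (fun q _ => (by fun_prop : Continuous fun q : P × (P × E) => q.2.2).continuousAt)
    (fun z _ => (by fun_prop : Continuous fun z : E => (x, (y, z))).continuousAt) ?_ ?_ ?_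
    ⟨_, hq, rfl⟩ h1
  · rintro ⟨x', y', z'⟩ ⟨h2, h3⟩
    have h3' : (x', y') = (x, y) := h3
    obtain ⟨rfl, rfl⟩ := Prod.mk.inj h3'
    exact ⟨h2.2.1, h2.1, h2.2.2⟩
  · rintro z ⟨h2, h3, h4⟩
    exact ⟨⟨h3, h2, h4⟩, rfl⟩
  · rintro ⟨x', y', z'⟩ ⟨h2, h3⟩
    have h3' : (x', y') = (x, y) := h3
    obtain ⟨rfl, rfl⟩ := Prod.mk.inj h3'
    rfl

end core

end Pool.Agent.Helper775.Tight
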