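import Pool.Agent.Helper775.Tight.Mors

/-! Topological tools: continuous maps, homotopies, transfer between spaces. -/

set_option autoImplicit false

namespace Pool.Agent.Helper775.Tight

open Set Topology SoftCx

variable {Ω Ω' : Type*} [MetricSpace Ω] [MetricSpace Ω']

theorem not_one_mem {Z : Set Ω} (h : Z.Nonempty) : ¬ ∀ z ∈ Z, one ∈ (AS Ω).N z 1 := by
  obtain ⟨z, hz⟩ := h
  intro hn
  obtain ⟨W, hW, hzW, h⟩ := exists_of_mem_Nz one_ne_zero (hn z hz)
  have := h [z] rfl (by simpa using hzW)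
  exact absurd this (by simp [one])

theorem coc_pb {F : Set Ω} {g : Ω → Ω'} (hg : ∀ x ∈ F, ContinuousAt g x) {F' : Set Ω'}
    (hF : MapsTo g F F') {n : ℕ} {c : Ch Ω'} (hc : (AS Ω').Coc F' n c) :
    (AS Ω).Coc F n (pb g c) := by
  intro z hz
  rw [AS_D, dd_pb]
  exact pb_mem_Nz (hg z hz) (hc _ (hF hz))

theorem cob_pb {F : Set Ω} {g : Ω → Ω'} (hg : ∀ x ∈ F, ContinuousAt g x) {F' : Set Ω'}
    (hF : MapsTo g F F') {n : ℕ} {c : Ch Ω'} (hc : (AS Ω').Cob F' n c) :
    (AS Ω).Cob F n (pb g c) := by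
  obtain ⟨b, hb⟩ := hc
  refine ⟨pb g b, fun z hz => ?_⟩
  rw [AS_D, dd_pb]
  exact pb_mem_Nz (hg z hz) (hb _ (hF hz))

/-- two maps which agree on `F` induce the same map in cohomology. -/
theorem cob_pb_sub {F : Set Ω} {g₁ g₂ : Ω → Ω'} (h₁ : ∀ x ∈ F, ContinuousAt g₁ x)
    (h₂ : ∀ x ∈ F, ContinuousAt g₂ x) (he : ∀ x ∈ F, g₁ x = g₂ x) {n : ℕ} {c : Ch Ω'}
    {F' : Set Ω'} (hF : MapsTo g₁ F F') (hc : (AS Ω').Coc F' n c) :
    (AS Ω).Cob F n (pb g₁ c - pb g₂ c) := by
  rcases Nat.eq_zero_or_pos n with rfl | hn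
  · exact cob_index_zero _ _
  refine ⟨pr g₁ g₂ c, fun z hz => ?_⟩
  obtain ⟨W, hW, hzW, h⟩ := exists_of_mem_Nz (by omega) (hc _ (hF hz))
  have n1 : g₁ ⁻¹' W ∈ 𝓝 z := (h₁ z hz).preimage_mem_nhds (hW.mem_nhds hzW)
  have n2 : g₂ ⁻¹' W ∈ 𝓝 z := (h₂ z hz).preimage_mem_nhds (by
    rw [← he z hz]; exact hW.mem_nhds hzW)
  refine mem_Nz_of (Filter.inter_mem n1 n2) fun l hl hx => ?_
  have h3 := prism' g₁ g₂ c l (by omega)
  rw [pr_eq_zero g₁ g₂ W n (dd c) (fun l' hl' hx' => h l' hl' hx') l hl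
    (fun x hx' => hx x hx')] at h3
  rw [Pi.sub_apply, Pi.sub_apply, AS_D]
  have h4 := add_self2 (pb g₂ c l)
  have h5 := add_self2 (dd (pr g₁ g₂ c) l)
  linear_combination -h3 - h4

theorem acy_singleton (z : Ω) : (AS Ω).Acy one {z} := by
  refine ⟨not_one_mem (singleton_nonempty z), ?_, ?_⟩
  · intro c hc
    obtain ⟨W, hW, hzW, h⟩ := exists_of_mem_Nz (by omega) (hc z rfl)
    have key : ∀ x ∈ W, c [x] = c [z] := by
      intro x hx
      have h2 := h [x, z] rfl (by
        intro y hy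
        simp only [List.mem_cons, List.not_mem_nil, or_false] at hy
        rcases hy with rfl | rfl
        · exact hx
        · exact hzW)
      rw [AS_D, dd_apply (by simp)] at h2
      simp only [d_cons, d_nil] at h2
      have h3 := add_self2 (c [z])
      have h5 := add_self2 (c [x])
      have h6 : c [z] + c [x] = 0 := by
        linear_combination h2 
      linear_combination h6 - h3
    have hz2 : c [z] = 0 ∨ c [z] = 1 := by
      generalize c [z] = t
      revert t; decide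
    rcases hz2 with h0 | h0
    · left
      intro w hw
      rw [mem_singleton_iff.1 hw]
      refine mem_Nz_of (hW.mem_nhds hzW) fun l hl hx => ?_
      match l, hl with
      | [x], _ => rw [key x (hx x (by simp)), h0]
    · right
      intro w hw
      rw [mem_singleton_iff.1 hw]
      refine mem_Nz_of (hW.mem_nhds hzW) fun l hl hx => ?_
      match l, hl with
      | [x], _ => rw [Pi.sub_apply, key x (hx x (by simp)), h0]; simp [one]
  · intro n hn c hc
    refine ⟨fun l => c (z :: l), fun w hw => ?_⟩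
    rw [mem_singleton_iff.1 hw]
    obtain ⟨W, hW, hzW, h⟩ := exists_of_mem_Nz (by omega) (hc z rfl)
    refine mem_Nz_of (hW.mem_nhds hzW) fun l hl hx => ?_
    have h2 := h (z :: l) (by simp [hl]) (by
      intro y hy
      rcases List.mem_cons.1 hy with rfl | hy
      · exact hzW
      · exact hx y hy)
    rw [AS_D, dd_apply (by simp; omega), d_cons] at h2
    rw [Pi.sub_apply, AS_D, dd_apply (by omega)]
    have h3 := add_self2 (d (fun l' => c (z :: l')) l)
    linear_combination h2 - h3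

/-- cohomology of a set which is dominated by another one. -/
theorem cob_retract {F : Set Ω} {F' : Set Ω'} {g : Ω → Ω'} {g' : Ω' → Ω}
    (hg : ∀ x ∈ F, ContinuousAt g x) (hg' : ∀ y ∈ F', ContinuousAt g' y) (hF : MapsTo g F F')
    (hF' : MapsTo g' F' F) (hgg : ∀ x ∈ F, g' (g x) = x) {n : ℕ} {c : Ch Ω}
    (hc : (AS Ω).Coc F n c) : (AS Ω).Cob F n (c - pb g (pb g' c)) := by
  have := cob_pb_sub (F := F) (g₁ := id) (g₂ := g' ∘ g) (fun x _ => continuousAt_id)
    (fun x hx => (hg' _ (hF hx)).comp (hg x hx)) (fun x hx => (hgg x hx).symm) (mapsTo_id F) hc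
  have e1 : pb (id : Ω → Ω) c = c := by funext l; simp [pb]
  have e2 : pb (g' ∘ g) c = pb g (pb g' c) := by funext l; simp [pb, List.map_map]
  rwa [e1, e2] at this

theorem ex_retract {F : Set Ω} {F' : Set Ω'} {g : Ω → Ω'} {g' : Ω' → Ω}
    (hg : ∀ x ∈ F, ContinuousAt g x) (hg' : ∀ y ∈ F', ContinuousAt g' y) (hF : MapsTo g F F')
    (hF' : MapsTo g' F' F) (hgg : ∀ x ∈ F, g' (g x) = x) {n : ℕ}
    (h : (AS Ω').Ex F' n) : (AS Ω).Ex F n := by
  intro c hc
  have h1 := cob_pb hg hF (h _ (coc_pb hg' hF' hc))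
  have h2 := (cob_retract hg hg' hF hF' hgg hc).add h1
  simpa using h2

theorem coc_one_retract {F : Set Ω} {F' : Set Ω'} {g : Ω → Ω'} {g' : Ω' → Ω}
    (hg : ∀ x ∈ F, ContinuousAt g x) (hg' : ∀ y ∈ F', ContinuousAt g' y) (hF : MapsTo g F F')
    (hF' : MapsTo g' F' F) (hgg : ∀ x ∈ F, g' (g x) = x)
    (h : ∀ k, (AS Ω').Coc F' 1 k →
      (∀ z ∈ F', k ∈ (AS Ω').N z 1) ∨ ∀ z ∈ F', k - one ∈ (AS Ω').N z 1)
    (k : Ch Ω) (hk : (AS Ω).Coc F 1 k) :
    (∀ z ∈ F, k ∈ (AS Ω).N z 1) ∨ ∀ z ∈ F, k - one ∈ (AS Ω).N z 1 := by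
  have h0 := cob_one.1 (cob_retract hg hg' hF hF' hgg hk)
  rcases h _ (coc_pb hg' hF' hk) with h1 | h1
  · left
    intro z hz
    have h2 := add_mem (h0 z hz) (pb_mem_Nz (hg z hz) (h1 _ (hF hz)))
    simpa using h2
  · right
    intro z hz
    have h3 : pb g (pb g' k - one) ∈ (AS Ω).N z 1 := pb_mem_Nz (hg z hz) (h1 _ (hF hz))
    have h2 := add_mem (h0 z hz) h3
    have e : k - pb g (pb g' k) + pb g (pb g' k - one) = k - one := by
      funext l; simp [pb, one]
    rwa [e] at h2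

theorem acy_retract {F : Set Ω} {F' : Set Ω'} {g : Ω → Ω'} {g' : Ω' → Ω}
    (hg : ∀ x ∈ F, ContinuousAt g x) (hg' : ∀ y ∈ F', ContinuousAt g' y) (hF : MapsTo g F F')
    (hF' : MapsTo g' F' F) (hgg : ∀ x ∈ F, g' (g x) = x) (hne : F.Nonempty)
    (h : (AS Ω').Acy one F') : (AS Ω).Acy one F :=
  ⟨not_one_mem hne, coc_one_retract hg hg' hF hF' hgg h.2.1,
    fun n hn => ex_retract hg hg' hF hF' hgg (h.2.2 n hn)⟩

theorem atype_transfer {F : Set Ω} {F' : Set Ω'} {g : Ω → Ω'} {g' : Ω' → Ω}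
    (hg : ∀ x ∈ F, ContinuousAt g x) (hg' : ∀ y ∈ F', ContinuousAt g' y) (hF : MapsTo g F F')
    (hF' : MapsTo g' F' F) (hgg : ∀ x ∈ F, g' (g x) = x) (hgg' : ∀ y ∈ F', g (g' y) = y)
    (hne : F.Nonempty) {dd : ℕ} {a : Ch Ω'} (ha : (AS Ω').Coc F' (dd + 1) a)
    (h : (AS Ω').AType one dd a F') : (AS Ω).AType one dd (pb g a) F := by
  refine ⟨not_one_mem hne, coc_one_retract hg hg' hF hF' hgg h.2.1,
    fun n hn hnd => ex_retract hg hg' hF hF' hgg (h.2.2.1 n hn hnd), ?_, ?_⟩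
  · intro k hk
    have h0 := cob_retract hg hg' hF hF' hgg hk
    rcases h.2.2.2.1 _ (coc_pb hg' hF' hk) with h1 | h1
    · left
      have h2 := h0.add (cob_pb hg hF h1)
      simpa using h2
    · right
      have h2 := h0.add (cob_pb hg hF h1)
      have e : k - pb g (pb g' k) + pb g (pb g' k - a) = k - pb g a := by
        funext l; simp [pb]
      rwa [e] at h2
  · intro hcob
    apply h.2.2.2.2
    have h1 := cob_pb hg' hF' hcob
    have h2 := (cob_retract hg' hg hF' hF hgg' ha).add h1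
    simpa using h2

/-- nearest point retraction. -/
theorem exists_retraction {F : Set Ω} (hF : IsCompact F) (hne : F.Nonempty) :
    ∃ ρ : Ω → Ω, (∀ x, ρ x ∈ F) ∧ (∀ x ∈ F, ρ x = x) ∧ ∀ x ∈ F, ContinuousAt ρ x := by
  have h1 : ∀ x, ∃ y ∈ F, Metric.infDist x F = dist x y := fun x =>
    hF.exists_infDist_eq_dist hne x
  choose ρ h2 h3 using h1
  refine ⟨ρ, h2, ?_, ?_⟩
  · intro x hx
    have := h3 x
    rw [Metric.infDist_zero_of_mem hx] at this
    exact (dist_eq_zero.1 this.symm).symm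
  · intro x hx
    have hx2 : ρ x = x := by
      have := h3 x
      rw [Metric.infDist_zero_of_mem hx] at this
      exact (dist_eq_zero.1 this.symm).symm
    rw [Metric.continuousAt_iff]
    intro ε hε
    refine ⟨ε / 2, by positivity, fun {y} hy => ?_⟩
    rw [hx2]
    have h4 : dist y (ρ y) ≤ dist y x := by
      rw [← h3 y]; exact Metric.infDist_le_dist_of_mem hx
    have h5 := dist_triangle (ρ y) y x
    rw [dist_comm (ρ y) y] at h5
    linarith

/-- extension of a homeomorphism of compact sets to maps of the ambient spaces which are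
continuous at the points of the compact sets. -/
theorem exists_ext {F : Set Ω} (hF : IsCompact F) (hne : F.Nonempty) {φ : Ω → Ω'}
    (hφ : ContinuousOn φ F) (hinj : InjOn φ F) :
    ∃ (g : Ω → Ω') (g' : Ω' → Ω), (∀ x ∈ F, ContinuousAt g x) ∧
      (∀ y ∈ φ '' F, ContinuousAt g' y) ∧ (∀ x ∈ F, g x = φ x) ∧ (∀ x ∈ F, g' (φ x) = x) := by
  obtain ⟨ρ, h1, h2, h3⟩ := exists_retraction hF hne
  obtain ⟨ρ', h1', h2', h3'⟩ := exists_retraction (hF.image_of_continuousOn hφ) (hne.image φ)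
  have hinv : ∀ y : φ '' F, ∃ x ∈ F, φ x = y := fun y => y.2
  choose ψ hψ1 hψ2 using hinv
  have hψc : Continuous ψ := by
    have : CompactSpace F := isCompact_iff_compactSpace.1 hF
    let f : F → φ '' F := fun x => ⟨φ x, mem_image_of_mem φ x.2⟩
    have hf : Continuous f := by
      refine Continuous.subtype_mk ?_ _
      exact continuousOn_iff_continuous_domRestrict.1 hφ
    let e : F ≃ φ '' F :=
      { toFun := f
        invFun := fun y => ⟨ψ y, hψ1 y⟩
        left_inv := fun x => Subtype.ext (hinj (hψ1 _) x.2 (hψ2 _))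
        right_inv := fun y => Subtype.ext (hψ2 y) }
    have he : Continuous e.symm := Continuous.continuous_symm_of_equiv_compact_to_t2 (f := e) hf
    exact continuous_subtype_val.comp he
  refine ⟨fun x => φ (ρ x), fun y => ψ ⟨ρ' y, h1' y⟩, ?_, ?_, ?_, ?_⟩
  · intro x hx
    have e1 : ContinuousWithinAt φ F (ρ x) := by rw [h2 x hx]; exact hφ x hx
    exact e1.tendsto.comp (tendsto_nhdsWithin_iff.2 ⟨(h3 x hx), Filter.Eventually.of_forall h1⟩)
  · intro y hy
    exact ContinuousAt.comp (x := y) hψc.continuousAt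
      (by
        rw [ContinuousAt, tendsto_subtype_rng]
        exact h3' y hy)
  · intro x hx
    simp only [h2 x hx]
  · intro x hx
    have e1 : ρ' (φ x) = φ x := h2' _ (mem_image_of_mem φ hx)
    refine hinj (hψ1 _) hx ?_
    rw [hψ2]
    exact e1

theorem ex_of_injOn {F : Set Ω} (hF : IsCompact F) {φ : Ω → Ω'} (hφ : ContinuousOn φ F)
    (hinj : InjOn φ F) {n : ℕ} (h : (AS Ω').Ex (φ '' F) n) : (AS Ω).Ex F n := by
  rcases F.eq_empty_or_nonempty with rfl | hne
  · exact fun k _ => Cob.of_mem (by simp)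
  obtain ⟨g, g', h1, h2, h3, h4⟩ := exists_ext hF hne hφ hinj
  refine ex_retract (g := g) (g' := g') h1 h2 ?_ ?_ ?_ h
  · intro x hx; rw [h3 x hx]; exact mem_image_of_mem φ hx
  · rintro _ ⟨x, hx, rfl⟩; rw [h4 x hx]; exact hx
  · intro x hx; rw [h3 x hx, h4 x hx]

end Pool.Agent.Helper775.Tight
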