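import Pool.Agent.Helper775.Tight.Cone

/-! Acyclic fibres, fibres of type `α`, and the cone arguments. -/

set_option autoImplicit false

namespace Pool.Agent.Helper775.Tight

open Set Topology

namespace SoftCx

section

variable {Y K : Type*} [TopologicalSpace Y] [AddCommGroup K]

/-- `Z` is nonempty, connected and has no cohomology in positive degrees. -/
def Acy (C : SoftCx Y K) (one : K) (Z : Set Y) : Prop :=
  (¬ ∀ z ∈ Z, one ∈ C.N z 1) ∧
  (∀ k, C.Coc Z 1 k → (∀ z ∈ Z, k ∈ C.N z 1) ∨ ∀ z ∈ Z, k - one ∈ C.N z 1) ∧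
  ∀ n, 2 ≤ n → C.Ex Z n

/-- `Z` has the cohomology with basis `1, a` with `a` in degree `d` (index `d + 1`). -/
def AType (C : SoftCx Y K) (one : K) (d : ℕ) (a : K) (Z : Set Y) : Prop :=
  (¬ ∀ z ∈ Z, one ∈ C.N z 1) ∧
  (∀ k, C.Coc Z 1 k → (∀ z ∈ Z, k ∈ C.N z 1) ∨ ∀ z ∈ Z, k - one ∈ C.N z 1) ∧
  (∀ n, 2 ≤ n → n ≠ d + 1 → C.Ex Z n) ∧
  (∀ k, C.Coc Z (d + 1) k → C.Cob Z (d + 1) k ∨ C.Cob Z (d + 1) (k - a)) ∧
  ¬ C.Cob Z (d + 1) a

end

section push

variable {X Y K : Type*} [TopologicalSpace X] [T2Space X] [TopologicalSpace Y] [T2Space Y]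
  [AddCommGroup K] (C : SoftCx X K) (p : X → Y)
    (hp : Continuous p) (G : Set X) (hG : IsCompact G)

theorem push_acy (one : K) (Z : Set Y) :
    (push C p hp G hG).Acy one Z ↔ C.Acy one (G ∩ p ⁻¹' Z) := by
  unfold Acy
  simp only [forall_push_N, push_coc, push_ex]

theorem push_atype (one : K) (d : ℕ) (a : K) (Z : Set Y) :
    (push C p hp G hG).AType one d a Z ↔ C.AType one d a (G ∩ p ⁻¹' Z) := by
  unfold AType
  simp only [forall_push_N, push_coc, push_ex, push_cob]

end push

section point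

variable {Y K K' : Type*} [TopologicalSpace Y] [AddCommGroup K] [AddCommGroup K']
  {M : SoftCx Y K} {F : SoftCx Y K'}

theorem cone_ex_of_acy (φ : Mor M F) (one : K) (w : Y) (hone : M.D one ∈ M.N w 2)
    (hM : M.Acy one {w}) (hF : F.Acy (φ.f one) {w}) (n : ℕ) : (cone φ).Ex {w} n := by
  obtain ⟨-, hM1, hM2⟩ := hM
  obtain ⟨hF0, hF1, hF2⟩ := hF
  simp only [mem_singleton_iff, forall_eq] at hM1 hF0 hF1
  rintro ⟨e, f⟩ hk
  have hk' := hk w rfl
  rw [cone_D, cone_N] at hk'
  obtain ⟨he, hf⟩ := hk'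
  simp only [add_tsub_cancel_right] at he hf
  rcases n with _ | _ | n
  · exact cob_index_zero _ _
  · have h1 := hM1 e (by intro z hz; rw [mem_singleton_iff.1 hz]; exact he)
    rcases h1 with h1 | h1
    · exact Cob.of_mem fun z hz => by
        rw [mem_singleton_iff.1 hz]; exact ⟨h1, F.N_zero _ _⟩
    · exfalso
      apply hF0
      have h2 := φ.mem w 1 _ h1
      have h3 := F.D_mem w 0 f (F.N_zero w f)
      have h4 := add_mem hf h3
      rw [map_sub] at h2
      have h5 := sub_mem h4 h2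
      have e1 : φ.f e - F.D f + F.D f - (φ.f e - φ.f one) = φ.f one := by abel
      rw [e1] at h5
      exact h5
  · obtain ⟨e', he'⟩ := hM2 (n + 2) (by omega) e
      (by intro z hz; rw [mem_singleton_iff.1 hz]; exact he)
    have he'' := he' w rfl
    have hg : F.Coc {w} (n + 1) (f - φ.f e') := by
      intro z hz
      rw [mem_singleton_iff.1 hz]
      have h1 := φ.mem w (n + 2) _ he''
      have h2 := φ.comm w (n + 2) e'
      rw [map_sub] at h1
      have h3 := neg_mem (add_mem (add_mem hf (neg_mem h1)) h2)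
      convert h3 using 1
      rw [map_sub]; abel
    rcases Nat.eq_zero_or_pos n with rfl | hn
    · rcases hF1 _ hg with h1 | h1
      · refine ⟨(e', 0), fun z hz => ?_⟩
        rw [mem_singleton_iff.1 hz, cone_D, cone_N]
        refine ⟨he'', ?_⟩
        simpa using h1
      · refine ⟨(e' + one, 0), fun z hz => ?_⟩
        rw [mem_singleton_iff.1 hz, cone_D, cone_N]
        refine ⟨?_, ?_⟩
        · have := sub_mem he'' hone
          simp only [Prod.fst_sub, map_add] at this ⊢
          convert this using 1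
          abel
        · simp only [Prod.snd_sub, map_add, map_zero]
          convert h1 using 1
          abel
    · obtain ⟨g', hg'⟩ := hF2 (n + 1) (by omega) _ hg
      refine ⟨(e', -g'), fun z hz => ?_⟩
      rw [mem_singleton_iff.1 hz, cone_D, cone_N]
      refine ⟨he'', ?_⟩
      have := hg' w rfl
      change f - (φ.f e' - F.D (-g')) ∈ F.N w (n + 1)
      rw [map_neg]
      convert this using 1
      abel

theorem coneL_ex_of_atype {d : ℕ} (hd : 1 ≤ d) (φ : Mor M F) (lam : Mor (M.shift d) F)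
    (one : K) (a : K') (w : Y) (hone : M.D one ∈ M.N w 2)
    (hla : lam.f one - a ∈ F.N w (d + 1))
    (hM : M.Acy one {w}) (hF : F.AType (φ.f one) d a {w}) (n : ℕ) :
    (cone (φ.sum lam)).Ex {w} n := by
  obtain ⟨-, hM1, hM2⟩ := hM
  obtain ⟨hF0, hF1, hF2, hF3, hF4⟩ := hF
  simp only [mem_singleton_iff, forall_eq] at hM1 hF0 hF1
  rintro ⟨⟨e, b⟩, f⟩ hk
  have hk' := hk w rfl
  rw [cone_D, cone_N] at hk'
  obtain ⟨⟨he, hb⟩, hf⟩ := hk'
  change M.D e ∈ M.N w (n + 1) at he
  change M.D b ∈ M.N w (n + 1 - d) at hb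
  change φ.f e + lam.f b - F.D f ∈ F.N w n at hf
  rcases Nat.eq_zero_or_pos n with rfl | hn0
  · exact cob_index_zero _ _
  rcases Nat.lt_or_ge n 2 with hn | hn
  · obtain rfl : n = 1 := by omega
    have hlb : lam.f b ∈ F.N w 1 := by
      refine lam.mem w 1 b ?_
      change b ∈ M.N w (1 - d)
      have : 1 - d = 0 := by omega
      rw [this]; exact M.N_zero _ _
    have h1 := hM1 e (by intro z hz; rw [mem_singleton_iff.1 hz]; exact he)
    rcases h1 with h1 | h1
    · exact Cob.of_mem fun z hz => by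
        rw [mem_singleton_iff.1 hz]
        refine ⟨⟨h1, ?_⟩, F.N_zero _ _⟩
        change b ∈ M.N w (1 - d)
        have : 1 - d = 0 := by omega
        rw [this]; exact M.N_zero _ _
    · exfalso
      apply hF0
      have h2 := φ.mem w 1 _ h1
      have h3 := F.D_mem w 0 f (F.N_zero w f)
      have h4 := sub_mem (add_mem hf h3) hlb
      rw [map_sub] at h2
      have h5 := sub_mem h4 h2
      have e1 : φ.f e + lam.f b - F.D f + F.D f - lam.f b - (φ.f e - φ.f one) = φ.f one := by abel
      rw [e1] at h5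
      exact h5
  · obtain ⟨e', he'⟩ := hM2 n hn e (by intro z hz; rw [mem_singleton_iff.1 hz]; exact he)
    have he'' := he' w rfl
    have hφe := φ.mem w n _ he''
    rw [map_sub] at hφe
    have hφc := φ.comm w n e'
    -- find b'
    have hb' : ∃ b', b - M.D b' ∈ M.N w (n - d) := by
      rcases lt_trichotomy n (d + 1) with h | h | h
      · refine ⟨0, ?_⟩
        have : n - d = 0 := by omega
        rw [this]; exact M.N_zero _ _
      · have e1 : n + 1 - d = 1 + 1 := by omega
        have e2 : n - d = 1 := by omega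
        rw [e1] at hb
        rw [e2]
        rcases hM1 b (by intro z hz; rw [mem_singleton_iff.1 hz]; exact hb) with h1 | h1
        · exact ⟨0, by simpa using h1⟩
        · exfalso
          apply hF4
          have h2 := lam.mem w n (b - one) (by
            change b - one ∈ M.N w (n - d)
            rw [e2]; exact h1)
          rw [map_sub] at h2
          rw [← h] at hla ⊢
          refine ⟨f - φ.f e', fun z hz => ?_⟩
          rw [mem_singleton_iff.1 hz]
          have h3 := sub_mem (add_mem (sub_mem (sub_mem hf h2) hla) hφc) hφe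
          have h4 := h3
          rw [map_sub]
          convert h4 using 1
          abel
      · have e1 : n + 1 - d = (n - d) + 1 := by omega
        rw [e1] at hb
        obtain ⟨b', hb'⟩ := hM2 (n - d) (by omega) b
          (by intro z hz; rw [mem_singleton_iff.1 hz]; exact hb)
        exact ⟨b', hb' w rfl⟩
    obtain ⟨b', hb'⟩ := hb'
    have hlb := lam.mem w n (b - M.D b') hb'
    rw [map_sub] at hlb
    have hlc := lam.comm w n b'
    change F.D (lam.f b') - lam.f (M.D b') ∈ F.N w n at hlc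
    obtain ⟨q, rfl⟩ : ∃ q, n = q + 1 := ⟨n - 1, by omega⟩
    have hg : F.Coc {w} q (f - φ.f e' - lam.f b') := by
      intro z hz
      rw [mem_singleton_iff.1 hz]
      have h3 := neg_mem (add_mem (add_mem (sub_mem (sub_mem hf hφe) hlb) hφc) hlc)
      convert h3 using 1
      rw [map_sub, map_sub]; abel
    have key : ∀ (x y : K) (g : K'), M.D x ∈ M.N w (q + 1) → M.D y ∈ M.N w (q + 1 - d) →
        f - φ.f e' - lam.f b' - φ.f x - lam.f y - F.D g ∈ F.N w q →
        (cone (φ.sum lam)).Cob {w} (q + 1) ((e, b), f) := by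
      intro x y g hx hy hg
      refine ⟨((e' + x, b' + y), -g), fun z hz => ?_⟩
      rw [mem_singleton_iff.1 hz, cone_D, cone_N]
      refine ⟨⟨?_, ?_⟩, ?_⟩
      · change e - M.D (e' + x) ∈ M.N w (q + 1)
        have := sub_mem he'' hx
        rw [map_add]
        convert this using 1
        abel
      · change b - M.D (b' + y) ∈ M.N w (q + 1 - d)
        have := sub_mem hb' hy
        rw [map_add]
        convert this using 1
        abel
      · change f - (φ.f (e' + x) + lam.f (b' + y) - F.D (-g)) ∈ F.N w q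
        rw [map_add, map_add, map_neg]
        convert hg using 1
        abel
    rcases Nat.lt_or_ge q 2 with hq | hq
    · obtain rfl : q = 1 := by omega
      rcases hF1 _ hg with h1 | h1
      · exact key 0 0 0 (by simp) (by simp) (by simpa using h1)
      · exact key one 0 0 hone (by simp) (by simpa using h1)
    · by_cases hqd : q = d + 1
      · subst hqd
        rcases hF3 _ hg with ⟨g', h1⟩ | ⟨g', h1⟩
        · exact key 0 0 g' (by simp) (by simp) (by simpa using h1 w rfl)
        · refine key 0 one g' (by simp) ?_ ?_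
          · have : d + 1 + 1 - d = 2 := by omega
            rw [this]; exact hone
          · have := sub_mem (h1 w rfl) hla
            rw [map_zero]
            convert this using 1
            abel
      · obtain ⟨g', h1⟩ := hF2 q hq hqd _ hg
        exact key 0 0 g' (by simp) (by simp) (by simpa using h1 w rfl)

end point

section main

variable {Y K K' : Type*} [MetricSpace Y] [AddCommGroup K] [AddCommGroup K']
  {M : SoftCx Y K} {F : SoftCx Y K'}

/-- Vietoris-Begle direction. -/
theorem ex_of_cone_ex (φ : Mor M F) {A : Set Y} {n : ℕ}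
    (hC : (cone φ).Ex A (n + 1)) (hM : M.Ex A n) : F.Ex A n := by
  intro f hf
  obtain ⟨⟨e', f'⟩, h⟩ := hC (0, f) (by
    intro z hz
    rw [cone_D, cone_N]
    refine ⟨by simp, ?_⟩
    simpa using hf z hz)
  obtain ⟨e'', he''⟩ := hM e' (by
    intro z hz
    have := (h z hz).1
    change (0 : K) - M.D e' ∈ M.N z (n + 1) at this
    simpa using neg_mem this)
  refine ⟨φ.f e'' - f', fun z hz => ?_⟩
  have h1 := (h z hz).2
  change f - (φ.f e' - F.D f') ∈ F.N z n at h1
  have h2 := φ.mem z n _ (he'' z hz)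
  have h3 := φ.comm z n e''
  have h4 := sub_mem (add_mem h1 h2) h3
  rw [map_sub] at h2 ⊢
  convert h4 using 1
  rw [map_sub]; abel

theorem coneL_coc {d : ℕ} (φ : Mor M F) (lam : Mor (M.shift d) F) {B : Set Y} {n : ℕ}
    {e b : K} {f : K'} (he : ∀ z ∈ B, M.D e ∈ M.N z (n + 1))
    (hb : ∀ z ∈ B, M.D b ∈ M.N z (n + 1 - d)) (hf : ∀ z ∈ B, φ.f e + lam.f b - F.D f ∈ F.N z n) :
    (cone (φ.sum lam)).Coc B n ((e, b), f) :=
  fun z hz => ⟨⟨he z hz, hb z hz⟩, hf z hz⟩

theorem coneL_cob {d : ℕ} (φ : Mor M F) (lam : Mor (M.shift d) F) {B : Set Y} {n : ℕ}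
    {e b : K} {f : K'} (h : (cone (φ.sum lam)).Cob B n ((e, b), f)) :
    ∃ e' b' f', (∀ z ∈ B, e - M.D e' ∈ M.N z n) ∧ (∀ z ∈ B, b - M.D b' ∈ M.N z (n - d)) ∧
      ∀ z ∈ B, f - (φ.f e' + lam.f b' - F.D f') ∈ F.N z (n - 1) := by
  obtain ⟨⟨⟨e', b'⟩, f'⟩, h⟩ := h
  exact ⟨e', b', f', fun z hz => (h z hz).1.1, fun z hz => (h z hz).1.2, fun z hz => (h z hz).2⟩

theorem leray_hirsch {d : ℕ} (φ : Mor M F) (lam : Mor (M.shift d) F) {B : Set Y} {m : ℕ}
    (hL : (cone (φ.sum lam)).Ex B (m + d)) {b : K} (hb : M.Coc B m b)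
    (hn : ¬ M.Cob B m b) : F.Coc B (m + d) (lam.f b) ∧ ¬ F.Cob B (m + d) (lam.f b) := by
  have e1 : m + d + 1 - d = m + 1 := by omega
  have e2 : m + d - d = m := by omega
  constructor
  · intro z hz
    have h1 := lam.comm z (m + d + 1) b
    have h2 := lam.mem z (m + d + 1) (M.D b) (by
      change M.D b ∈ M.N z (m + d + 1 - d)
      rw [e1]; exact hb z hz)
    have := add_mem h1 h2
    change F.D (lam.f b) - lam.f (M.D b) + lam.f (M.D b) ∈ _ at this
    simpa using this
  · rintro ⟨f, hf⟩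
    obtain ⟨e', b', f', h1, h2, h3⟩ := coneL_cob φ lam (hL ((0, b), f)
      (coneL_coc φ lam (by intro z hz; simp) (by intro z hz; rw [e1]; exact hb z hz)
        (by intro z hz; simpa using hf z hz)))
    rw [e2] at h2
    exact hn ⟨b', h2⟩

theorem gysin_one {d : ℕ} (φ : Mor M F) (lam : Mor (M.shift d) F) {A B : Set Y} {m : ℕ}
    (hA : IsCompact A) (hB : IsCompact B) (hBA : B ⊆ A)
    (hC : ∀ w ∈ A \ B, ∀ n, (cone φ).Ex {w} n)
    (hL : (cone (φ.sum lam)).Ex B (m + d + 1))
    {e : K} (he : M.Coc A (m + d + 1) e) (hne : ¬ M.Cob A (m + d + 1) e)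
    (hF : F.Ex A (m + d + 1)) : ∃ b, M.Coc B m b ∧ ¬ M.Cob B m b := by
  obtain ⟨f, hf⟩ := hF (φ.f e) (by
    intro z hz
    have h1 := φ.comm z (m + d + 1 + 1) e
    have h2 := φ.mem z (m + d + 1 + 1) (M.D e) (he z hz)
    simpa using add_mem h1 h2)
  have hcoc : (cone φ).Coc A (m + d + 1) (e, f) := fun z hz => ⟨he z hz, hf z hz⟩
  have hncob : ¬ (cone φ).Cob B (m + d + 1) (e, f) := by
    intro h
    obtain ⟨⟨e', f'⟩, h'⟩ := cob_of_cob_near hA hB hC hcoc h
    exact hne ⟨e', fun z hz => (h' z hz).1⟩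
  obtain ⟨e', b', f', h1, h2, h3⟩ := coneL_cob φ lam (hL ((e, 0), f)
      (coneL_coc φ lam (fun z hz => he z (hBA hz)) (by intro z hz; simp)
        (by intro z hz; simpa using hf z (hBA hz))))
  have e1 : m + d + 1 - d = m + 1 := by omega
  rw [e1] at h2
  refine ⟨b', ?_, ?_⟩
  · intro z hz
    have := neg_mem (h2 z hz)
    simpa using this
  · rintro ⟨b'', h4⟩
    apply hncob
    refine ⟨(e', f' - lam.f b''), fun z hz => ⟨h1 z hz, ?_⟩⟩
    change f - (φ.f e' - F.D (f' - lam.f b'')) ∈ F.N z (m + d + 1 - 1)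
    have h5 := h3 z hz
    have h6 := lam.mem z (m + d) _ (by
      change b' - M.D b'' ∈ M.N z (m + d - d)
      have : m + d - d = m := by omega
      rw [this]; exact h4 z hz)
    have h7 := lam.comm z (m + d) b''
    change F.D (lam.f b'') - lam.f (M.D b'') ∈ _ at h7
    simp only [add_tsub_cancel_right] at h5 ⊢
    rw [map_sub] at h6 ⊢
    have h8 := sub_mem (add_mem h5 h6) h7
    convert h8 using 1
    abel

theorem gysin_two {d : ℕ} (φ : Mor M F) (lam : Mor (M.shift d) F) {A B : Set Y} {m : ℕ}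
    (hA : IsCompact A) (hB : IsCompact B) (hBA : B ⊆ A)
    (hC : ∀ w ∈ A \ B, ∀ n, (cone φ).Ex {w} n)
    (hL : (cone (φ.sum lam)).Ex B (m + d))
    {b : K} (hb : M.Coc B m b) (hnb : ¬ M.Cob B m b)
    (hM : M.Ex A (m + d + 1)) : ¬ F.Ex A (m + d) := by
  intro hF
  have e1 : m + d - d = m := by omega
  have e2 : m + d + 1 - d = m + 1 := by omega
  have hlc := (leray_hirsch φ lam hL hb hnb).1
  -- the cocycle `(0, lam b)` of the cone near `B`
  obtain ⟨⟨e, f⟩, h1, h2⟩ := exists_extend (C := cone φ) (n := m + d + 1) (k := (0, lam.f b))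
    hA hB hBA hC (by
      intro z hz
      refine ⟨by simp, ?_⟩
      have := neg_mem (hlc z hz)
      simpa using this)
  obtain ⟨e', he'⟩ := hM e (fun z hz => (h1 z hz).1)
  have hco : F.Coc A (m + d) (f - φ.f e') := by
    intro z hz
    have h3 := (h1 z hz).2
    change φ.f e - F.D f ∈ F.N z (m + d + 1 + 1 - 1) at h3
    simp only [add_tsub_cancel_right] at h3
    have h4 := φ.mem z _ _ (he' z hz)
    have h5 := φ.comm z (m + d + 1) e'
    rw [map_sub] at h4 ⊢
    have h6 := neg_mem (add_mem (sub_mem h3 h4) h5)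
    convert h6 using 1
    abel
  obtain ⟨f', hf'⟩ := hF _ hco
  have hbcoc : (cone (φ.sum lam)).Coc B (m + d) ((-e', b), f') := by
    refine coneL_coc φ lam ?_ ?_ ?_
    · intro z hz
      have h3 := he' z (hBA hz)
      have h4 := (h2 z hz).1
      change e - 0 ∈ M.N z (m + d + 1) at h4
      rw [sub_zero] at h4
      have h5 := sub_mem h3 h4
      rw [map_neg]
      convert h5 using 1
      abel
    · intro z hz
      rw [e2]; exact hb z hz
    · intro z hz
      have h3 := hf' z (hBA hz)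
      have h4 := (h2 z hz).2
      change f - lam.f b ∈ F.N z (m + d + 1 - 1) at h4
      simp only [add_tsub_cancel_right] at h4
      rw [map_neg]
      have h5 := sub_mem h3 h4
      convert h5 using 1
      abel
  obtain ⟨e'', b'', f'', -, h3, -⟩ := coneL_cob φ lam (hL _ hbcoc)
  rw [e1] at h3
  exact hnb ⟨b'', h3⟩

end main

end SoftCx

end Pool.Agent.Helper775.Tight
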