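import Pool.Agent.Helper775.Tight.Soft

/-! Shift, sum, cone and push-forward of soft complexes. -/

set_option autoImplicit false

namespace Pool.Agent.Helper775.Tight

open Set Topology

namespace SoftCx

variable {Y K K' : Type*} [TopologicalSpace Y] [AddCommGroup K] [AddCommGroup K']

/-- shift of a soft complex. -/
def shift (C : SoftCx Y K) (d : ℕ) : SoftCx Y K where
  D := C.D
  N z n := C.N z (n - d)
  N_zero z k := by
    rw [Nat.zero_sub]; exact C.N_zero z k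
  D_mem z n k hk := by
    rcases le_or_gt d n with h | h
    · have e : n + 1 - d = (n - d) + 1 := by omega
      rw [e]; exact C.D_mem z _ k hk
    · have e : n + 1 - d = 0 := by omega
      rw [e]; exact C.N_zero z _
  DD_mem z n k := C.DD_mem z _ k
  isOpen_N n k := C.isOpen_N _ k
  soft n k Z₁ Z₂ h₁ h₂ h := C.soft _ k Z₁ Z₂ h₁ h₂ h

/-- direct sum of soft complexes. -/
def sum (C : SoftCx Y K) (C' : SoftCx Y K') : SoftCx Y (K × K') where
  D := C.D.prodMap C'.D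
  N z n := (C.N z n).prod (C'.N z n)
  N_zero z k := ⟨C.N_zero z _, C'.N_zero z _⟩
  D_mem z n k hk := ⟨C.D_mem z n _ hk.1, C'.D_mem z n _ hk.2⟩
  DD_mem z n k := ⟨C.DD_mem z n _, C'.DD_mem z n _⟩
  isOpen_N n k := (C.isOpen_N n k.1).inter (C'.isOpen_N n k.2)
  soft n k Z₁ Z₂ h₁ h₂ h := by
    obtain ⟨a, ha1, ha2⟩ := C.soft n k.1 Z₁ Z₂ h₁ h₂ fun z hz => (h z hz).1
    obtain ⟨b, hb1, hb2⟩ := C'.soft n k.2 Z₁ Z₂ h₁ h₂ fun z hz => (h z hz).2
    exact ⟨(a, b), fun z hz => ⟨ha1 z hz, hb1 z hz⟩, fun z hz => ⟨ha2 z hz, hb2 z hz⟩⟩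

/-- morphisms of soft complexes (chain maps up to germs). -/
structure Mor (M : SoftCx Y K) (F : SoftCx Y K') where
  f : K →+ K'
  mem : ∀ z n k, k ∈ M.N z n → f k ∈ F.N z n
  comm : ∀ z n k, F.D (f k) - f (M.D k) ∈ F.N z n

variable {M : SoftCx Y K} {F : SoftCx Y K'}

/-- mapping cone. -/
def cone (ψ : Mor M F) : SoftCx Y (K × K') where
  D := (M.D.comp (AddMonoidHom.fst K K')).prod
    (ψ.f.comp (AddMonoidHom.fst K K') - F.D.comp (AddMonoidHom.snd K K'))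
  N z n := (M.N z n).prod (F.N z (n - 1))
  N_zero z k := ⟨M.N_zero z _, F.N_zero z _⟩
  D_mem z n k hk := by
    refine ⟨M.D_mem z n _ hk.1, ?_⟩
    change ψ.f k.1 - F.D k.2 ∈ F.N z n
    refine sub_mem (ψ.mem z n _ hk.1) ?_
    rcases Nat.eq_zero_or_pos n with rfl | h
    · exact F.N_zero z _
    · have e : n = (n - 1) + 1 := by omega
      have h2 := F.D_mem z _ _ hk.2
      rw [← e] at h2
      exact h2
  DD_mem z n k := by
    refine ⟨M.DD_mem z n _, ?_⟩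
    change ψ.f (M.D k.1) - F.D (ψ.f k.1 - F.D k.2) ∈ F.N z (n - 1)
    have e : ψ.f (M.D k.1) - F.D (ψ.f k.1 - F.D k.2) =
        F.D (F.D k.2) - (F.D (ψ.f k.1) - ψ.f (M.D k.1)) := by
      rw [map_sub]; abel
    rw [e]
    exact sub_mem (F.DD_mem z _ _) (ψ.comm z _ _)
  isOpen_N n k := (M.isOpen_N n k.1).inter (F.isOpen_N (n - 1) k.2)
  soft n k Z₁ Z₂ h₁ h₂ h := by
    obtain ⟨a, ha1, ha2⟩ := M.soft n k.1 Z₁ Z₂ h₁ h₂ fun z hz => (h z hz).1
    obtain ⟨b, hb1, hb2⟩ := F.soft (n - 1) k.2 Z₁ Z₂ h₁ h₂ fun z hz => (h z hz).2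
    exact ⟨(a, b), fun z hz => ⟨ha1 z hz, hb1 z hz⟩, fun z hz => ⟨ha2 z hz, hb2 z hz⟩⟩

@[simp] theorem cone_D (ψ : Mor M F) (k : K × K') :
    (cone ψ).D k = (M.D k.1, ψ.f k.1 - F.D k.2) := rfl

theorem cone_N (ψ : Mor M F) (z : Y) (n : ℕ) (k : K × K') :
    k ∈ (cone ψ).N z n ↔ k.1 ∈ M.N z n ∧ k.2 ∈ F.N z (n - 1) := Iff.rfl

/-- push-forward of a soft complex along a continuous map restricted to a compact set `G`. -/
def push {X : Type*} [TopologicalSpace X] [T2Space X] [T2Space Y] (C : SoftCx X K) (p : X → Y)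
    (hp : Continuous p) (G : Set X) (hG : IsCompact G) : SoftCx Y K where
  D := C.D
  N w n := ⨅ x ∈ G ∩ p ⁻¹' {w}, C.N x n
  N_zero w k := by
    simp only [AddSubgroup.mem_iInf]
    exact fun x _ => C.N_zero x k
  D_mem w n k hk := by
    simp only [AddSubgroup.mem_iInf] at hk ⊢
    exact fun x hx => C.D_mem x n k (hk x hx)
  DD_mem w n k := by
    simp only [AddSubgroup.mem_iInf]
    exact fun x _ => C.DD_mem x n k
  isOpen_N n k := by
    have h1 : {w | k ∈ ⨅ x ∈ G ∩ p ⁻¹' {w}, C.N x n} = (p '' (G ∩ {x | k ∈ C.N x n}ᶜ))ᶜ := by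
      ext w
      simp only [AddSubgroup.mem_iInf, mem_setOf_eq, mem_compl_iff, mem_image, mem_inter_iff,
        mem_preimage, mem_singleton_iff]
      constructor
      · rintro h ⟨x, ⟨hx, hxn⟩, hxw⟩
        exact hxn (h x ⟨hx, hxw⟩)
      · intro h x hx
        by_contra hn
        exact h ⟨x, ⟨hx.1, hn⟩, hx.2⟩
    rw [h1, isOpen_compl_iff]
    exact ((hG.inter_right (C.isOpen_N n k).isClosed_compl).image hp).isClosed
  soft n k Z₁ Z₂ h₁ h₂ h := by
    obtain ⟨a, ha1, ha2⟩ := C.soft n k (G ∩ p ⁻¹' Z₁) (G ∩ p ⁻¹' Z₂)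
      (hG.isClosed.inter (h₁.preimage hp)) (hG.isClosed.inter (h₂.preimage hp)) (by
        intro x hx
        have := h (p x) ⟨hx.1.2, hx.2.2⟩
        simp only [AddSubgroup.mem_iInf] at this
        exact this x ⟨hx.1.1, rfl⟩)
    refine ⟨a, ?_, ?_⟩
    · intro w hw
      simp only [AddSubgroup.mem_iInf]
      intro x hx
      refine ha1 x ⟨hx.1, ?_⟩
      have : p x = w := hx.2
      rw [mem_preimage, this]; exact hw
    · intro w hw
      simp only [AddSubgroup.mem_iInf]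
      intro x hx
      refine ha2 x ⟨hx.1, ?_⟩
      have : p x = w := hx.2
      rw [mem_preimage, this]; exact hw

section push

variable {X : Type*} [TopologicalSpace X] [T2Space X] [T2Space Y] (C : SoftCx X K) (p : X → Y)
    (hp : Continuous p) (G : Set X) (hG : IsCompact G)

@[simp] theorem push_D (k : K) : (push C p hp G hG).D k = C.D k := rfl

theorem mem_push_N (w : Y) (n : ℕ) (k : K) :
    k ∈ (push C p hp G hG).N w n ↔ ∀ x ∈ G ∩ p ⁻¹' {w}, k ∈ C.N x n := by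
  change k ∈ (⨅ x ∈ G ∩ p ⁻¹' {w}, C.N x n) ↔ _
  simp only [AddSubgroup.mem_iInf]

theorem forall_push_N (Z : Set Y) (n : ℕ) (k : K) :
    (∀ w ∈ Z, k ∈ (push C p hp G hG).N w n) ↔ ∀ x ∈ G ∩ p ⁻¹' Z, k ∈ C.N x n := by
  simp only [mem_push_N]
  constructor
  · intro h x hx
    exact h (p x) hx.2 x ⟨hx.1, rfl⟩
  · intro h w hw x hx
    refine h x ⟨hx.1, ?_⟩
    have : p x = w := hx.2
    rw [mem_preimage, this]; exact hw

theorem push_coc (Z : Set Y) (n : ℕ) (k : K) :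
    (push C p hp G hG).Coc Z n k ↔ C.Coc (G ∩ p ⁻¹' Z) n k :=
  forall_push_N C p hp G hG Z (n + 1) (C.D k)

theorem push_cob (Z : Set Y) (n : ℕ) (k : K) :
    (push C p hp G hG).Cob Z n k ↔ C.Cob (G ∩ p ⁻¹' Z) n k := by
  constructor
  · rintro ⟨b, hb⟩
    exact ⟨b, (forall_push_N C p hp G hG Z n (k - C.D b)).1 hb⟩
  · rintro ⟨b, hb⟩
    exact ⟨b, (forall_push_N C p hp G hG Z n (k - C.D b)).2 hb⟩

theorem push_ex (Z : Set Y) (n : ℕ) :
    (push C p hp G hG).Ex Z n ↔ C.Ex (G ∩ p ⁻¹' Z) n := by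
  constructor
  · intro h k hk
    exact (push_cob C p hp G hG Z n k).1 (h k ((push_coc C p hp G hG Z n k).2 hk))
  · intro h k hk
    exact (push_cob C p hp G hG Z n k).2 (h k ((push_coc C p hp G hG Z n k).1 hk))

end push

/-- sum of two morphisms. -/
def Mor.sum {K'' : Type*} [AddCommGroup K''] {M' : SoftCx Y K''} (φ : Mor M F) (lam : Mor M' F) :
    Mor (M.sum M') F where
  f := φ.f.comp (AddMonoidHom.fst K K'') + lam.f.comp (AddMonoidHom.snd K K'')
  mem z n k hk := add_mem (φ.mem z n _ hk.1) (lam.mem z n _ hk.2)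
  comm z n k := by
    have := add_mem (φ.comm z n k.1) (lam.comm z n k.2)
    change F.D (φ.f k.1 + lam.f k.2) - (φ.f (M.D k.1) + lam.f (M'.D k.2)) ∈ F.N z n
    have e : F.D (φ.f k.1 + lam.f k.2) - (φ.f (M.D k.1) + lam.f (M'.D k.2)) =
        (F.D (φ.f k.1) - φ.f (M.D k.1)) + (F.D (lam.f k.2) - lam.f (M'.D k.2)) := by
      rw [map_add]; abel
    rw [e]; exact this

end SoftCx

end Pool.Agent.Helper775.Tight
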