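import Pool.Agent.Helper775.Tight.Alg

/-! Alexander-Spanier cochains mod 2 (functions on lists of points) as a soft complex. -/

set_option autoImplicit false

namespace Pool.Agent.Helper775.Tight

open Set Topology

/-- cochains: functions on lists; the part of degree `q` is the restriction to lists of length
`q + 1`. -/
abbrev Ch (Ω : Type*) := List Ω → ZMod 2

theorem add_self2 (a : ZMod 2) : a + a = 0 := CharTwo.add_self_eq_zero a

/-- sum over the faces. -/
def dv {Ω : Type*} : List Ω → Ch Ω → ZMod 2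
  | [], _ => 0
  | x :: l, c => c l + dv l (fun l' => c (x :: l'))

/-- augmented coboundary. -/
def d {Ω : Type*} (c : Ch Ω) : Ch Ω := fun l => dv l c

section basic

variable {Ω : Type*}

@[simp] theorem d_nil (c : Ch Ω) : d c [] = 0 := rfl

theorem d_cons (c : Ch Ω) (x : Ω) (l : List Ω) :
    d c (x :: l) = c l + d (fun l' => c (x :: l')) l := rfl

theorem d_add (b c : Ch Ω) : d (b + c) = d b + d c := by
  funext l
  induction l generalizing b c with
  | nil => simp
  | cons x l ih =>
    have h1 : (fun l' => (b + c) (x :: l')) = (fun l' => b (x :: l')) + (fun l' => c (x :: l')) := rfl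
    rw [d_cons, h1, ih]
    simp only [d_cons, Pi.add_apply]
    ring

theorem d_congr {b c : Ch Ω} (l : List Ω)
    (h : ∀ l', l'.length + 1 = l.length → l' ⊆ l → b l' = c l') : d b l = d c l := by
  induction l generalizing b c with
  | nil => simp
  | cons x l ih =>
    rw [d_cons, d_cons, h l (by simp) (List.subset_cons_self _ _)]
    congr 1
    apply ih
    intro l' hl' hs
    apply h
    · simpa using hl'
    · intro y hy
      rcases List.mem_cons.1 hy with rfl | hy
      · simp
      · exact List.mem_cons_of_mem _ (hs hy)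

@[simp] theorem d_zero : d (0 : Ch Ω) = 0 := by
  funext l
  induction l with
  | nil => rfl
  | cons x l ih =>
    rw [d_cons]
    have : (fun l' => (0 : Ch Ω) (x :: l')) = 0 := rfl
    rw [this, ih]
    simp

theorem d_eq_zero {c : Ch Ω} (l : List Ω)
    (h : ∀ l', l'.length + 1 = l.length → l' ⊆ l → c l' = 0) : d c l = 0 := by
  have := d_congr (b := c) (c := 0) l (by simpa using h)
  simpa using this

theorem d_d (c : Ch Ω) : d (d c) = 0 := by
  funext l
  induction l generalizing c with
  | nil => simp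
  | cons x l ih =>
    have h1 : (fun l' => d c (x :: l')) = c + d (fun l' => c (x :: l')) := by
      funext l'
      simp [d_cons]
    rw [d_cons, h1, d_add]
    simp only [Pi.add_apply, ih]
    simp [add_self2]

/-- pullback along a map of points. -/
def pb {Ω' : Type*} (f : Ω → Ω') (c : Ch Ω') : Ch Ω := fun l => c (l.map f)

theorem d_pb {Ω' : Type*} (f : Ω → Ω') (c : Ch Ω') : d (pb f c) = pb f (d c) := by
  funext l
  induction l generalizing c with
  | nil => simp [pb]
  | cons x l ih =>
    have h1 : (fun l' => pb f c (x :: l')) = pb f (fun l' => c (f x :: l')) := rfl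
    rw [d_cons, h1, ih]
    simp [pb, d_cons]

/-- prism operator. -/
def prv {Ω' : Type*} (f g : Ω → Ω') : List Ω → Ch Ω' → ZMod 2
  | [], _ => 0
  | x :: l, c => c (f x :: g x :: l.map g) + prv f g l (fun l' => c (f x :: l'))

def pr {Ω' : Type*} (f g : Ω → Ω') (c : Ch Ω') : Ch Ω := fun l => prv f g l c

@[simp] theorem pr_nil {Ω' : Type*} (f g : Ω → Ω') (c : Ch Ω') : pr f g c [] = 0 := rfl

theorem pr_cons {Ω' : Type*} (f g : Ω → Ω') (c : Ch Ω') (x : Ω) (l : List Ω) :
    pr f g c (x :: l) = c (f x :: g x :: l.map g) + pr f g (fun l' => c (f x :: l')) l := rfl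

theorem pr_add {Ω' : Type*} (f g : Ω → Ω') (b c : Ch Ω') :
    pr f g (b + c) = pr f g b + pr f g c := by
  funext l
  induction l generalizing b c with
  | nil => simp
  | cons x l ih =>
    have h1 : (fun l' => (b + c) (f x :: l')) = (fun l' => b (f x :: l')) + (fun l' => c (f x :: l')) := rfl
    rw [pr_cons, h1, ih]
    simp only [pr_cons, Pi.add_apply]
    ring

/-- the prism identity. -/
theorem prism {Ω' : Type*} (f g : Ω → Ω') (c : Ch Ω') :
    d (pr f g c) + pr f g (d c) = pb g c + pb f c := by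
  funext l
  induction l generalizing c with
  | nil => simp [pb, add_self2]
  | cons x l ih =>
    simp only [Pi.add_apply] at ih ⊢
    have h1 : (fun l' => pr f g c (x :: l')) =
        pb g (fun l' => c (f x :: g x :: l')) + pr f g (fun l' => c (f x :: l')) := by
      funext l'
      simp [pr_cons, pb]
    have h2 : (fun l' => d c (f x :: l')) = c + d (fun l' => c (f x :: l')) := by
      funext l'
      simp [d_cons]
    rw [d_cons, h1, d_add, pr_cons, h2, pr_add, d_pb]
    have h3 := ih (fun l' => c (f x :: l'))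
    simp only [Pi.add_apply, pb, List.map_cons, d_cons] at h3 ⊢
    have e1 := add_self2 (pr f g c l)
    have e2 := add_self2 (d (fun l' => c (f x :: g x :: l')) (l.map g))
    have e3 := add_self2 (c (f x :: l.map g))
    linear_combination h3 + e1 + e2 + e3

/-- the prism operator vanishes when the cochain vanishes on all lists of the points involved. -/
theorem pr_eq_zero {Ω' : Type*} (f g : Ω → Ω') (V : Set Ω') (n : ℕ)
    (F : Ch Ω') (hF : ∀ l' : List Ω', l'.length = n + 1 → (∀ x ∈ l', x ∈ V) → F l' = 0)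
    (l : List Ω) (hl : l.length = n) (hV : ∀ x ∈ l, f x ∈ V ∧ g x ∈ V) : pr f g F l = 0 := by
  induction l generalizing n F with
  | nil => simp
  | cons x l ih =>
    have hx := hV x List.mem_cons_self
    have hl' : l.length + 1 = n := by simpa using hl
    rw [pr_cons]
    have h1 : F (f x :: g x :: l.map g) = 0 := by
      apply hF
      · simp only [List.length_cons, List.length_map]
        omega
      · intro z hz
        rcases List.mem_cons.1 hz with rfl | hz
        · exact hx.1
        rcases List.mem_cons.1 hz with rfl | hz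
        · exact hx.2
        obtain ⟨y, hy, rfl⟩ := List.mem_map.1 hz
        exact (hV y (List.mem_cons_of_mem _ hy)).2
    have h2 : pr f g (fun l' => F (f x :: l')) l = 0 := by
      apply ih l.length
      · intro l' hl'' hz
        apply hF
        · simp only [List.length_cons]
          omega
        · intro z hz'
          rcases List.mem_cons.1 hz' with rfl | hz'
          · exact hx.1
          · exact hz z hz'
      · rfl
      · intro y hy
        exact hV y (List.mem_cons_of_mem _ hy)
    rw [h1, h2, add_zero]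

end basic

section unaug

variable {Ω : Type*}

/-- unaugmented coboundary. -/
def dd (c : Ch Ω) : Ch Ω := fun l => if l.length ≤ 1 then 0 else d c l

theorem dd_apply {c : Ch Ω} {l : List Ω} (h : 2 ≤ l.length) : dd c l = d c l :=
  if_neg (by omega)

theorem dd_short {c : Ch Ω} {l : List Ω} (h : l.length ≤ 1) : dd c l = 0 := if_pos h

theorem dd_add (b c : Ch Ω) : dd (b + c) = dd b + dd c := by
  funext l
  by_cases h : l.length ≤ 1
  · simp [dd, h]
  · simp [dd, h, d_add]

theorem dd_dd (c : Ch Ω) : dd (dd c) = 0 := by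
  funext l
  rcases Nat.lt_or_ge l.length 2 with h | h
  · rw [dd_short (by omega)]; rfl
  · rw [dd_apply h]
    rcases Nat.lt_or_ge l.length 3 with h3 | h3
    · exact d_eq_zero l fun l' hl' _ => dd_short (by omega)
    · have : d (dd c) l = d (d c) l := d_congr l fun l' hl' _ => dd_apply (by omega)
      rw [this, d_d]

/-- unaugmented coboundary as a homomorphism. -/
def DD : Ch Ω →+ Ch Ω where
  toFun := dd
  map_zero' := by
    funext l
    by_cases h : l.length ≤ 1
    · simp [dd, h]
    · simp [dd, h]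
  map_add' := dd_add

theorem DD_apply (c : Ch Ω) : DD c = dd c := rfl

theorem dd_pb {Ω' : Type*} (f : Ω → Ω') (c : Ch Ω') : dd (pb f c) = pb f (dd c) := by
  funext l
  by_cases h : l.length ≤ 1
  · simp [dd, h, pb]
  · rw [dd_apply (by omega), d_pb]
    simp only [pb]
    rw [dd_apply (by simp; omega)]

/-- pullback as a homomorphism. -/
def PB {Ω' : Type*} (f : Ω → Ω') : Ch Ω' →+ Ch Ω where
  toFun := pb f
  map_zero' := rfl
  map_add' _ _ := rfl

@[simp] theorem PB_apply {Ω' : Type*} (f : Ω → Ω') (c : Ch Ω') : PB f c = pb f c := rfl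

/-- the prism identity for the unaugmented coboundary. -/
theorem prism' {Ω' : Type*} (f g : Ω → Ω') (c : Ch Ω') (l : List Ω) (hl : 1 ≤ l.length) :
    dd (pr f g c) l + pr f g (dd c) l = pb g c l + pb f c l := by
  have h1 : pr f g (dd c) l = pr f g (d c) l := by
    have h2 : pr f g (dd c + d c) l = 0 := by
      refine pr_eq_zero f g Set.univ l.length _ ?_ l rfl (by simp)
      intro l' hl' _
      rw [Pi.add_apply, dd_apply (by omega), add_self2]
    rw [pr_add, Pi.add_apply] at h2
    have := add_self2 (pr f g (d c) l)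
    linear_combination h2 - this
  have h3 : dd (pr f g c) l = d (pr f g c) l := by
    rcases Nat.lt_or_ge l.length 2 with h | h
    · rw [dd_short (by omega)]
      symm
      refine d_eq_zero l fun l' hl' _ => ?_
      have : l' = [] := List.length_eq_zero_iff.1 (by omega)
      rw [this, pr_nil]
    · exact dd_apply h
  rw [h1, h3]
  exact congrFun (prism f g c) l

/-- the constant cochain. -/
def one : Ch Ω := fun _ => 1

theorem dd_one (l : List Ω) (hl : l.length = 2) : dd (one : Ch Ω) l = 0 := by
  rw [dd_apply (by omega)]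
  match l, hl with
  | [x, y], _ => simp [d_cons, one]; exact add_self2 1

@[simp] theorem pb_one {Ω' : Type*} (f : Ω → Ω') : pb f (one : Ch Ω') = one := rfl

end unaug

section germ

variable {Ω : Type*}

/-- cochains whose part on lists of length `n` vanishes near `z`. -/
def Nz [TopologicalSpace Ω] (z : Ω) (n : ℕ) : AddSubgroup (Ch Ω) where
  carrier := {c | n = 0 ∨ ∃ W ∈ 𝓝 z, ∀ l : List Ω, l.length = n → (∀ x ∈ l, x ∈ W) → c l = 0}
  zero_mem' := Or.inr ⟨univ, Filter.univ_mem, fun _ _ _ => rfl⟩
  add_mem' := by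
    rintro a b (ha | ⟨W, hW, ha⟩) (hb | ⟨W', hW', hb⟩)
    · exact Or.inl ha
    · exact Or.inl ha
    · exact Or.inl hb
    · refine Or.inr ⟨W ∩ W', Filter.inter_mem hW hW', fun l hl h => ?_⟩
      rw [Pi.add_apply, ha l hl fun x hx => (h x hx).1, hb l hl fun x hx => (h x hx).2, add_zero]
  neg_mem' := by
    rintro a (ha | ⟨W, hW, ha⟩)
    · exact Or.inl ha
    · exact Or.inr ⟨W, hW, fun l hl h => by rw [Pi.neg_apply, ha l hl h, neg_zero]⟩

theorem mem_Nz [TopologicalSpace Ω] {z : Ω} {n : ℕ} {c : Ch Ω} : c ∈ Nz z n ↔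
    n = 0 ∨ ∃ W ∈ 𝓝 z, ∀ l : List Ω, l.length = n → (∀ x ∈ l, x ∈ W) → c l = 0 := Iff.rfl

theorem mem_Nz_of [TopologicalSpace Ω] {z : Ω} {n : ℕ} {c : Ch Ω} {W : Set Ω} (hW : W ∈ 𝓝 z)
    (h : ∀ l : List Ω, l.length = n → (∀ x ∈ l, x ∈ W) → c l = 0) : c ∈ Nz z n :=
  Or.inr ⟨W, hW, h⟩

theorem exists_of_mem_Nz [TopologicalSpace Ω] {z : Ω} {n : ℕ} {c : Ch Ω} (hn : n ≠ 0)
    (h : c ∈ Nz z n) :
    ∃ W : Set Ω, IsOpen W ∧ z ∈ W ∧ ∀ l : List Ω, l.length = n → (∀ x ∈ l, x ∈ W) → c l = 0 := by
  rcases h with h | ⟨W, hW, h⟩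
  · exact absurd h hn
  · obtain ⟨U, hU, hUo, hzU⟩ := mem_nhds_iff.1 hW
    exact ⟨U, hUo, hzU, fun l hl hx => h l hl fun x hx' => hU (hx x hx')⟩

/-- Alexander-Spanier germs as a soft complex. -/
noncomputable def AS (Ω : Type*) [MetricSpace Ω] : SoftCx Ω (Ch Ω) where
  D := DD
  N := Nz
  N_zero z k := Or.inl rfl
  D_mem z n k hk := by
    rcases Nat.eq_zero_or_pos n with rfl | hn
    · exact mem_Nz_of Filter.univ_mem fun l hl _ => dd_short (by omega)
    · obtain ⟨W, hW, hzW, h⟩ := exists_of_mem_Nz hn.ne' hk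
      refine mem_Nz_of (hW.mem_nhds hzW) fun l hl hx => ?_
      rw [DD_apply, dd_apply (by omega)]
      exact d_eq_zero l fun l' hl' hs => h l' (by omega) fun x hx' => hx x (hs hx')
  DD_mem z n k := by
    rw [DD_apply, DD_apply, dd_dd]; exact zero_mem _
  isOpen_N n k := by
    rcases Nat.eq_zero_or_pos n with rfl | hn
    · have : {z : Ω | k ∈ Nz z 0} = univ := by
        ext z; simp [mem_Nz]
      rw [this]; exact isOpen_univ
    · rw [isOpen_iff_forall_mem_open]
      intro z hz
      obtain ⟨W, hW, hzW, h⟩ := exists_of_mem_Nz hn.ne' hz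
      exact ⟨W, fun w hw => mem_Nz_of (hW.mem_nhds hw) h, hW, hzW⟩
  soft n k Z₁ Z₂ h₁ h₂ h := by
    classical
    rcases Nat.eq_zero_or_pos n with rfl | hn
    · exact ⟨0, fun z _ => Or.inl rfl, fun z _ => Or.inl rfl⟩
    -- the set of points closer to `Z₂` than to `Z₁`
    obtain ⟨U, hU1, hU2⟩ : ∃ U : Set Ω, (∀ z ∈ Z₁, z ∉ Z₂ → Uᶜ ∈ 𝓝 z) ∧
        (∀ z ∈ Z₂, z ∉ Z₁ → U ∈ 𝓝 z) := by
      rcases Z₁.eq_empty_or_nonempty with rfl | hne1
      · exact ⟨univ, by simp, fun _ _ _ => Filter.univ_mem⟩
      rcases Z₂.eq_empty_or_nonempty with rfl | hne2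
      · refine ⟨∅, fun _ _ _ => by rw [compl_empty]; exact Filter.univ_mem, by simp⟩
      refine ⟨{x | Metric.infDist x Z₂ < Metric.infDist x Z₁}, ?_, ?_⟩
      · intro z hz hz2
        have h3 : Metric.infDist z Z₁ < Metric.infDist z Z₂ := by
          rw [Metric.infDist_zero_of_mem hz]
          exact (h₂.notMem_iff_infDist_pos hne2).1 hz2
        have ho : IsOpen {x | Metric.infDist x Z₁ < Metric.infDist x Z₂} :=
          isOpen_lt (Metric.continuous_infDist_pt _) (Metric.continuous_infDist_pt _)
        refine Filter.mem_of_superset (ho.mem_nhds h3) fun x hx hx' => ?_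
        have hx1 : Metric.infDist x Z₁ < Metric.infDist x Z₂ := hx
        have hx2 : Metric.infDist x Z₂ < Metric.infDist x Z₁ := hx'
        exact lt_asymm hx1 hx2
      · intro z hz hz1
        have h3 : Metric.infDist z Z₂ < Metric.infDist z Z₁ := by
          rw [Metric.infDist_zero_of_mem hz]
          exact (h₁.notMem_iff_infDist_pos hne1).1 hz1
        exact (isOpen_lt (Metric.continuous_infDist_pt _)
          (Metric.continuous_infDist_pt _)).mem_nhds h3
    refine ⟨fun l => if l.head? ∈ some '' U then k l else 0, ?_, ?_⟩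
    · intro z hz
      by_cases hz2 : z ∈ Z₂
      · obtain ⟨W, hW, hzW, hk⟩ := exists_of_mem_Nz hn.ne' (h z ⟨hz, hz2⟩)
        refine mem_Nz_of (hW.mem_nhds hzW) fun l hl hx => ?_
        simp only [hk l hl hx, ite_self]
      · refine mem_Nz_of (hU1 z hz hz2) fun l hl hx => ?_
        match l, hl with
        | [], hl => simp at hl; omega
        | x :: l, _ =>
          have : x ∉ U := hx x (by simp)
          simp [this]
    · intro z hz
      by_cases hz1 : z ∈ Z₁
      · obtain ⟨W, hW, hzW, hk⟩ := exists_of_mem_Nz hn.ne' (h z ⟨hz1, hz⟩)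
        refine mem_Nz_of (hW.mem_nhds hzW) fun l hl hx => ?_
        simp only [Pi.sub_apply, hk l hl hx, ite_self, sub_zero]
      · refine mem_Nz_of (hU2 z hz hz1) fun l hl hx => ?_
        match l, hl with
        | [], hl => simp at hl; omega
        | x :: l, _ =>
          have : x ∈ U := hx x (by simp)
          simp [this]

@[simp] theorem AS_D [MetricSpace Ω] (c : Ch Ω) : (AS Ω).D c = dd c := rfl

theorem AS_N [MetricSpace Ω] (z : Ω) (n : ℕ) : (AS Ω).N z n = Nz z n := rfl

theorem one_D_mem [MetricSpace Ω] (z : Ω) : (AS Ω).D one ∈ (AS Ω).N z 2 :=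
  mem_Nz_of Filter.univ_mem fun l hl _ => dd_one l hl

theorem pb_mem_Nz {Ω Ω' : Type*} [TopologicalSpace Ω] [TopologicalSpace Ω'] {g : Ω → Ω'} {x : Ω}
    (hg : ContinuousAt g x) {n : ℕ} {c : Ch Ω'} (hc : c ∈ Nz (g x) n) : pb g c ∈ Nz x n := by
  rcases Nat.eq_zero_or_pos n with rfl | hn
  · exact Or.inl rfl
  obtain ⟨W, hW, hxW, h⟩ := exists_of_mem_Nz hn.ne' hc
  refine mem_Nz_of (hg.preimage_mem_nhds (hW.mem_nhds hxW)) fun l hl hx => ?_
  refine h _ (by simpa using hl) ?_
  intro y hy
  obtain ⟨z, hz, rfl⟩ := List.mem_map.1 hy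
  exact hx z hz

end germ

end Pool.Agent.Helper775.Tight
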