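import Pool.Agent.Helper775.Tight.Homot

set_option autoImplicit false

namespace Pool.Agent.Helper775.Tight

open Set Topology SoftCx

/-- the `(k-1)`-sphere in the first `k` coordinates. -/
def Sp (M k : ℕ) : Set (EuclideanSpace ℝ (Fin M)) := {x | ‖x‖ = 1 ∧ ∀ i : Fin M, k ≤ i.val → x i = 0}






/-- signed hemisphere -/
def Hm (M k : ℕ) (hk : k < M) (σ : ℝ) : Set (EuclideanSpace ℝ (Fin M)) :=
  {x | x ∈ Sp M (k + 1) ∧ 0 ≤ σ * x ⟨k, hk⟩}

theorem Sp_compact (M k : ℕ) : IsCompact (Sp M k) := by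
  apply Metric.isCompact_of_isClosed_isBounded
  · have : Sp M k = {x | ‖x‖ = 1} ∩ ⋂ (i : Fin M) (_ : k ≤ i.val), {x | x i = 0} := by
      ext x
      simp only [Sp, Set.mem_setOf_eq, Set.mem_inter_iff, Set.mem_iInter]
    rw [this]
    refine (isClosed_eq continuous_norm continuous_const).inter ?_
    refine isClosed_iInter fun i => isClosed_iInter fun _ => isClosed_eq ?_ continuous_const
    fun_prop
  · rw [isBounded_iff_forall_norm_le]
    exact ⟨1, fun x hx => hx.1.le⟩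

theorem Hm_compact (M k : ℕ) (hk : k < M) (σ : ℝ) : IsCompact (Hm M k hk σ) := by
  have : Hm M k hk σ = Sp M (k + 1) ∩ {x | 0 ≤ σ * x ⟨k, hk⟩} := rfl
  rw [this]
  apply (Sp_compact M (k + 1)).inter_right
  apply isClosed_le continuous_const
  fun_prop

theorem Hm_acy (M k : ℕ) (hk : k < M) (σ : ℝ) (hσ : σ * σ = 1) :
    (AS (EuclideanSpace ℝ (Fin M))).Acy one (Hm M k hk σ) := by
  set p : EuclideanSpace ℝ (Fin M) := EuclideanSpace.single (⟨k, hk⟩ : Fin M) σ with hp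
  have hσ1 : |σ| = 1 := by
    rw [← abs_mul_abs_self σ] at hσ
    have := abs_nonneg σ
    nlinarith
  have hpn : ‖p‖ = 1 := by
    rw [hp, EuclideanSpace.norm_single, Real.norm_eq_abs, hσ1]
  have hpk : p ⟨k, hk⟩ = σ := by rw [hp]; simp
  have hpi : ∀ i : Fin M, k + 1 ≤ i.val → p i = 0 := by
    intro i hi
    rw [hp]
    have : i ≠ (⟨k, hk⟩ : Fin M) := by
      intro h
      rw [h] at hi
      simp at hi
    simp [this]
  have hpm : p ∈ Hm M k hk σ := ⟨⟨hpn, hpi⟩, by rw [hpk, hσ]; norm_num⟩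
  set Y : ℝ → EuclideanSpace ℝ (Fin M) → EuclideanSpace ℝ (Fin M) := fun t x => (1 - t) • x + t • p with hY
  have hYi : ∀ t x i, Y t x i = (1 - t) * x i + t * p i := fun t x i => rfl
  have hYk : ∀ t x, σ * Y t x ⟨k, hk⟩ = (1 - t) * (σ * x ⟨k, hk⟩) + t := by
    intro t x
    rw [hYi, hpk]
    linear_combination t * hσ
  have hY0 : ∀ t ∈ Icc (0:ℝ) 1, ∀ x ∈ Hm M k hk σ, Y t x ≠ 0 := by
    intro t ht x hx h0
    have h1 := hYk t x
    rw [h0] at h1
    have h2 : σ * (0 : EuclideanSpace ℝ (Fin M)) ⟨k, hk⟩ = 0 := by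
      show σ * (0:ℝ) = 0
      rw [mul_zero]
    rw [h2] at h1
    have h3 : 0 ≤ (1 - t) * (σ * x ⟨k, hk⟩) := mul_nonneg (by linarith [ht.2]) hx.2
    have ht0 : t = 0 := by linarith [ht.1]
    have h4 : Y t x = x := by rw [hY, ht0]; simp
    rw [h0] at h4
    have := hx.1.1
    rw [← h4, norm_zero] at this
    norm_num at this
  refine acy_of_contract (Hm_compact M k hk σ) (fun t x => ‖Y t x‖⁻¹ • Y t x) p ?_ ?_ ?_ ?_ hpm
  · intro t ht x hx
    have hc : Continuous (fun q : ℝ × EuclideanSpace ℝ (Fin M) => Y q.1 q.2) := by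
      rw [hY]
      fun_prop
    exact (hc.norm.continuousAt.inv₀ (norm_ne_zero_iff.2 (hY0 t ht x hx))).smul hc.continuousAt
  · intro t ht x hx
    have hn : 0 < ‖Y t x‖ := norm_pos_iff.2 (hY0 t ht x hx)
    refine ⟨⟨?_, ?_⟩, ?_⟩
    · rw [norm_smul, norm_inv, norm_norm, inv_mul_cancel₀ hn.ne']
    · intro i hi
      show ‖Y t x‖⁻¹ * Y t x i = 0
      rw [hYi, hx.1.2 i hi, hpi i hi]
      ring
    · show 0 ≤ σ * (‖Y t x‖⁻¹ * Y t x ⟨k, hk⟩)
      have h1 := hYk t x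
      have h3 : 0 ≤ (1 - t) * (σ * x ⟨k, hk⟩) := mul_nonneg (by linarith [ht.2]) hx.2
      have h4 : 0 ≤ σ * Y t x ⟨k, hk⟩ := by linarith [ht.1]
      have : σ * (‖Y t x‖⁻¹ * Y t x ⟨k, hk⟩) = ‖Y t x‖⁻¹ * (σ * Y t x ⟨k, hk⟩) := by ring
      rw [this]
      exact mul_nonneg (inv_nonneg.2 hn.le) h4
  · intro x hx
    have h4 : Y 0 x = x := by simp [hY]
    simp only [h4, hx.1.1, inv_one, one_smul]
  · intro x hx
    have h4 : Y 1 x = p := by simp [hY]
    simp only [h4, hpn, inv_one, one_smul]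

/-- hemispheres -/
theorem hemi_facts {M k : ℕ} (hk : k < M) : ∃ A B : Set (EuclideanSpace ℝ (Fin M)),
    IsCompact A ∧ IsCompact B ∧ A ∪ B = Sp M (k + 1) ∧ A ∩ B = Sp M k ∧
    (AS (EuclideanSpace ℝ (Fin M))).Acy one A ∧ (AS (EuclideanSpace ℝ (Fin M))).Acy one B := by
  refine ⟨Hm M k hk 1, Hm M k hk (-1), Hm_compact M k hk 1, Hm_compact M k hk (-1), ?_, ?_,
    Hm_acy M k hk 1 (by norm_num), Hm_acy M k hk (-1) (by norm_num)⟩
  · ext x
    constructor
    · rintro (h | h)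
      · exact h.1
      · exact h.1
    · intro hx
      rcases le_total 0 (x ⟨k, hk⟩) with h | h
      · exact Or.inl ⟨hx, by rw [one_mul]; exact h⟩
      · exact Or.inr ⟨hx, by linarith⟩
  · ext x
    constructor
    · rintro ⟨⟨h1, h2⟩, ⟨-, h3⟩⟩
      refine ⟨h1.1, fun i hi => ?_⟩
      rcases Nat.lt_or_ge k i.val with h | h
      · exact h1.2 i h
      · have : i = ⟨k, hk⟩ := Fin.ext (le_antisymm h hi)
        rw [this]
        linarith
    · intro hx
      have h0 : x ⟨k, hk⟩ = 0 := hx.2 _ (le_refl k)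
      have h1 : x ∈ Sp M (k + 1) := ⟨hx.1, fun i hi => hx.2 i (by omega)⟩
      exact ⟨⟨h1, by rw [h0]; norm_num⟩, ⟨h1, by rw [h0]; norm_num⟩⟩



end Pool.Agent.Helper775.Tight
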