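import Pool.Agent.Helper775.Tight.Top

set_option autoImplicit false

namespace Pool.Agent.Helper775.Tight



open Set Topology SoftCx

theorem pr_witness {Ω Ω' : Type*} [MetricSpace Ω] [MetricSpace Ω'] {g₁ g₂ : Ω → Ω'}
    {n : ℕ} (hn : 1 ≤ n) {c : Ch Ω'} {V : Set Ω'} {U : Set Ω} {z : Ω} (hU : U ∈ 𝓝 z)
    (hV : ∀ l : List Ω', l.length = n + 1 → (∀ x ∈ l, x ∈ V) → dd c l = 0)
    (h₁ : ∀ y ∈ U, g₁ y ∈ V) (h₂ : ∀ y ∈ U, g₂ y ∈ V) :
    (pb g₁ c - pb g₂ c) - (AS Ω).D (pr g₁ g₂ c) ∈ (AS Ω).N z n := by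
  refine mem_Nz_of hU fun l hl hx => ?_
  have h3 := prism' g₁ g₂ c l (by omega)
  rw [pr_eq_zero g₁ g₂ V n (dd c) (fun l' hl' hx' => hV l' hl' hx') l hl
    (fun x hx' => ⟨h₁ x (hx x hx'), h₂ x (hx x hx')⟩)] at h3
  rw [Pi.sub_apply, Pi.sub_apply, AS_D]
  have h4 := add_self2 (pb g₂ c l)
  have h5 := add_self2 (dd (pr g₁ g₂ c) l)
  linear_combination -h3 - h4

theorem cob_pb_homotopy {Ω Ω' : Type*} [MetricSpace Ω] [MetricSpace Ω'] {F : Set Ω} (hF : IsCompact F) (H : ℝ → Ω → Ω')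
    (hH : ∀ t ∈ Icc (0 : ℝ) 1, ∀ x ∈ F, ContinuousAt (fun p : ℝ × Ω => H p.1 p.2) (t, x))
    {F' : Set Ω'} (hF' : ∀ t ∈ Icc (0 : ℝ) 1, ∀ x ∈ F, H t x ∈ F') {n : ℕ} {c : Ch Ω'}
    (hc : (AS Ω').Coc F' n c) : (AS Ω).Cob F n (pb (H 0) c - pb (H 1) c) := by
  rcases Nat.eq_zero_or_pos n with rfl | hn
  · exact cob_index_zero _ _
  refine isPreconnected_Icc.induction₂ (s := Icc (0 : ℝ) 1)
    (fun s t => (AS Ω).Cob F n (pb (H s) c - pb (H t) c)) ?_ ?_ ?_
    (left_mem_Icc.2 zero_le_one) (right_mem_Icc.2 zero_le_one)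
  · intro t ht
    have key : ∀ᶠ s in 𝓝 t, ∀ z ∈ F,
        (pb (H t) c - pb (H s) c) - (AS Ω).D (pr (H t) (H s) c) ∈ (AS Ω).N z n := by
      apply hF.eventually_forall_of_forall_eventually
      intro x hx
      obtain ⟨V, hV, hxV, h⟩ := exists_of_mem_Nz (by omega) (hc _ (hF' t ht x hx))
      have hA : (fun p : ℝ × Ω => H p.1 p.2) ⁻¹' V ∈ 𝓝 (t, x) :=
        (hH t ht x hx).preimage_mem_nhds (hV.mem_nhds hxV)
      rw [mem_nhds_prod_iff'] at hA
      obtain ⟨I, U, hI, htI, hU, hxU, hsub⟩ := hA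
      have hnb : I ×ˢ U ∈ 𝓝 (t, x) := prod_mem_nhds (hI.mem_nhds htI) (hU.mem_nhds hxU)
      filter_upwards [hnb] with p hp
      refine pr_witness hn (hU.mem_nhds hp.2) h ?_ ?_
      · intro y hy
        exact hsub (show (t, y) ∈ I ×ˢ U from ⟨htI, hy⟩)
      · intro y hy
        exact hsub (show (p.1, y) ∈ I ×ˢ U from ⟨hp.1, hy⟩)
    apply nhdsWithin_le_nhds
    filter_upwards [key] with s hs
    exact ⟨_, hs⟩
  · intro x y z _ _ _ h1 h2
    have := h1.add h2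
    simpa using this
  · intro x y _ _ h1
    have := h1.neg
    simpa using this

theorem acy_of_contract {Ω : Type*} [MetricSpace Ω] {F : Set Ω} (hF : IsCompact F) (H : ℝ → Ω → Ω) (p : Ω)
    (hH : ∀ t ∈ Icc (0 : ℝ) 1, ∀ x ∈ F, ContinuousAt (fun p : ℝ × Ω => H p.1 p.2) (t, x))
    (hHF : ∀ t ∈ Icc (0 : ℝ) 1, ∀ x ∈ F, H t x ∈ F) (h0 : ∀ x ∈ F, H 0 x = x)
    (h1 : ∀ x ∈ F, H 1 x = p) (hp : p ∈ F) : (AS Ω).Acy one F := by
  have m0 : (0 : ℝ) ∈ Icc (0 : ℝ) 1 := left_mem_Icc.2 zero_le_one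
  have m1 : (1 : ℝ) ∈ Icc (0 : ℝ) 1 := right_mem_Icc.2 zero_le_one
  have hcont : ∀ t ∈ Icc (0 : ℝ) 1, ∀ x ∈ F, ContinuousAt (H t) x := by
    intro t ht x hx
    have h2 : ContinuousAt (fun y : Ω => (t, y)) x := by fun_prop
    exact ContinuousAt.comp (x := x) (f := fun y : Ω => (t, y))
      (g := fun p : ℝ × Ω => H p.1 p.2) (hH t ht x hx) h2
  have main : ∀ n c, (AS Ω).Coc F n c → (AS Ω).Cob F n (c - pb (fun _ => p) c) := by
    intro n c hc
    have a1 := cob_pb_sub (F := F) (g₁ := id) (g₂ := H 0) (fun x _ => continuousAt_id)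
      (hcont 0 m0) (fun x hx => (h0 x hx).symm) (mapsTo_id F) hc
    have a2 := cob_pb_homotopy hF H hH hHF hc
    have a3 := cob_pb_sub (F := F) (g₁ := H 1) (g₂ := fun _ => p) (hcont 1 m1)
      (fun x _ => continuousAt_const) (fun x hx => h1 x hx) (fun x hx => hHF 1 m1 x hx) hc
    have e1 : pb (id : Ω → Ω) c = c := by funext l; simp [pb]
    rw [e1] at a1
    have := (a1.add a2).add a3
    simpa using this
  have hmaps : MapsTo (fun _ : Ω => p) F {p} := fun _ _ => rfl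
  refine ⟨not_one_mem ⟨p, hp⟩, ?_, ?_⟩
  · intro c hc
    have b1 := cob_one.1 (main 1 c hc)
    have b2 : (AS Ω).Coc {p} 1 c := hc.mono (by simpa using hp)
    rcases (acy_singleton p).2.1 c b2 with b3 | b3
    · left
      intro z hz
      have b4 : pb (fun _ : Ω => p) c ∈ (AS Ω).N z 1 :=
        pb_mem_Nz (g := fun _ : Ω => p) (x := z) continuousAt_const (b3 p rfl)
      have := add_mem (b1 z hz) b4
      simpa using this
    · right
      intro z hz
      have b4 : pb (fun _ : Ω => p) (c - one) ∈ (AS Ω).N z 1 :=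
        pb_mem_Nz (g := fun _ : Ω => p) (x := z) continuousAt_const (b3 p rfl)
      have := add_mem (b1 z hz) b4
      have e : c - pb (fun _ : Ω => p) c + pb (fun _ : Ω => p) (c - one) = c - one := by
        funext l; simp [pb, one]
      rwa [e] at this
  · intro n hn c hc
    have b2 : (AS Ω).Coc {p} n c := hc.mono (by simpa using hp)
    have b3 := (acy_singleton p).2.2 n hn c b2
    have b4 := cob_pb (F := F) (g := fun _ : Ω => p) (fun x _ => continuousAt_const) hmaps b3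
    have := (main n c hc).add b4
    simpa using this



end Pool.Agent.Helper775.Tight
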