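import Pool.Agent.Helper775.Tight.Germ

/-! Pullback and cup product as morphisms of soft complexes. -/

set_option autoImplicit false

namespace Pool.Agent.Helper775.Tight

open Set Topology

section cup

variable {Ω : Type*}

/-- cup product, `a` in degree `d` (index `d + 1`). -/
def cup (d : ℕ) (a b : Ch Ω) : Ch Ω := fun l =>
  if d < l.length then a (l.take (d + 1)) * b (l.drop d) else 0

theorem cup_of_lt {d : ℕ} {a b : Ch Ω} {l : List Ω} (h : d < l.length) :
    cup d a b l = a (l.take (d + 1)) * b (l.drop d) := if_pos h

theorem cup_of_le {d : ℕ} {a b : Ch Ω} {l : List Ω} (h : l.length ≤ d) :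
    cup d a b l = 0 := if_neg (by omega)

theorem cup_add_right (d : ℕ) (a b b' : Ch Ω) : cup d a (b + b') = cup d a b + cup d a b' := by
  funext l
  by_cases h : d < l.length
  · simp only [Pi.add_apply, cup_of_lt h]; ring
  · simp only [Pi.add_apply, cup_of_le (not_lt.1 h)]; ring

theorem cup_cons (d : ℕ) (a b : Ch Ω) (x : Ω) (l : List Ω) :
    cup (d + 1) a b (x :: l) = cup d (fun l' => a (x :: l')) b l := by
  by_cases h : d < l.length
  · rw [cup_of_lt h, cup_of_lt (by simp; omega)]
    simp
  · rw [cup_of_le (not_lt.1 h), cup_of_le (by simp; omega)]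

theorem cup_zero_cons (a b : Ch Ω) (x : Ω) (l : List Ω) :
    cup 0 a b (x :: l) = a [x] * b (x :: l) := by
  rw [cup_of_lt (by simp)]
  simp

theorem cup_add_left (d : ℕ) (a a' b : Ch Ω) : cup d (a + a') b = cup d a b + cup d a' b := by
  funext l
  by_cases h : d < l.length
  · simp only [Pi.add_apply, cup_of_lt h]; ring
  · simp only [Pi.add_apply, cup_of_le (not_lt.1 h)]; ring

/-- Leibniz rule, augmented version, on long lists. -/
theorem leibniz_aux (d : ℕ) (a b : Ch Ω) (l : List Ω) (hl : d + 2 ≤ l.length) :
    Tight.d (cup d a b) l = cup (d + 1) (Tight.d a) b l + cup d a (Tight.d b) l := by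
  induction d generalizing a l with
  | zero =>
    match l, hl with
    | x :: y :: l, _ =>
      have h1 : (fun l' => cup 0 a b (x :: l')) = fun l' => a [x] * b (x :: l') := by
        funext l'; exact cup_zero_cons a b x l'
      have h2 : ∀ (t : ZMod 2) (c : Ch Ω) (l : List Ω), Tight.d (fun l' => t * c l') l =
          t * Tight.d c l := by
        intro t c l
        induction l generalizing c with
        | nil => simp
        | cons z l ih =>
          rw [d_cons, d_cons, ih (fun l' => c (z :: l'))]
          ring
      rw [d_cons, h1, h2 (a [x]) (fun l' => b (x :: l')), cup_zero_cons, cup_cons, cup_zero_cons,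
        cup_zero_cons, d_cons b]
      have h3 : Tight.d a [x, y] = a [y] + a [x] := by
        simp [d_cons]
      rw [h3]
      have := add_self2 (a [x] * b (y :: l))
      linear_combination -this
  | succ d ih =>
    match l, hl with
    | x :: l, hl =>
      have hl' : d + 2 ≤ l.length := by simpa using hl
      have h1 : (fun l' => cup (d + 1) a b (x :: l')) = cup d (fun l' => a (x :: l')) b := by
        funext l'; exact cup_cons d a b x l'
      have h2 : (fun l' => Tight.d a (x :: l')) = a + Tight.d (fun l' => a (x :: l')) := by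
        funext l'; simp [d_cons]
      rw [d_cons, h1, ih _ _ hl', cup_cons, h2, cup_add_left, cup_cons]
      simp only [Pi.add_apply]
      ring

theorem leibniz (d : ℕ) (a b : Ch Ω) (l : List Ω) :
    dd (cup d a b) l = cup (d + 1) (dd a) b l + cup d a (dd b) l := by
  rcases Nat.lt_or_ge l.length (d + 2) with h | h
  · rw [cup_of_le (by omega : l.length ≤ d + 1)]
    have h2 : cup d a (dd b) l = 0 := by
      rcases Nat.lt_or_ge d l.length with h3 | h3
      · rw [cup_of_lt h3, dd_short (by simp; omega), mul_zero]
      · exact cup_of_le h3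
    rw [h2, add_zero]
    rcases Nat.lt_or_ge l.length 2 with h4 | h4
    · exact dd_short (by omega)
    · rw [dd_apply h4]
      exact d_eq_zero l fun l' hl' _ => cup_of_le (by omega)
  · rw [dd_apply (by omega), leibniz_aux d a b l h, cup_of_lt (by omega), cup_of_lt (by omega),
      cup_of_lt (by omega), cup_of_lt (by omega), dd_apply (by simp; omega),
      dd_apply (by simp; omega)]

end cup

section mor

variable {X Y : Type*} [MetricSpace X] [MetricSpace Y] (p : X → Y) (hp : Continuous p)
  (G : Set X) (hG : IsCompact G)

/-- the push-forward of Alexander-Spanier germs along `p` restricted to `G`. -/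
noncomputable abbrev PF : SoftCx Y (Ch X) := SoftCx.push (AS X) p hp G hG

/-- pullback along `p`. -/
noncomputable def phi : SoftCx.Mor (AS Y) (PF p hp G hG) where
  f := PB p
  mem z n k hk := by
    rw [SoftCx.mem_push_N]
    intro x hx
    have e : p x = z := hx.2
    rw [PB_apply, AS_N]
    rw [AS_N, ← e] at hk
    exact pb_mem_Nz hp.continuousAt hk
  comm z n k := by
    have : (PF p hp G hG).D (PB p k) - PB p ((AS Y).D k) = 0 := by
      change dd (pb p k) - pb p (dd k) = 0
      rw [dd_pb, sub_self]
    rw [this]; exact zero_mem _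

/-- cup product with `a` after pullback along `p`. -/
noncomputable def lam (d : ℕ) (a : Ch X) (ha : (AS X).Coc G (d + 1) a) :
    SoftCx.Mor ((AS Y).shift d) (PF p hp G hG) where
  f := { toFun := fun b => cup d a (pb p b)
         map_zero' := by
           funext l
           by_cases h : d < l.length
           · rw [cup_of_lt h]; simp [pb]
           · rw [cup_of_le (not_lt.1 h)]; rfl
         map_add' := fun b b' => cup_add_right d a (pb p b) (pb p b') }
  mem z n k hk := by
    rw [SoftCx.mem_push_N]
    intro x hx
    have e : p x = z := hx.2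
    change k ∈ Nz z (n - d) at hk
    change cup d a (pb p k) ∈ Nz x n
    rw [← e] at hk
    have hk' := pb_mem_Nz hp.continuousAt hk
    rcases Nat.lt_or_ge d n with h | h
    · obtain ⟨W, hW, hxW, h3⟩ := exists_of_mem_Nz (by omega) hk'
      refine mem_Nz_of (hW.mem_nhds hxW) fun l hl hx => ?_
      rw [cup_of_lt (by omega), h3 _ (by simp; omega) fun y hy => hx y (List.mem_of_mem_drop hy),
        mul_zero]
    · exact mem_Nz_of Filter.univ_mem fun l hl _ => cup_of_le (by omega)
  comm z n k := by
    rw [SoftCx.mem_push_N]
    intro x hx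
    change dd (cup d a (pb p k)) - cup d a (pb p (dd k)) ∈ Nz x n
    have e : dd (cup d a (pb p k)) - cup d a (pb p (dd k)) = cup (d + 1) (dd a) (pb p k) := by
      funext l
      rw [Pi.sub_apply, leibniz, dd_pb, add_sub_cancel_right]
    rw [e]
    obtain ⟨W, hW, hxW, h3⟩ := exists_of_mem_Nz (by omega) (ha x hx.1)
    refine mem_Nz_of (hW.mem_nhds hxW) fun l hl hx => ?_
    rcases Nat.lt_or_ge (d + 1) l.length with h | h
    · rw [cup_of_lt h]
      have := h3 (l.take (d + 1 + 1)) (by simp; omega) fun y hy => hx y (List.mem_of_mem_take hy)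
      rw [AS_D] at this
      rw [this, zero_mul]
    · exact cup_of_le h

@[simp] theorem phi_f (c : Ch Y) : (phi p hp G hG).f c = pb p c := rfl

@[simp] theorem lam_f (d : ℕ) (a : Ch X) (ha : (AS X).Coc G (d + 1) a) (b : Ch Y) :
    (lam p hp G hG d a ha).f b = cup d a (pb p b) := rfl

theorem lam_one_mem (d : ℕ) (a : Ch X) (ha : (AS X).Coc G (d + 1) a) (w : Y) :
    (lam p hp G hG d a ha).f one - a ∈ (PF p hp G hG).N w (d + 1) := by
  rw [SoftCx.mem_push_N]
  intro x hx
  refine mem_Nz_of Filter.univ_mem fun l hl _ => ?_
  rw [lam_f, Pi.sub_apply, cup_of_lt (by omega), List.take_of_length_le (by omega)]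
  simp [pb, one]

end mor

end Pool.Agent.Helper775.Tight
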