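import Pool.Agent.Helper775.Tight.SgA

/-! Germs of singular cochains as a soft complex; comparison with Alexander-Spanier germs. -/

set_option autoImplicit false

namespace Pool.Agent.Helper775.Tight

open Set Topology SoftCx

section

variable {P : Type*} [TopologicalSpace P]

noncomputable def SDD : SCh P →+ SCh P where
  toFun := sdf
  map_zero' := by
    funext n σ
    cases n with
    | zero => rfl
    | succ n => simp [sdf]
  map_add' s t := by
    funext n σ
    cases n with
    | zero => simp [sdf]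
    | succ n => simp [sdf, Finset.sum_add_distrib]

/-- singular cochains which vanish (in dimension `n - 1`) on all small simplices near `z`. -/
def SNz (z : P) : ℕ → AddSubgroup (SCh P)
  | 0 => ⊤
  | (n + 1) =>
    { carrier := {s | ∃ W ∈ 𝓝 z, ∀ σ : Sing P n, range σ ⊆ W → s n σ = 0}
      zero_mem' := ⟨univ, Filter.univ_mem, fun _ _ => rfl⟩
      add_mem' := by
        rintro a b ⟨W, hW, ha⟩ ⟨W', hW', hb⟩
        refine ⟨W ∩ W', Filter.inter_mem hW hW', fun σ hσ => ?_⟩
        rw [Pi.add_apply, Pi.add_apply, ha σ (hσ.trans inter_subset_left),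
          hb σ (hσ.trans inter_subset_right), add_zero]
      neg_mem' := by
        rintro a ⟨W, hW, ha⟩
        refine ⟨W, hW, fun σ hσ => ?_⟩
        rw [Pi.neg_apply, Pi.neg_apply, ha σ hσ, neg_zero] }

theorem mem_SNz_succ {z : P} {n : ℕ} {s : SCh P} : s ∈ SNz z (n + 1) ↔
    ∃ W ∈ 𝓝 z, ∀ σ : Sing P n, range σ ⊆ W → s n σ = 0 := Iff.rfl

end

/-- germs of singular cochains as a soft complex. -/
noncomputable def Sg (P : Type*) [MetricSpace P] : SoftCx P (SCh P) where
  D := SDD
  N := SNz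
  N_zero z k := trivial
  D_mem z n k hk := by
    rcases n with _ | n
    · exact ⟨univ, Filter.univ_mem, fun σ _ => rfl⟩
    · obtain ⟨W, hW, h⟩ := hk
      refine ⟨W, hW, fun σ hσ => ?_⟩
      change ∑ i : Fin (n + 2), k n (sface n i σ) = 0
      refine Finset.sum_eq_zero fun i _ => h _ ?_
      rintro _ ⟨x, rfl⟩
      exact hσ ⟨_, rfl⟩
  DD_mem z n k := by
    have : SDD (SDD k) = 0 := sdf_sdf k
    rw [this]; exact zero_mem _
  isOpen_N n k := by
    rcases n with _ | n
    · have : {z : P | k ∈ SNz z 0} = univ := by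
        ext z; simp [SNz]
      rw [this]; exact isOpen_univ
    · rw [isOpen_iff_forall_mem_open]
      rintro z ⟨W, hW, h⟩
      obtain ⟨U, hUW, hU, hzU⟩ := mem_nhds_iff.1 hW
      exact ⟨U, fun w hw => ⟨U, hU.mem_nhds hw, fun σ hσ => h σ (hσ.trans hUW)⟩, hU, hzU⟩
  soft n k Z₁ Z₂ h₁ h₂ h := by
    classical
    rcases n with _ | n
    · exact ⟨0, fun z _ => trivial, fun z _ => trivial⟩
    obtain ⟨U, hU1, hU2⟩ : ∃ U : Set P, (∀ z ∈ Z₁, z ∉ Z₂ → Uᶜ ∈ 𝓝 z) ∧
        (∀ z ∈ Z₂, z ∉ Z₁ → U ∈ 𝓝 z) := by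
      rcases Z₁.eq_empty_or_nonempty with rfl | hne1
      · exact ⟨univ, by simp, fun _ _ _ => Filter.univ_mem⟩
      rcases Z₂.eq_empty_or_nonempty with rfl | hne2
      · refine ⟨∅, fun _ _ _ => by rw [compl_empty]; exact Filter.univ_mem, by simp⟩
      refine ⟨{x | Metric.infDist x Z₂ < Metric.infDist x Z₁}, ?_, ?_⟩
      · intro z hz hz2
        have h3 : Metric.infDist z Z₁ < Metric.infDist z Z₂ := by
          rw [Metric.infDist_zero_of_mem hz]
          exact (h₂.notMem_iff_infDist_pos hne2).1 hz2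
        have ho : IsOpen {x | Metric.infDist x Z₁ < Metric.infDist x Z₂} :=
          isOpen_lt (Metric.continuous_infDist_pt _) (Metric.continuous_infDist_pt _)
        refine Filter.mem_of_superset (ho.mem_nhds h3) fun x hx hx' => ?_
        have hx1 : Metric.infDist x Z₁ < Metric.infDist x Z₂ := hx
        have hx2 : Metric.infDist x Z₂ < Metric.infDist x Z₁ := hx'
        exact lt_asymm hx1 hx2
      · intro z hz hz1
        have h3 : Metric.infDist z Z₂ < Metric.infDist z Z₁ := by
          rw [Metric.infDist_zero_of_mem hz]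
          exact (h₁.notMem_iff_infDist_pos hne1).1 hz1
        exact (isOpen_lt (Metric.continuous_infDist_pt _)
          (Metric.continuous_infDist_pt _)).mem_nhds h3
    refine ⟨fun m σ => if σ (stdSimplex.vertex 0) ∈ U then k m σ else 0, ?_, ?_⟩
    · intro z hz
      by_cases hz2 : z ∈ Z₂
      · obtain ⟨W, hW, hk⟩ := h z ⟨hz, hz2⟩
        refine ⟨W, hW, fun σ hσ => ?_⟩
        simp only [hk σ hσ, ite_self]
      · refine ⟨_, hU1 z hz hz2, fun σ hσ => ?_⟩
        have : σ (stdSimplex.vertex 0) ∉ U := hσ ⟨_, rfl⟩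
        simp [this]
    · intro z hz
      by_cases hz1 : z ∈ Z₁
      · obtain ⟨W, hW, hk⟩ := h z ⟨hz1, hz⟩
        refine ⟨W, hW, fun σ hσ => ?_⟩
        simp only [Pi.sub_apply, hk σ hσ, ite_self, sub_zero]
      · refine ⟨_, hU2 z hz hz1, fun σ hσ => ?_⟩
        have : σ (stdSimplex.vertex 0) ∈ U := hσ ⟨_, rfl⟩
        simp [this]

end Pool.Agent.Helper775.Tight
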