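import Mathlib

/-!
Singular chains mod 2, tight maps and manifolds like projective planes: the definitions used in the
statement of the theorem.
-/

set_option autoImplicit false

namespace Pool.Agent.Helper775.Tight

open scoped InnerProductSpace Topology

/-- Singular `n`-simplices of `X`: continuous maps from the standard `n`-simplex to `X`. -/
abbrev Sing (X : Type*) [TopologicalSpace X] (n : ℕ) := C(stdSimplex ℝ (Fin (n + 1)), X)

/-- The `i`-th face of a singular `(n+1)`-simplex. -/
noncomputable def sface {X : Type*} [TopologicalSpace X] (n : ℕ) (i : Fin (n + 2))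
    (σ : Sing X (n + 1)) : Sing X n :=
  σ.comp ⟨stdSimplex.map i.succAbove, stdSimplex.continuous_map _⟩

/-- The boundary of singular chains with coefficients in `ℤ/2`: the linear map sending a singular
`(n+1)`-simplex to the sum of its `n + 2` faces. -/
noncomputable def bdry (X : Type*) [TopologicalSpace X] (n : ℕ) :
    (Sing X (n + 1) →₀ ZMod 2) →ₗ[ZMod 2] (Sing X n →₀ ZMod 2) :=
  Finsupp.linearCombination (ZMod 2)
    (fun σ => ∑ i : Fin (n + 2), Finsupp.single (sface n i σ) (1 : ZMod 2))

/-- Cycles: all chains in degree `0`, the kernel of the boundary in positive degrees. -/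
def IsCycle {X : Type*} [TopologicalSpace X] : ∀ n : ℕ, (Sing X n →₀ ZMod 2) → Prop
  | 0, _ => True
  | (n + 1), c => bdry X n c = 0

/-- The chain `c` is a chain of the subspace `A`: all its simplices have image in `A`. -/
def ChainIn {X : Type*} [TopologicalSpace X] (A : Set X) {n : ℕ} (c : Sing X n →₀ ZMod 2) : Prop :=
  ∀ σ ∈ c.support, Set.range σ ⊆ A

/-- The map `H_*(A; ℤ/2) → H_*(X; ℤ/2)` of singular homology induced by the inclusion is
injective: a cycle of `A` which is a boundary in `X` is a boundary in `A`. -/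
def HomologyInjective {X : Type*} [TopologicalSpace X] (A : Set X) : Prop :=
  ∀ (n : ℕ) (c : Sing X n →₀ ZMod 2), ChainIn A c → IsCycle n c →
    (∃ b, bdry X n b = c) → ∃ b, ChainIn A b ∧ bdry X n b = c

/-- `f : X → ℝ^N` is tight with respect to singular homology mod 2: for every closed half-space
`{y | t ≤ ⟪z, y⟫}`, `z ≠ 0`, the inclusion of its preimage into `X` is injective in homology. -/
def TightMap {X : Type*} [TopologicalSpace X] {N : ℕ} (f : X → EuclideanSpace ℝ (Fin N)) : Prop :=
  ∀ (z : EuclideanSpace ℝ (Fin N)) (t : ℝ), z ≠ 0 → HomologyInjective {x | t ≤ ⟪z, f x⟫_ℝ}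

/-- `f` is substantial: the image lies in no affine hyperplane `{y | ⟪z, y⟫ = t}`, `z ≠ 0`. -/
def Substantial {X : Type*} {N : ℕ} (f : X → EuclideanSpace ℝ (Fin N)) : Prop :=
  ∀ (z : EuclideanSpace ℝ (Fin N)) (t : ℝ), z ≠ 0 → ∃ x, ⟪z, f x⟫_ℝ ≠ t

/-- The coboundary of an Alexander-Spanier cochain mod 2. Cochains of degree `q` are functions on
the lists of `q + 1` points; the coboundary is the sum over all ways to omit one point (and it is
zero on lists with at most one point: there are no cochains of degree `-1`). -/
def asD {Y : Type*} (c : List Y → ZMod 2) (l : List Y) : ZMod 2 :=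
  if l.length ≤ 1 then 0 else ∑ i ∈ Finset.range l.length, c (l.eraseIdx i)

/-- An Alexander-Spanier cochain of degree `q` is locally zero if every point has a neighbourhood
`W` such that it vanishes on all lists of `q + 1` points of `W`. -/
def LocallyZero {Y : Type*} [TopologicalSpace Y] (q : ℕ) (c : List Y → ZMod 2) : Prop :=
  ∀ y : Y, ∃ W ∈ 𝓝 y, ∀ l : List Y, l.length = q + 1 → (∀ x ∈ l, x ∈ W) → c l = 0

/-- The restriction `H^*(X; ℤ/2) → H^*(A; ℤ/2)` of Alexander-Spanier (that is, Čech) cohomology is
surjective: every cocycle of `A` is the restriction of a cocycle of `X` up to a coboundary. For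
compact `X` and closed `A` this is dual, hence equivalent, to injectivity of
`H_*(A; ℤ/2) → H_*(X; ℤ/2)` in Čech homology. -/
def CechSurjective {X : Type*} [TopologicalSpace X] (A : Set X) : Prop :=
  ∀ (q : ℕ) (c : List A → ZMod 2), LocallyZero (q + 1) (asD c) →
    ∃ c' : List X → ZMod 2, LocallyZero (q + 1) (asD c') ∧
      ∃ b : List A → ZMod 2, LocallyZero q (fun l => c l - c' (l.map (↑)) - asD b l)

/-- `f : X → ℝ^N` is tight with respect to Čech theory mod 2. -/
def CechTightMap {X : Type*} [TopologicalSpace X] {N : ℕ} (f : X → EuclideanSpace ℝ (Fin N)) :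
    Prop :=
  ∀ (z : EuclideanSpace ℝ (Fin N)) (t : ℝ), z ≠ 0 → CechSurjective {x | t ≤ ⟪z, f x⟫_ℝ}

/-- A `2d`-manifold like a projective plane: a closed topological manifold of dimension `2d`
containing a (not necessarily tame) sphere `S^d` whose complement is homeomorphic to `ℝ^{2d}`. -/
structure IsLikeProjectivePlane (d : ℕ) (P : Type*) [TopologicalSpace P]
    [ChartedSpace (EuclideanSpace ℝ (Fin (2 * d))) P] : Prop where
  compact : CompactSpace P
  hausdorff : T2Space P
  sphere_and_cell : ∃ S : Set P,
    Nonempty (S ≃ₜ Metric.sphere (0 : EuclideanSpace ℝ (Fin (d + 1))) 1) ∧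
    Nonempty ((Sᶜ : Set P) ≃ₜ EuclideanSpace ℝ (Fin (2 * d)))

end Pool.Agent.Helper775.Tight
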