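import Pool.Agent.Helper775.Tight.Top
import Pool.Agent.Helper775.Tight.SingDefs

/-! Singular cochains of all degrees and the vertex map. -/

set_option autoImplicit false

namespace Pool.Agent.Helper775.Tight

open Set Topology SoftCx

/-- singular cochains of all degrees. -/
abbrev SCh (P : Type*) [TopologicalSpace P] := ∀ n : ℕ, Sing P n → ZMod 2

section

variable {P : Type*} [TopologicalSpace P]

/-- coboundary of singular cochains. -/
noncomputable def sdf (s : SCh P) : SCh P
  | 0, _ => 0
  | (n + 1), σ => ∑ i : Fin (n + 2), s n (sface n i σ)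

/-- evaluation of an Alexander-Spanier cochain on the vertices. -/
noncomputable def theta (c : Ch P) : SCh P := fun n σ =>
  c (List.ofFn (fun i : Fin (n + 1) => σ (stdSimplex.vertex i)))

theorem j9109_sface (n : ℕ) (i : Fin (n + 3)) (j : Fin (n + 2)) (σ : Sing P (n + 2)) :
    sface n j (sface (n + 1) i σ) =
      σ.comp ⟨stdSimplex.map (fun k => i.succAbove (j.succAbove k)), stdSimplex.continuous_map _⟩ := by
  ext x
  show σ (stdSimplex.map i.succAbove (stdSimplex.map j.succAbove x)) = σ (stdSimplex.map _ x)
  rw [stdSimplex.map_comp_apply]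
  rfl

theorem sdf_sdf (s : SCh P) : sdf (sdf s) = 0 := by
  funext n σ
  match n, σ with
  | 0, σ => rfl
  | 1, σ => exact Finset.sum_eq_zero fun i _ => rfl
  | (n + 2), σ =>
    show ∑ i : Fin (n + 3), ∑ j : Fin (n + 2), s n (sface n j (sface (n + 1) i σ)) = 0
    rw [← Finset.sum_product']
    refine Finset.sum_involution (fun a _ => (a.1.succAbove a.2, a.2.predAbove a.1)) ?_ ?_ ?_ ?_
    · rintro ⟨i, j⟩ _
      have h : sface n (j.predAbove i) (sface (n + 1) (i.succAbove j) σ) =
          sface n j (sface (n + 1) i σ) := by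
        rw [j9109_sface, j9109_sface]
        have : (fun k => (i.succAbove j).succAbove ((j.predAbove i).succAbove k)) =
            fun k => i.succAbove (j.succAbove k) := by
          funext k
          exact Fin.succAbove_succAbove_succAbove_predAbove i j k
        simp only [this]
      show s n (sface n j (sface (n + 1) i σ)) +
        s n (sface n (j.predAbove i) (sface (n + 1) (i.succAbove j) σ)) = 0
      rw [h, add_self2]
    · rintro ⟨i, j⟩ _ _ h
      exact Fin.succAbove_ne i j (congrArg Prod.fst h)
    · intro a _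
      simp
    · rintro ⟨i, j⟩ _
      exact Prod.ext (Fin.succAbove_succAbove_predAbove i j) (Fin.predAbove_predAbove_succAbove i j)

theorem j9109_dv {Ω : Type*} : ∀ (m : ℕ) (v : Fin (m + 1) → Ω) (c : Ch Ω),
    dv (List.ofFn v) c = ∑ i : Fin (m + 1), c (List.ofFn (fun j => v (i.succAbove j)))
  | 0, v, c => by
    simp [List.ofFn_succ, dv]
  | (m + 1), v, c => by
    rw [List.ofFn_succ, Fin.sum_univ_succ]
    show c (List.ofFn fun i => v i.succ) +
      dv (List.ofFn fun i => v i.succ) (fun l' => c (v 0 :: l')) = _
    rw [j9109_dv m (fun i => v i.succ) (fun l' => c (v 0 :: l'))]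
    congr 1
    refine Finset.sum_congr rfl fun i _ => ?_
    rw [List.ofFn_succ (f := fun j => v (i.succ.succAbove j))]
    simp only [Fin.succ_succAbove_zero, Fin.succ_succAbove_succ]

theorem sdf_theta (c : Ch P) : sdf (theta c) = theta (dd c) := by
  funext n σ
  match n, σ with
  | 0, σ =>
    show (0 : ZMod 2) = dd c (List.ofFn (fun i : Fin 1 => σ (stdSimplex.vertex i)))
    rw [dd_short (by simp)]
  | (n + 1), σ =>
    show ∑ i : Fin (n + 2), c (List.ofFn (fun j : Fin (n + 1) =>
      σ (stdSimplex.map i.succAbove (stdSimplex.vertex j)))) =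
      dd c (List.ofFn (fun i : Fin (n + 2) => σ (stdSimplex.vertex i)))
    rw [dd_apply (by simp)]
    show _ = dv (List.ofFn (fun i : Fin (n + 2) => σ (stdSimplex.vertex i))) c
    rw [j9109_dv]
    simp only [stdSimplex.map_vertex]

end

end Pool.Agent.Helper775.Tight
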