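import Pool.Agent.Helper775.Tight.Sg

set_option autoImplicit false

namespace Pool.Agent.Helper775.Tight.CV

/-- topological simplex -/
abbrev Dl (n : ℕ) := stdSimplex ℝ (Fin (n + 1))

/-- affine combination -/
noncomputable def affFun {n m : ℕ} (a : Fin (m + 1) → Dl n) (t : Dl m) : Dl n :=
  ⟨∑ i, t.1 i • (a i).1,
    (convex_stdSimplex ℝ (Fin (n + 1))).sum_mem (fun i _ => t.2.1 i) t.2.2 (fun i _ => (a i).2)⟩

theorem affFun_coe {n m : ℕ} (a : Fin (m + 1) → Dl n) (t : Dl m) :
    (affFun a t).1 = ∑ i, t.1 i • (a i).1 := rfl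

theorem continuous_affFun {n m : ℕ} (a : Fin (m + 1) → Dl n) : Continuous (affFun a) := by
  apply Continuous.subtype_mk
  apply continuous_finsetSum
  intro i _
  exact ((continuous_apply i).comp continuous_subtype_val).smul continuous_const

/-- the affine singular simplex spanned by a tuple of points -/
noncomputable def aff {n m : ℕ} (a : Fin (m + 1) → Dl n) : C(Dl m, Dl n) :=
  ⟨affFun a, continuous_affFun a⟩

theorem aff_coe {n m : ℕ} (a : Fin (m + 1) → Dl n) (t : Dl m) :
    (aff a t).1 = ∑ i, t.1 i • (a i).1 := rfl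

/-- vertices -/
noncomputable def vert (n : ℕ) : Fin (n + 1) → Dl n := fun i => stdSimplex.vertex i

theorem vert_self (n : ℕ) (i : Fin (n + 1)) : (vert n i).1 i = 1 := by
  change (Pi.single i 1 : Fin (n + 1) → ℝ) i = 1
  simp

theorem vert_ne (n : ℕ) (i j : Fin (n + 1)) (h : j ≠ i) : (vert n i).1 j = 0 := by
  change (Pi.single i 1 : Fin (n + 1) → ℝ) j = 0
  simp [h]

theorem map_eq_aff {n m : ℕ} (f : Fin (m + 1) → Fin (n + 1)) :
    (⟨stdSimplex.map f, stdSimplex.continuous_map _⟩ : C(Dl m, Dl n)) =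
      aff (fun i => vert n (f i)) := by
  classical
  apply ContinuousMap.ext
  intro t
  apply Subtype.ext
  rw [aff_coe]
  funext j
  change (FunOnFinite.linearMap ℝ ℝ f t) j = _
  rw [FunOnFinite.linearMap_apply_apply]
  simp only [Finset.sum_apply, Pi.smul_apply, smul_eq_mul]
  rw [Finset.sum_filter]
  refine Finset.sum_congr rfl fun i _ => ?_
  by_cases h : f i = j
  · subst h
    rw [if_pos rfl, vert_self, mul_one]
    rfl
  · rw [if_neg h, vert_ne _ _ _ (Ne.symm h), mul_zero]


theorem sface_eq {X : Type*} [TopologicalSpace X] {n : ℕ} (i : Fin (n + 2)) (σ : Sing X (n + 1)) :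
    sface n i σ = σ.comp (aff (fun j => vert (n + 1) (i.succAbove j))) := by
  rw [sface]
  congr 1
  exact map_eq_aff _

theorem range_sface {X : Type*} [TopologicalSpace X] (n : ℕ) (i : Fin (n + 2))
    (σ : Sing X (n + 1)) : Set.range (sface n i σ) ⊆ Set.range σ := by
  rintro _ ⟨x, rfl⟩
  exact ⟨_, rfl⟩

/-- the join map `(s, u) ↦ (s, (1-s) u)` -/
noncomputable def joinFun (q : ℕ) (p : unitInterval × Dl q) : Dl (q + 1) :=
  ⟨Fin.cons p.1.1 (fun i => (1 - p.1.1) * p.2.1 i), by
    constructor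
    · intro i
      refine Fin.cases ?_ (fun i => ?_) i
      · simpa using p.1.2.1
      · simp only [Fin.cons_succ]
        exact mul_nonneg (by linarith [p.1.2.2]) (p.2.2.1 i)
    · rw [Fin.sum_univ_succ]
      simp only [Fin.cons_zero, Fin.cons_succ]
      rw [← Finset.mul_sum, p.2.2.2]
      ring⟩

theorem joinFun_zero (q : ℕ) (p : unitInterval × Dl q) : (joinFun q p).1 0 = p.1.1 := rfl

theorem joinFun_succ (q : ℕ) (p : unitInterval × Dl q) (i : Fin (q + 1)) :
    (joinFun q p).1 i.succ = (1 - p.1.1) * p.2.1 i := rfl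

theorem continuous_joinFun (q : ℕ) : Continuous (joinFun q) := by
  apply Continuous.subtype_mk
  apply continuous_pi
  intro i
  refine Fin.cases ?_ (fun i => ?_) i
  · exact continuous_subtype_val.comp continuous_fst
  · apply Continuous.mul
    · exact continuous_const.sub (continuous_subtype_val.comp continuous_fst)
    · exact (continuous_apply i).comp (continuous_subtype_val.comp continuous_snd)

noncomputable def join (q : ℕ) : C(unitInterval × Dl q, Dl (q + 1)) :=
  ⟨joinFun q, continuous_joinFun q⟩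

theorem join_surjective (q : ℕ) : Function.Surjective (join q) := by
  intro t
  have ht0 : 0 ≤ t.1 0 := t.2.1 0
  have ht1 : t.1 0 ≤ 1 := by
    rw [← t.2.2]
    exact Finset.single_le_sum (fun i _ => t.2.1 i) (Finset.mem_univ _)
  have hsum : ∑ i : Fin (q + 1), t.1 i.succ = 1 - t.1 0 := by
    have := t.2.2
    rw [Fin.sum_univ_succ] at this
    linarith
  by_cases h : t.1 0 = 1
  · refine ⟨(⟨t.1 0, ht0, ht1⟩, vert q 0), ?_⟩
    apply Subtype.ext
    funext i
    refine Fin.cases ?_ (fun i => ?_) i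
    · rfl
    · change (1 - t.1 0) * (vert q 0).1 i = t.1 i.succ
      rw [h, sub_self, zero_mul]
      rw [h, sub_self] at hsum
      have := (Finset.sum_eq_zero_iff_of_nonneg (fun i _ => t.2.1 (Fin.succ i))).mp hsum i
        (Finset.mem_univ _)
      exact this.symm
  · have hpos : 0 < 1 - t.1 0 := by
      rcases lt_or_eq_of_le ht1 with h' | h'
      · linarith
      · exact absurd h' h
    refine ⟨(⟨t.1 0, ht0, ht1⟩, ⟨fun i => t.1 i.succ / (1 - t.1 0), ?_, ?_⟩), ?_⟩
    · intro i
      exact div_nonneg (t.2.1 _) hpos.le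
    · rw [← Finset.sum_div, hsum, div_self hpos.ne']
    · apply Subtype.ext
      funext i
      refine Fin.cases ?_ (fun i => ?_) i
      · rfl
      · change (1 - t.1 0) * (t.1 i.succ / (1 - t.1 0)) = t.1 i.succ
        field_simp

theorem join_quotient (q : ℕ) : Topology.IsQuotientMap (join q) :=
  ((join q).continuous.isClosedMap).isQuotientMap (join q).continuous (join_surjective q)

theorem join_eq_iff (q : ℕ) (p p' : unitInterval × Dl q) (h : join q p = join q p') :
    p.1 = p'.1 ∧ (p.1.1 = 1 ∨ p.2 = p'.2) := by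
  have h0 : p.1.1 = p'.1.1 := congrArg (fun x : Dl (q + 1) => x.1 0) h
  refine ⟨Subtype.ext h0, ?_⟩
  by_cases h1 : p.1.1 = 1
  · exact Or.inl h1
  · right
    apply Subtype.ext
    funext i
    have h2 : (1 - p.1.1) * p.2.1 i = (1 - p'.1.1) * p'.2.1 i :=
      congrArg (fun x : Dl (q + 1) => x.1 i.succ) h
    rw [← h0] at h2
    exact mul_left_cancel₀ (sub_ne_zero.mpr (Ne.symm h1)) h2

variable {X : Type*} [TopologicalSpace X] (C : Set X)

/-- restrict the codomain of a singular simplex -/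
noncomputable def toC {q : ℕ} (σ : Sing X q) (h : Set.range σ ⊆ C) : C(Dl q, C) :=
  ⟨fun u => ⟨σ u, h ⟨u, rfl⟩⟩, σ.continuous.subtype_mk _⟩

variable (p : C) (F : ContinuousMap.Homotopy (ContinuousMap.id C) (ContinuousMap.const C p))

noncomputable def preK {q : ℕ} (σ : Sing X q) (h : Set.range σ ⊆ C) : C(unitInterval × Dl q, C) :=
  ⟨fun z => F (z.1, toC C σ h z.2), by fun_prop⟩

theorem preK_factors {q : ℕ} (σ : Sing X q) (h : Set.range σ ⊆ C) :
    Function.FactorsThrough (preK C p F σ h) (join q) := by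
  intro z z' hz
  obtain ⟨h1, h2⟩ := join_eq_iff q z z' hz
  change F (z.1, toC C σ h z.2) = F (z'.1, toC C σ h z'.2)
  rcases h2 with h2 | h2
  · have e1 : z.1 = 1 := Subtype.ext h2
    rw [← h1, e1]
    simp
  · rw [h1, h2]

open Classical in
noncomputable def KC (q : ℕ) (σ : Sing X q) : Sing X (q + 1) :=
  if h : Set.range σ ⊆ C then
    (⟨Subtype.val, continuous_subtype_val⟩ : C(C, X)).comp
      ((join_quotient q).lift (preK C p F σ h) (preK_factors C p F σ h))
  else ContinuousMap.const _ p.1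

theorem KC_join {q : ℕ} (σ : Sing X q) (h : Set.range σ ⊆ C) (s : unitInterval) (u : Dl q) :
    KC C p F q σ (join q (s, u)) = (F (s, toC C σ h u)).1 := by
  rw [KC, dif_pos h, ContinuousMap.comp_apply]
  have := (join_quotient q).lift_comp (preK C p F σ h) (preK_factors C p F σ h)
  have h2 := congrArg (fun f => f (s, u)) this
  simp only [ContinuousMap.comp_apply] at h2
  change ((join_quotient q).lift (preK C p F σ h) (preK_factors C p F σ h) (join q (s, u))).1 = _
  rw [h2]
  rfl

theorem KC_range {q : ℕ} (σ : Sing X q) (h : Set.range σ ⊆ C) :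
    Set.range (KC C p F q σ) ⊆ C := by
  rintro _ ⟨t, rfl⟩
  obtain ⟨⟨s, u⟩, rfl⟩ := join_surjective q t
  rw [KC_join C p F σ h]
  exact Subtype.mem _

theorem face_join_zero (q : ℕ) (u : Dl q) :
    aff (fun j => vert (q + 1) ((0 : Fin (q + 2)).succAbove j)) u = join q (0, u) := by
  apply Subtype.ext
  rw [aff_coe]
  funext l
  simp only [Finset.sum_apply, Pi.smul_apply, smul_eq_mul, Fin.succAbove_zero]
  refine Fin.cases ?_ (fun l => ?_) l
  · change _ = (0 : ℝ)
    apply Finset.sum_eq_zero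
    intro i _
    rw [vert_ne _ _ _ (Fin.succ_ne_zero i).symm, mul_zero]
  · change _ = (1 - 0) * u.1 l
    rw [Finset.sum_eq_single l]
    · rw [vert_self]; ring
    · intro i _ hi
      rw [vert_ne, mul_zero]
      intro he
      exact hi (Fin.succ_injective _ he).symm
    · simp

theorem face_join_succ (q : ℕ) (i : Fin (q + 2)) (s : unitInterval) (u : Dl q) :
    aff (fun j => vert (q + 2) (i.succ.succAbove j)) (join q (s, u)) =
      join (q + 1) (s, aff (fun j => vert (q + 1) (i.succAbove j)) u) := by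
  apply Subtype.ext
  rw [aff_coe]
  funext l
  simp only [Finset.sum_apply, Pi.smul_apply, smul_eq_mul]
  rw [Fin.sum_univ_succ]
  have h0 : (join q (s, u)).1 0 = s.1 := rfl
  have h1 : ∀ j : Fin (q + 1), (join q (s, u)).1 j.succ = (1 - s.1) * u.1 j := fun j => rfl
  rw [h0, Fin.succ_succAbove_zero]
  simp only [h1, Fin.succ_succAbove_succ]
  refine Fin.cases ?_ (fun l => ?_) l
  · change _ = s.1
    rw [vert_self, Finset.sum_eq_zero]
    · ring
    · intro j _
      rw [vert_ne _ _ _ (Fin.succ_ne_zero _).symm, mul_zero]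
  · change _ = (1 - s.1) * (aff (fun j => vert (q + 1) (i.succAbove j)) u).1 l
    rw [vert_ne _ _ _ (Fin.succ_ne_zero l), mul_zero, zero_add, aff_coe]
    simp only [Finset.sum_apply, Pi.smul_apply, smul_eq_mul, Finset.mul_sum]
    refine Finset.sum_congr rfl fun j _ => ?_
    rw [mul_assoc]
    congr 2
    by_cases hj : i.succAbove j = l
    · rw [hj, vert_self, vert_self]
    · rw [vert_ne _ _ _ (Ne.symm hj), vert_ne]
      intro he
      exact hj (Fin.succ_injective _ he).symm

theorem face_join_one (u : Dl 0) :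
    aff (fun j => vert 1 ((1 : Fin 2).succAbove j)) u = join 0 (1, u) := by
  apply Subtype.ext
  rw [aff_coe]
  funext l
  have hu : u.1 0 = 1 := by
    have := u.2.2
    simpa using this
  have e : (∑ i : Fin (0 + 1), u.1 i • (vert 1 ((1 : Fin 2).succAbove i)).1) l =
      (vert 1 ((1 : Fin 2).succAbove 0)).1 l := by
    rw [Finset.sum_apply, Finset.sum_eq_single 0]
    · simp only [Pi.smul_apply, smul_eq_mul, hu, one_mul]
    · intro b _ hb
      exact absurd (Subsingleton.elim (α := Fin 1) b 0) hb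
    · simp
  refine e.trans ?_
  refine Fin.cases ?_ (fun l => ?_) l
  · change _ = (1 : ℝ)
    exact vert_self 1 0
  · change _ = (1 - 1) * u.1 l
    rw [sub_self, zero_mul]
    apply vert_ne
    have : (1 : Fin 2).succAbove (0 : Fin 1) = 0 := rfl
    rw [this]
    exact Fin.succ_ne_zero l

theorem coneData_of_nullhomotopic (p : C)
    (F : ContinuousMap.Homotopy (ContinuousMap.id C) (ContinuousMap.const C p)) :
    ∃ (K : ∀ q, Sing X q → Sing X (q + 1)),
    (∀ q (σ : Sing X q), Set.range σ ⊆ C → Set.range (K q σ) ⊆ C ∧ sface q 0 (K q σ) = σ) ∧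
    (∀ q (σ : Sing X (q + 1)), Set.range σ ⊆ C → ∀ i : Fin (q + 2),
      sface (q + 1) i.succ (K (q + 1) σ) = K q (sface q i σ)) ∧
    (∀ σ : Sing X 0, Set.range σ ⊆ C → sface 0 1 (K 0 σ) = ContinuousMap.const _ p.1) := by
  refine ⟨KC C p F, ?_, ?_, ?_⟩
  · intro q σ h
    refine ⟨KC_range C p F σ h, ?_⟩
    apply ContinuousMap.ext
    intro u
    rw [sface_eq, ContinuousMap.comp_apply, face_join_zero, KC_join C p F σ h]
    simp [toC]
  · intro q σ h i
    apply ContinuousMap.ext
    intro t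
    obtain ⟨⟨s, u⟩, rfl⟩ := join_surjective q t
    rw [sface_eq, ContinuousMap.comp_apply, face_join_succ, KC_join C p F σ h,
      KC_join C p F (sface q i σ) ((range_sface q i σ).trans h)]
    congr 3
    apply Subtype.ext
    change σ _ = (sface q i σ) u
    rw [sface_eq]
    rfl
  · intro σ h
    apply ContinuousMap.ext
    intro u
    rw [sface_eq, ContinuousMap.comp_apply, face_join_one, KC_join C p F σ h]
    simp


end Pool.Agent.Helper775.Tight.CV

namespace Pool.Agent.Helper775.Tight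

open Set Topology SoftCx

/-- small contractible neighbourhoods from the chart -/
theorem exists_contr {P : Type*} [TopologicalSpace P] {m : ℕ}
    [ChartedSpace (EuclideanSpace ℝ (Fin m)) P] (z : P) (W : Set P) (hW : W ∈ 𝓝 z) :
    ∃ (V : Set P) (hz : z ∈ V), V ∈ 𝓝 z ∧ V ⊆ W ∧
      Nonempty (ContinuousMap.Homotopy (ContinuousMap.id V) (ContinuousMap.const V ⟨z, hz⟩)) := by
  obtain ⟨φ, hφ⟩ : ∃ φ : OpenPartialHomeomorph P (EuclideanSpace ℝ (Fin m)), z ∈ φ.source :=
    ⟨chartAt _ z, mem_chart_source _ z⟩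
  have hzt : φ z ∈ φ.target := φ.map_source hφ
  have h1 : φ.target ∩ φ.symm ⁻¹' W ∈ 𝓝 (φ z) := by
    apply Filter.inter_mem (φ.open_target.mem_nhds hzt)
    apply (φ.continuousAt_symm hzt).preimage_mem_nhds
    rw [φ.left_inv hφ]
    exact hW
  obtain ⟨r, hr, hball⟩ := Metric.mem_nhds_iff.1 h1
  have hsym : ∀ y ∈ Metric.ball (φ z) r, φ.symm y ∈ φ.source ∩ φ ⁻¹' Metric.ball (φ z) r := by
    intro y hy
    refine ⟨φ.map_target (hball hy).1, ?_⟩
    rw [mem_preimage, φ.right_inv (hball hy).1]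
    exact hy
  have hzV : z ∈ φ.source ∩ φ ⁻¹' Metric.ball (φ z) r := ⟨hφ, Metric.mem_ball_self hr⟩
  refine ⟨φ.source ∩ φ ⁻¹' Metric.ball (φ z) r, hzV, ?_, ?_, ?_⟩
  · exact (φ.isOpen_inter_preimage Metric.isOpen_ball).mem_nhds hzV
  · rintro x ⟨hx1, hx2⟩
    have h2 := (hball hx2).2
    rw [mem_preimage, φ.left_inv hx1] at h2
    exact h2
  · have hseg : ∀ (s : unitInterval) (x : ↥(φ.source ∩ φ ⁻¹' Metric.ball (φ z) r)),
        (1 - (s : ℝ)) • φ x.1 + (s : ℝ) • φ z ∈ Metric.ball (φ z) r := by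
      intro s x
      apply (convex_ball (φ z) r) x.2.2 (Metric.mem_ball_self hr)
      · linarith [s.2.2]
      · exact s.2.1
      · ring
    have hcont : Continuous (fun p : unitInterval × ↥(φ.source ∩ φ ⁻¹' Metric.ball (φ z) r) =>
        (1 - (p.1 : ℝ)) • φ p.2.1 + (p.1 : ℝ) • φ z) := by
      have hφc : Continuous (fun x : ↥(φ.source ∩ φ ⁻¹' Metric.ball (φ z) r) => φ x.1) := by
        apply φ.continuousOn.comp_continuous continuous_subtype_val
        intro x
        exact x.2.1
      exact ((continuous_const.sub (continuous_subtype_val.comp continuous_fst)).smul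
        (hφc.comp continuous_snd)).add
        ((continuous_subtype_val.comp continuous_fst).smul continuous_const)
    refine ⟨{ toFun := fun p => ⟨φ.symm ((1 - (p.1 : ℝ)) • φ p.2.1 + (p.1 : ℝ) • φ z),
                hsym _ (hseg p.1 p.2)⟩
              continuous_toFun := ?_
              map_zero_left := ?_
              map_one_left := ?_ }⟩
    · apply Continuous.subtype_mk
      apply φ.continuousOn_symm.comp_continuous hcont
      intro p
      exact (hball (hseg p.1 p.2)).1
    · intro x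
      apply Subtype.ext
      simp [φ.left_inv x.2.1]
    · intro x
      apply Subtype.ext
      simp [φ.left_inv hφ]

theorem eq_of_add2 {a b : ZMod 2} (h : a + b = 0) : a = b := by
  revert a b; decide

/-- the local cohomology of a topological manifold is trivial. -/
theorem sg_acy_point {P : Type*} [MetricSpace P] {m : ℕ}
    [ChartedSpace (EuclideanSpace ℝ (Fin m)) P] (z : P) :
    (Sg P).Acy (theta one) {z} := by
  have hadj : ∀ W ∈ 𝓝 z, ∃ V ∈ 𝓝 z, V ⊆ W ∧ ∃ (K : ∀ q, Sing P q → Sing P (q + 1)),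
    (∀ q (σ : Sing P q), Set.range σ ⊆ V → Set.range (K q σ) ⊆ V ∧ sface q 0 (K q σ) = σ) ∧
    (∀ q (σ : Sing P (q + 1)), Set.range σ ⊆ V → ∀ i : Fin (q + 2),
      sface (q + 1) i.succ (K (q + 1) σ) = K q (sface q i σ)) ∧
    (∀ σ : Sing P 0, Set.range σ ⊆ V → sface 0 1 (K 0 σ) = ContinuousMap.const _ z) := by
    intro W hW
    obtain ⟨V, hz, hV, hVW, ⟨F⟩⟩ := exists_contr (m := m) z W hW
    exact ⟨V, hV, hVW, CV.coneData_of_nullhomotopic V ⟨z, hz⟩ F⟩
  have hconst : ∀ W ∈ 𝓝 z, Set.range (ContinuousMap.const (stdSimplex ℝ (Fin (0 + 1))) z) ⊆ W := by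
    intro W hW
    rintro _ ⟨x, rfl⟩
    exact mem_of_mem_nhds hW
  have hth : ∀ σ : Sing P 0, theta (P := P) one 0 σ = 1 := fun σ => rfl
  refine ⟨?_, ?_, ?_⟩
  · intro h
    obtain ⟨W, hW, h2⟩ := h z rfl
    have h3 := h2 (ContinuousMap.const _ z) (hconst W hW)
    rw [hth] at h3
    exact one_ne_zero h3
  · intro k hk
    obtain ⟨W, hW, h2⟩ := hk z rfl
    obtain ⟨V, hV, hVW, K, hK1, hK2, hK3⟩ := hadj W hW
    have key : ∀ σ : Sing P 0, Set.range σ ⊆ V → k 0 σ = k 0 (ContinuousMap.const _ z) := by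
      intro σ hσ
      have h3 : ∑ i : Fin (0 + 2), k 0 (sface 0 i (K 0 σ)) = 0 :=
        h2 (K 0 σ) ((hK1 0 σ hσ).1.trans hVW)
      rw [Fin.sum_univ_two, (hK1 0 σ hσ).2, hK3 σ hσ] at h3
      exact eq_of_add2 h3
    have h01 : k 0 (ContinuousMap.const _ z) = 0 ∨ k 0 (ContinuousMap.const _ z) = 1 := by
      generalize k 0 (ContinuousMap.const _ z) = t
      revert t; decide
    rcases h01 with h0 | h0
    · left
      intro w hw
      rw [mem_singleton_iff.1 hw]
      exact ⟨V, hV, fun σ hσ => by rw [key σ hσ, h0]⟩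
    · right
      intro w hw
      rw [mem_singleton_iff.1 hw]
      refine ⟨V, hV, fun σ hσ => ?_⟩
      show k 0 σ - theta (P := P) one 0 σ = 0
      rw [key σ hσ, h0, hth, sub_self]
  · intro n hn k hk
    obtain ⟨q, rfl⟩ : ∃ q, n = q + 2 := ⟨n - 2, by omega⟩
    obtain ⟨W, hW, h2⟩ := hk z rfl
    obtain ⟨V, hV, hVW, K, hK1, hK2, hK3⟩ := hadj W hW
    refine ⟨fun p τ => k (p + 1) (K p τ), ?_⟩
    intro w hw
    rw [mem_singleton_iff.1 hw]
    refine ⟨V, hV, fun σ hσ => ?_⟩
    show k (q + 1) σ - ∑ i : Fin (q + 2), k (q + 1) (K q (sface q i σ)) = 0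
    have h3 : ∑ i : Fin (q + 1 + 2), k (q + 1) (sface (q + 1) i (K (q + 1) σ)) = 0 :=
      h2 (K (q + 1) σ) ((hK1 (q + 1) σ hσ).1.trans hVW)
    rw [Fin.sum_univ_succ, (hK1 (q + 1) σ hσ).2] at h3
    have h4 : ∑ i : Fin (q + 2), k (q + 1) (sface (q + 1) i.succ (K (q + 1) σ))
        = ∑ i : Fin (q + 2), k (q + 1) (K q (sface q i σ)) :=
      Finset.sum_congr rfl fun i _ => by rw [hK2 q σ hσ i]
    have h5 := eq_of_add2 h3
    rw [h5]
    exact sub_eq_zero.2 h4


end Pool.Agent.Helper775.Tight
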