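import Mathlib

/-!
Abstract soft complexes over a metric space, in germ form.
`K` is one abelian group of cochains carrying all degrees at once; `N z n` is the subgroup of
cochains whose degree-`n` part vanishes near `z`.
-/

set_option autoImplicit false

namespace Pool.Agent.Helper775.Tight

open Set Topology

/-- A soft complex over `Y`. -/
structure SoftCx (Y K : Type*) [TopologicalSpace Y] [AddCommGroup K] where
  D : K →+ K
  N : Y → ℕ → AddSubgroup K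
  N_zero : ∀ z k, k ∈ N z 0
  D_mem : ∀ z n k, k ∈ N z n → D k ∈ N z (n + 1)
  DD_mem : ∀ z n k, D (D k) ∈ N z n
  isOpen_N : ∀ n k, IsOpen {z | k ∈ N z n}
  soft : ∀ n k (Z₁ Z₂ : Set Y), IsClosed Z₁ → IsClosed Z₂ → (∀ z ∈ Z₁ ∩ Z₂, k ∈ N z n) →
    ∃ k₁, (∀ z ∈ Z₁, k₁ ∈ N z n) ∧ ∀ z ∈ Z₂, k - k₁ ∈ N z n

namespace SoftCx

variable {Y K : Type*} [TopologicalSpace Y] [AddCommGroup K] (C : SoftCx Y K)

/-- cocycle near `Z`. -/
def Coc (Z : Set Y) (n : ℕ) (k : K) : Prop := ∀ z ∈ Z, C.D k ∈ C.N z (n + 1)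

/-- coboundary near `Z`. -/
def Cob (Z : Set Y) (n : ℕ) (k : K) : Prop := ∃ k', ∀ z ∈ Z, k - C.D k' ∈ C.N z n

/-- exactness over `Z` in index `n`. -/
def Ex (Z : Set Y) (n : ℕ) : Prop := ∀ k, C.Coc Z n k → C.Cob Z n k

variable {C}

theorem Coc.mono {Z Z' : Set Y} {n : ℕ} {k : K} (h : C.Coc Z n k) (hZ : Z' ⊆ Z) : C.Coc Z' n k :=
  fun z hz => h z (hZ hz)

theorem Cob.mono {Z Z' : Set Y} {n : ℕ} {k : K} (h : C.Cob Z n k) (hZ : Z' ⊆ Z) :
    C.Cob Z' n k := by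
  obtain ⟨k', h⟩ := h
  exact ⟨k', fun z hz => h z (hZ hz)⟩

theorem Coc.add {Z : Set Y} {n : ℕ} {k k' : K} (h : C.Coc Z n k) (h' : C.Coc Z n k') :
    C.Coc Z n (k + k') := by
  intro z hz
  rw [map_add]
  exact add_mem (h z hz) (h' z hz)

theorem Coc.sub {Z : Set Y} {n : ℕ} {k k' : K} (h : C.Coc Z n k) (h' : C.Coc Z n k') :
    C.Coc Z n (k - k') := by
  intro z hz
  rw [map_sub]
  exact sub_mem (h z hz) (h' z hz)

theorem Coc.neg {Z : Set Y} {n : ℕ} {k : K} (h : C.Coc Z n k) : C.Coc Z n (-k) := by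
  intro z hz
  rw [map_neg]
  exact neg_mem (h z hz)

theorem Coc.of_mem {Z : Set Y} {n : ℕ} {k : K} (h : ∀ z ∈ Z, k ∈ C.N z n) : C.Coc Z n k :=
  fun z hz => C.D_mem z n k (h z hz)

theorem coc_D (Z : Set Y) (n : ℕ) (k : K) : C.Coc Z n (C.D k) :=
  fun z _ => C.DD_mem z _ k

theorem cob_D (Z : Set Y) (n : ℕ) (k : K) : C.Cob Z n (C.D k) :=
  ⟨k, fun z _ => by rw [sub_self]; exact zero_mem _⟩

theorem Cob.of_mem {Z : Set Y} {n : ℕ} {k : K} (h : ∀ z ∈ Z, k ∈ C.N z n) : C.Cob Z n k :=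
  ⟨0, fun z hz => by rw [map_zero, sub_zero]; exact h z hz⟩

theorem cob_zero (Z : Set Y) (n : ℕ) : C.Cob Z n 0 :=
  Cob.of_mem fun _ _ => zero_mem _

theorem coc_zero (Z : Set Y) (n : ℕ) : C.Coc Z n 0 :=
  Coc.of_mem fun _ _ => zero_mem _

theorem Cob.add {Z : Set Y} {n : ℕ} {k k' : K} (h : C.Cob Z n k) (h' : C.Cob Z n k') :
    C.Cob Z n (k + k') := by
  obtain ⟨b, hb⟩ := h
  obtain ⟨b', hb'⟩ := h'
  refine ⟨b + b', fun z hz => ?_⟩
  have := add_mem (hb z hz) (hb' z hz)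
  rw [map_add]
  convert this using 1
  abel

theorem Cob.neg {Z : Set Y} {n : ℕ} {k : K} (h : C.Cob Z n k) : C.Cob Z n (-k) := by
  obtain ⟨b, hb⟩ := h
  refine ⟨-b, fun z hz => ?_⟩
  have := neg_mem (hb z hz)
  rw [map_neg]
  convert this using 1
  abel

theorem Cob.sub {Z : Set Y} {n : ℕ} {k k' : K} (h : C.Cob Z n k) (h' : C.Cob Z n k') :
    C.Cob Z n (k - k') := by
  rw [sub_eq_add_neg]
  exact h.add h'.neg

theorem Cob.coc {Z : Set Y} {n : ℕ} {k : K} (h : C.Cob Z n k) : C.Coc Z n k := by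
  obtain ⟨b, hb⟩ := h
  intro z hz
  have h1 := C.D_mem z n _ (hb z hz)
  rw [map_sub] at h1
  have := add_mem h1 (C.DD_mem z (n + 1) b)
  simpa using this

theorem cob_index_zero (Z : Set Y) (k : K) : C.Cob Z 0 k :=
  Cob.of_mem fun _ _ => C.N_zero _ _

theorem ex_zero (Z : Set Y) : C.Ex Z 0 := fun k _ => cob_index_zero Z k

theorem Cob.isOpen {n : ℕ} {k : K} {Z : Set Y} (h : C.Cob Z n k) :
    ∃ U : Set Y, IsOpen U ∧ Z ⊆ U ∧ C.Cob U n k := by
  obtain ⟨b, hb⟩ := h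
  exact ⟨{z | k - C.D b ∈ C.N z n}, C.isOpen_N n _, fun z hz => hb z hz, b, fun z hz => hz⟩

theorem Coc.isOpen {n : ℕ} {k : K} {Z : Set Y} (h : C.Coc Z n k) :
    ∃ U : Set Y, IsOpen U ∧ Z ⊆ U ∧ C.Coc U n k :=
  ⟨{z | C.D k ∈ C.N z (n + 1)}, C.isOpen_N _ _, fun z hz => h z hz, fun z hz => hz⟩

theorem cob_one {Z : Set Y} {k : K} : C.Cob Z 1 k ↔ ∀ z ∈ Z, k ∈ C.N z 1 := by
  constructor
  · rintro ⟨b, hb⟩ z hz
    have h1 := C.D_mem z 0 b (C.N_zero z b)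
    simpa using add_mem (hb z hz) h1
  · exact Cob.of_mem

/-- Mayer-Vietoris gluing, general form. -/
theorem mv' {n : ℕ} {k : K} {Z₁ Z₂ : Set Y} (h₁ : IsClosed Z₁) (h₂ : IsClosed Z₂)
    (hI : ∀ b, C.Coc (Z₁ ∩ Z₂) n b → ∃ b', C.Coc Z₁ n b' ∧ C.Cob (Z₁ ∩ Z₂) n (b - b'))
    (hc₁ : C.Cob Z₁ (n + 1) k) (hc₂ : C.Cob Z₂ (n + 1) k) : C.Cob (Z₁ ∪ Z₂) (n + 1) k := by
  obtain ⟨b₁, hb₁⟩ := hc₁
  obtain ⟨b₂, hb₂⟩ := hc₂
  have hcoc : C.Coc (Z₁ ∩ Z₂) n (b₁ - b₂) := by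
    intro z hz
    have := sub_mem (hb₂ z hz.2) (hb₁ z hz.1)
    rw [map_sub]
    convert this using 1
    abel
  obtain ⟨b', hb', e, he⟩ := hI _ hcoc
  obtain ⟨m, hm₁, hm₂⟩ := C.soft n (b₁ - b₂ - b' - C.D e) Z₁ Z₂ h₁ h₂ he
  refine ⟨b₁ - b' - C.D e - m, ?_⟩
  rintro z (hz | hz)
  · have e1 : k - C.D (b₁ - b' - C.D e - m) =
        (k - C.D b₁) + C.D b' + C.D (C.D e) + C.D m := by
      simp only [map_sub]; abel
    rw [e1]
    exact add_mem (add_mem (add_mem (hb₁ z hz) (hb' z hz)) (C.DD_mem z _ e))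
      (C.D_mem z n m (hm₁ z hz))
  · have e1 : k - C.D (b₁ - b' - C.D e - m) =
        (k - C.D b₂) - C.D (b₁ - b₂ - b' - C.D e - m) := by
      simp only [map_sub]; abel
    rw [e1]
    exact sub_mem (hb₂ z hz) (C.D_mem z n _ (hm₂ z hz))

/-- Mayer-Vietoris gluing. -/
theorem mv {n : ℕ} {k : K} {Z₁ Z₂ : Set Y} (h₁ : IsClosed Z₁) (h₂ : IsClosed Z₂)
    (hI : C.Ex (Z₁ ∩ Z₂) n)
    (hc₁ : C.Cob Z₁ (n + 1) k) (hc₂ : C.Cob Z₂ (n + 1) k) : C.Cob (Z₁ ∪ Z₂) (n + 1) k :=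
  mv' h₁ h₂ (fun b hb => ⟨0, coc_zero _ _, by rw [sub_zero]; exact hI b hb⟩) hc₁ hc₂

/-- minimal compact set on which a cochain is not a coboundary. -/
theorem exists_minimal [T2Space Y] {n : ℕ} {k : K} {Z : Set Y} (hZ : IsCompact Z)
    (h : ¬ C.Cob Z n k) :
    ∃ Z' ⊆ Z, IsCompact Z' ∧ ¬ C.Cob Z' n k ∧
      ∀ Z'' ⊆ Z', IsCompact Z'' → Z'' ≠ Z' → C.Cob Z'' n k := by
  obtain ⟨M, hMZ, hM⟩ := zorn_superset_nonempty {W : Set Y | IsCompact W ∧ ¬ C.Cob W n k} (by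
    intro c hc hchain hne
    have : Nonempty c := hne.to_subtype
    have hdir : Directed (· ⊇ ·) (fun s : c => (s : Set Y)) := by
      intro s t
      rcases hchain.total s.2 t.2 with h1 | h1
      · exact ⟨s, subset_rfl, h1⟩
      · exact ⟨t, h1, subset_rfl⟩
    refine ⟨⋂₀ c, ⟨?_, ?_⟩, fun s hs => sInter_subset_of_mem hs⟩
    · obtain ⟨s, hs⟩ := hne
      exact (hc hs).1.of_isClosed_subset (isClosed_sInter fun t ht => (hc ht).1.isClosed)
        (sInter_subset_of_mem hs)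
    · intro hcob
      obtain ⟨U, hU, hsub, hUc⟩ := hcob.isOpen
      obtain ⟨i, hi⟩ := exists_subset_nhds_of_isCompact' (V := fun s : c => (s : Set Y)) hdir
        (fun s => (hc s.2).1) (fun s => (hc s.2).1.isClosed) (U := U) (by
          intro x hx
          refine hU.mem_nhds (hsub ?_)
          rw [sInter_eq_iInter]
          exact hx)
      exact (hc i.2).2 (hUc.mono hi)) Z ⟨hZ, h⟩
  refine ⟨M, hMZ, hM.prop.1, hM.prop.2, ?_⟩
  intro W hW hWc hne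
  by_contra hn
  exact hne (hM.eq_of_subset ⟨hWc, hn⟩ hW)

end SoftCx

section metric

variable {Y K : Type*} [MetricSpace Y] [AddCommGroup K] {C : SoftCx Y K}

namespace SoftCx

/-- a minimal bad set cannot be split. -/
theorem not_cob_induction {n : ℕ} {k : K} {Z : Set Y} (hZ : IsCompact Z)
    (H : ∀ Z' ⊆ Z, IsCompact Z' →
      (∀ Z'' ⊆ Z', IsCompact Z'' → Z'' ≠ Z' → C.Cob Z'' n k) → C.Cob Z' n k) : C.Cob Z n k := by
  by_contra h
  obtain ⟨Z', h1, h2, h3, h4⟩ := exists_minimal hZ h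
  exact h3 (H Z' h1 h2 h4)

/-- pointwise exactness in indices `≤ n` implies exactness over compact sets. -/
theorem ex_of_pointwise (n : ℕ) {Z : Set Y} (hZ : IsCompact Z)
    (hp : ∀ z ∈ Z, ∀ m ≤ n, C.Ex {z} m) : C.Ex Z n := by
  induction n generalizing Z with
  | zero => exact ex_zero Z
  | succ n ih =>
    intro k hk
    refine not_cob_induction hZ fun Z' hZ' hc hmin => ?_
    rcases Z'.eq_empty_or_nonempty with rfl | ⟨z, hz⟩
    · exact Cob.of_mem (by simp)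
    have h1 : C.Cob {z} (n + 1) k :=
      hp z (hZ' hz) (n + 1) le_rfl k (hk.mono (by simpa using hZ' hz))
    obtain ⟨U, hU, hzU, hcU⟩ := h1.isOpen
    obtain ⟨r, hr, hrU⟩ := Metric.isOpen_iff.1 hU z (hzU rfl)
    have hA : IsCompact (Z' ∩ Metric.closedBall z (r / 2)) :=
      hc.inter_right Metric.isClosed_closedBall
    have hB : IsCompact (Z' \ Metric.ball z (r / 2)) := hc.diff Metric.isOpen_ball
    have hun : Z' = (Z' ∩ Metric.closedBall z (r / 2)) ∪ (Z' \ Metric.ball z (r / 2)) := by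
      ext x
      simp only [mem_union, mem_inter_iff, Metric.mem_closedBall, mem_sdiff, Metric.mem_ball]
      constructor
      · intro hx
        rcases le_or_gt (dist x z) (r / 2) with h | h
        · exact Or.inl ⟨hx, h⟩
        · exact Or.inr ⟨hx, not_lt.2 h.le⟩
      · rintro (h | h)
        · exact h.1
        · exact h.1
    rw [hun]
    refine mv hA.isClosed hB.isClosed ?_ ?_ ?_
    · refine ih (hA.inter hB) fun w hw m hm => hp w (hZ' hw.1.1) m (by omega)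
    · refine hcU.mono fun x hx => hrU ?_
      have := hx.2
      rw [Metric.mem_closedBall] at this
      rw [Metric.mem_ball]
      linarith
    · refine hmin _ sdiff_subset hB fun h => ?_
      have : z ∈ Z' \ Metric.ball z (r / 2) := by rw [h]; exact hz
      exact this.2 (Metric.mem_ball_self (by positivity))

/-- closed neighbourhoods of a compact set `B` in a compact set `A`: if something holds near `B`,
then `A` is covered by compact `A₁ ⊆ U` and compact `A₂` disjoint from `B`,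
with `A₁` a neighbourhood. -/
theorem exists_split {A B U : Set Y} (hA : IsCompact A) (hB : IsCompact B) (hU : IsOpen U)
    (hBU : B ⊆ U) : ∃ A₁ A₂ : Set Y, IsCompact A₁ ∧ IsCompact A₂ ∧ A = A₁ ∪ A₂ ∧ A₁ ⊆ U ∧
      Disjoint A₂ B ∧ A ∩ B ⊆ A₁ := by
  obtain ⟨V, hV, hBV, hVU⟩ := hB.exists_isOpen_closure_subset (hU.mem_nhdsSet.2 hBU)
  refine ⟨A ∩ closure V, A \ V, hA.inter_right isClosed_closure, hA.diff hV, ?_, ?_, ?_, ?_⟩
  · ext x
    simp only [mem_union, mem_inter_iff, mem_sdiff]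
    constructor
    · intro hx
      by_cases hxV : x ∈ V
      · exact Or.inl ⟨hx, subset_closure hxV⟩
      · exact Or.inr ⟨hx, hxV⟩
    · rintro (h | h)
      · exact h.1
      · exact h.1
  · exact fun x hx => hVU hx.2
  · rw [Set.disjoint_left]
    exact fun x hx hxB => hx.2 (hBV hxB)
  · exact fun x hx => ⟨hx.1, subset_closure (hBV hx.2)⟩

/-- (Abs2) exact off `B`; a cocycle over `A` which is a coboundary near `B` is a coboundary. -/
theorem cob_of_cob_near {n : ℕ} {A B : Set Y} (hA : IsCompact A) (hB : IsCompact B)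
    (hp : ∀ z ∈ A \ B, ∀ m, C.Ex {z} m) {k : K} (hk : C.Coc A n k)
    (hkB : C.Cob B n k) : C.Cob A n k := by
  cases n with
  | zero => exact cob_index_zero _ _
  | succ n =>
    obtain ⟨U, hU, hBU, hUc⟩ := hkB.isOpen
    obtain ⟨A₁, A₂, h1, h2, hun, h3, h4, h5⟩ := exists_split hA hB hU hBU
    have hA2 : ∀ z ∈ A₂, z ∈ A \ B := fun z hz =>
      ⟨by rw [hun]; exact Or.inr hz, fun hzB => (Set.disjoint_left.1 h4) hz hzB⟩
    rw [hun]
    refine mv h1.isClosed h2.isClosed ?_ (hUc.mono h3) ?_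
    · exact ex_of_pointwise n (h1.inter h2) fun z hz m _ => hp z (hA2 z hz.2) m
    · refine ex_of_pointwise (n + 1) h2 (fun z hz m _ => hp z (hA2 z hz) m) k (hk.mono ?_)
      rw [hun]; exact subset_union_right

/-- (Abs3) exact off `B`; a cocycle near `B` extends to a cocycle over `A`. -/
theorem exists_extend {n : ℕ} {A B : Set Y} (hA : IsCompact A) (hB : IsCompact B) (hBA : B ⊆ A)
    (hp : ∀ z ∈ A \ B, ∀ m, C.Ex {z} m) {k : K} (hk : C.Coc B n k) :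
    ∃ k', C.Coc A n k' ∧ ∀ z ∈ B, k' - k ∈ C.N z n := by
  obtain ⟨U, hU, hBU, hUc⟩ := hk.isOpen
  obtain ⟨A₁, A₂, h1, h2, hun, h3, h4, h5⟩ := exists_split hA hB hU hBU
  have hA2 : ∀ z ∈ A₂, z ∈ A \ B := fun z hz =>
    ⟨by rw [hun]; exact Or.inr hz, fun hzB => (Set.disjoint_left.1 h4) hz hzB⟩
  obtain ⟨e, he⟩ := ex_of_pointwise n (h1.inter h2) (fun z hz m _ => hp z (hA2 z hz.2) m) k
    (hUc.mono (inter_subset_left.trans h3))
  obtain ⟨m, hm1, hm2⟩ := C.soft n (k - C.D e) A₁ A₂ h1.isClosed h2.isClosed he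
  refine ⟨k - m, ?_, ?_⟩
  · rw [hun]
    rintro z (hz | hz)
    · rw [map_sub]
      exact sub_mem (hUc z (h3 hz)) (C.D_mem z n m (hm1 z hz))
    · have e1 : C.D (k - m) = C.D (k - C.D e - m) + C.D (C.D e) := by
        simp only [map_sub]; abel
      rw [e1]
      exact add_mem (C.D_mem z n _ (hm2 z hz)) (C.DD_mem z _ e)
  · intro z hz
    have : k - m - k = - m := by abel
    rw [this]
    exact neg_mem (hm1 z (h5 ⟨hBA hz, hz⟩))

end SoftCx

end metric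

end Pool.Agent.Helper775.Tight
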