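import Pool.Agent.Helper775.Tight.Hemi

set_option autoImplicit false

namespace Pool.Agent.Helper775.Tight



open Set Topology SoftCx

theorem xa_sp_zero (M : ℕ) : Sp M 0 = ∅ := by
  apply Set.eq_empty_of_forall_notMem
  rintro x ⟨h1, h2⟩
  have : x = 0 := by
    ext i
    exact h2 i (Nat.zero_le _)
  rw [this, norm_zero] at h1
  exact zero_ne_one h1

theorem xa_sp_nonempty {M k : ℕ} (hk : 1 ≤ k) (hkM : k ≤ M) : (Sp M k).Nonempty := by
  refine ⟨EuclideanSpace.single ⟨0, by omega⟩ 1, ?_, ?_⟩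
  · simp
  · intro i hi
    have : i ≠ ⟨0, by omega⟩ := by
      intro h
      rw [h] at hi
      simp at hi
      omega
    simp [this]

/-- (D) -/
theorem sp_connected {M k : ℕ} (hk : 2 ≤ k) (hkM : k ≤ M) (c : Ch (EuclideanSpace ℝ (Fin M)))
    (hc : (AS _).Coc (Sp M k) 1 c) :
    (∀ z ∈ Sp M k, c ∈ (AS _).N z 1) ∨ ∀ z ∈ Sp M k, c - one ∈ (AS _).N z 1 := by
  obtain ⟨k', rfl⟩ : ∃ k', k = k' + 1 := ⟨k - 1, by omega⟩
  obtain ⟨A, B, hA, hB, hU, hI, aA, aB⟩ := hemi_facts (M := M) (k := k') (by omega)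
  obtain ⟨z₀, hz₀⟩ := xa_sp_nonempty (M := M) (k := k') (by omega) (by omega)
  rw [← hI] at hz₀
  rw [← hU] at hc ⊢
  have key : ¬ (c ∈ (AS _).N z₀ 1 ∧ c - one ∈ (AS _).N z₀ 1) := by
    rintro ⟨h1, h2⟩
    apply not_one_mem (singleton_nonempty z₀)
    intro z hz
    rw [mem_singleton_iff] at hz
    subst hz
    have := sub_mem h1 h2
    rwa [sub_sub_cancel] at this
  rcases aA.2.1 c (hc.mono subset_union_left) with h1 | h1 <;>
  rcases aB.2.1 c (hc.mono subset_union_right) with h2 | h2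
  · left
    rintro z (hz | hz)
    · exact h1 z hz
    · exact h2 z hz
  · exact absurd ⟨h1 z₀ hz₀.1, h2 z₀ hz₀.2⟩ key
  · exact absurd ⟨h2 z₀ hz₀.2, h1 z₀ hz₀.1⟩ key
  · right
    rintro z (hz | hz)
    · exact h1 z hz
    · exact h2 z hz

theorem sp_ex {M k : ℕ} (hk : 1 ≤ k) (hkM : k ≤ M) (n : ℕ) (hn : 2 ≤ n) (hnk : n ≠ k) :
    (AS (EuclideanSpace ℝ (Fin M))).Ex (Sp M k) n := by
  induction k generalizing n with
  | zero => omega
  | succ k' ih =>
    obtain ⟨A, B, hA, hB, hU, hI, aA, aB⟩ := hemi_facts (M := M) (k := k') (by omega)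
    obtain ⟨m, rfl⟩ : ∃ m, n = m + 1 := ⟨n - 1, by omega⟩
    intro c hc
    rw [← hU] at hc ⊢
    have cA : (AS (EuclideanSpace ℝ (Fin M))).Cob A (m + 1) c :=
      aA.2.2 (m + 1) hn c (hc.mono subset_union_left)
    have cB : (AS (EuclideanSpace ℝ (Fin M))).Cob B (m + 1) c :=
      aB.2.2 (m + 1) hn c (hc.mono subset_union_right)
    rcases Nat.eq_zero_or_pos k' with rfl | hk'
    · apply mv hA.isClosed hB.isClosed _ cA cB
      rw [hI, xa_sp_zero]
      intro b _
      exact Cob.of_mem (by simp)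
    · by_cases hm : 2 ≤ m
      · apply mv hA.isClosed hB.isClosed _ cA cB
        rw [hI]
        exact ih (by omega) (by omega) m hm (by omega)
      · obtain rfl : m = 1 := by omega
        apply mv' hA.isClosed hB.isClosed _ cA cB
        intro b hb
        rw [hI] at hb ⊢
        rcases sp_connected (by omega : 2 ≤ k') (by omega) b hb with h | h
        · exact ⟨0, coc_zero _ _, by rw [sub_zero]; exact Cob.of_mem h⟩
        · exact ⟨one, fun z _ => one_D_mem z, Cob.of_mem h⟩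



end Pool.Agent.Helper775.Tight
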